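import Pool.Agent.P.MP_1b1bb8_nt.AsymTools

/-!
The asymmetric construction of the two coprime integers.
-/

open Finset Real Filter Topology

namespace Pool.Agent.P.MP_1b1bb8_nt

open Pool.Agent.P.MP_3bc45c_nt

theorem asym_core {v a c : ℝ} (hv : 0 < v) (hv1 : v ≤ 1) (ha0 : 0 < a)
    (ha : a * v * (1 + log (1 / v)) < 1) (hc0 : 0 ≤ c)
    (hc : c < v * exp eulerMascheroniConstant) :
    ∀ᶠ L : ℝ in atTop, ∃ n₁ n₂ : ℕ, (n₁ : ℝ) < exp L ∧ (n₂ : ℝ) < exp L ∧ Nat.Coprime n₁ n₂ ∧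
      a * L < J n₁ ∧ c * L * log (log (log L)) / log (log L) < J n₂ := by
  obtain ⟨w, w', hw, hQa, hQc⟩ := exists_window_primes hv hv1 ha hc
  have hQ : V w' / V w = ∏ p ∈ primesIoc w w', (1 - 1 / (p : ℝ)) := by
    rw [V_eq_mul hw, mul_div_cancel_left₀ _ (V_pos w).ne']
  set Q := V w' / V w with hQ'
  have Q0 : 0 < Q := div_pos (V_pos _) (V_pos _)
  have Q1 : Q ≤ 1 := by
    rw [hQ]
    exact prod_le_one (fun p hp => (one_sub_inv_pos (mem_primesIoc.mp hp).2.2).le)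
      fun p _ => sub_le_self _ (by positivity)
  set G := exp eulerMascheroniConstant with hG
  have hG0 : 0 < G := exp_pos _
  obtain ⟨η, hη, hη1, hηc⟩ := exists_eta (mul_pos Q0 hG0) hQc
  obtain ⟨C, hC0, hC⟩ := card_smooth_le
  obtain ⟨x₀, hx₀⟩ := eventually_atTop.mp (Pool.Agent.Lib.Mertens.mertens_third.eventually_le_const
    (show exp (-eulerMascheroniConstant) < (1 + η) / G by
      rw [exp_neg, ← hG, ← one_div]
      exact div_lt_div_of_pos_right (by linarith) hG0))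
  have lv : 0 ≤ log (1 / v) := log_nonneg (one_le_one_div hv hv1)
  have av : 0 < a * v := mul_pos ha0 hv
  have Qa : 0 ≤ Q * (a * log (1 / v)) := by positivity
  obtain ⟨δ, hδ⟩ : ∃ δ, δ = (1 - (a * v + Q * (a * log (1 / v)))) / 6 := ⟨_, rfl⟩
  have δ0 : 0 < δ := by linarith
  have b0 : 0 < 1 - 3 * δ := by linarith
  have t1 : Tendsto (fun L : ℝ => log L) atTop atTop := tendsto_log_atTop
  have t2 : Tendsto (fun L : ℝ => log (log L)) atTop atTop := t1.comp t1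
  have t3 : Tendsto (fun L : ℝ => log (log (log L))) atTop atTop := t1.comp t2
  have h2η : 0 < 2 - 2 * η := by linarith
  have p0 := (top_tendsto hv ha0).eventually_le_const (lt_add_of_le_of_pos
    (mul_le_mul_of_nonneg_left (sum_inv_sub_le hv hv1) ha0.le) δ0)
  have p1 := ((pi_scaled b0).sub (pi_scaled av)).eventually_const_le
    (show Q * (a * log (1 / v)) + 2 * δ < 1 - 3 * δ - a * v by linarith)
  have p2 := ((pi_scaled h2η).sub (pi_scaled one_pos)).eventually_const_le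
    (show 1 - 3 * η < 2 - 2 * η - 1 by linarith)
  have q1 := ((theta_scaled hη).add ((theta_scaled h2η).sub
    (theta_scaled one_pos))).eventually_lt_const (show η + (2 - 2 * η - 1) < 1 by linarith)
  have q2 := (theta_scaled b0).eventually_lt_const (show 1 - 3 * δ < 1 by linarith)
  have q3 : ∀ᶠ t : ℝ in atTop, 2 * C * a * exp (-(η / 2 * t)) ≤ δ / 2 := by
    simpa using ev_poly_exp (half_pos hη) (2 * C * a) 0 (half_pos δ0)
  filter_upwards [p0, p1, p2, q1, q2, t2.eventually q3, eventually_ge_atTop (3 / a),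
    eventually_gt_atTop 0, t1.eventually_gt_atTop 0,
    t2.eventually_gt_atTop 0, t3.eventually_ge_atTop 1,
    t3.eventually_ge_atTop (log (20 / η) / η),
    t3.eventually (ev_pow_le one_pos 2 1),
    t2.eventually (ev_pow_le one_pos 8 2), t2.eventually (ev_pow_le one_pos (2 / η) 1),
    t2.eventually (ev_pow_le one_pos (2 * (|x₀| + w')) 1),
    t1.eventually (ev_pow_le one_half_pos (4 / min δ (min η (a * v))) 1),
    t1.eventually (ev_pow_le one_pos (3 / η) 1), t1.eventually_ge_atTop (|log (a / 2)| / η)]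
    with L p0 p1 p2 q1 q2 q3 hLa hL0 hl0 hl₂0 hl₃1 h10 e1 e2 e3 e4 e5 e6 e7
  simp only [one_mul, pow_one] at p2 q1 e1 e2 e3 e4 e5 e6
  obtain ⟨l, hl⟩ : ∃ l, log L = l := ⟨_, rfl⟩
  simp only [hl] at p0 p1 p2 q3 hl0 hl₂0 hl₃1 h10 e1 e2 e3 e4 e5 e6 e7 ⊢
  obtain ⟨l₂, hl₂⟩ : ∃ l₂, log l = l₂ := ⟨_, rfl⟩
  simp only [hl₂] at q3 hl₂0 hl₃1 h10 e1 e2 e3 e4 ⊢
  obtain ⟨l₃, hl₃⟩ : ∃ l₃, log l₂ = l₃ := ⟨_, rfl⟩
  simp only [hl₃] at hl₃1 h10 e1 ⊢
  have x1 : exp l = L := by rw [← hl, exp_log hL0]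
  have x2 : exp l₂ = l := by rw [← hl₂, exp_log hl0]
  have x3 : exp l₃ = l₂ := by rw [← hl₃, exp_log hl₂0]
  rw [x3] at e1
  rw [x2] at e2 e3 e4
  rw [x1] at e6
  have hl₃0 : 0 < l₃ := by linarith
  have o1 : l₃ + 1 ≤ l₂ := x3 ▸ add_one_le_exp l₃
  have o2 : l₂ + 1 ≤ l := x2 ▸ add_one_le_exp l₂
  obtain ⟨μ, hμ⟩ : ∃ μ, min δ (min η (a * v)) = μ := ⟨_, rfl⟩
  have μ0 : 0 < μ := hμ ▸ lt_min δ0 (lt_min hη av)
  have μ1 : μ ≤ δ := hμ ▸ min_le_left _ _
  have μ2 : μ ≤ η := hμ ▸ (min_le_right _ _).trans (min_le_left _ _)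
  have μ3 : μ ≤ a * v := hμ ▸ (min_le_right _ _).trans (min_le_right _ _)
  rw [hμ, div_mul_eq_mul_div, div_le_iff₀' μ0] at e5
  rw [div_mul_eq_mul_div, div_le_iff₀' hη] at e3 e6
  rw [div_le_iff₀' hη, log_le_iff_le_exp (by positivity)] at h10
  rw [div_le_iff₀' hη] at e7
  rw [div_le_iff₀' ha0] at hLa
  -- the ratio `r`
  obtain ⟨r, hr⟩ : ∃ r, l₃ / l₂ = r := ⟨_, rfl⟩
  have r0 : 0 < r := hr ▸ div_pos hl₃0 hl₂0
  have r1 : 2 * r ≤ 1 := by
    rw [← hr, ← mul_div_assoc, div_le_one hl₂0]; exact e1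
  have r2 : 1 / l₂ ≤ r := hr ▸ div_le_div_of_nonneg_right hl₃1 hl₂0.le
  have r3 : 3 ≤ η * (L * r) := by
    have : 3 ≤ η * L * (1 / l₂) := by
      rw [mul_one_div, le_div_iff₀ hl₂0]; linarith
    linarith [mul_le_mul_of_nonneg_left r2 (mul_pos hη hL0).le]
  have Lr : 0 < L * r := mul_pos hL0 r0
  -- the two lengths
  obtain ⟨H, H1, H2, H4⟩ : ∃ H : ℕ, c * (L * r) ≤ H ∧ (H : ℝ) ≤ (c + η) * (L * r) ∧ 2 ≤ H :=
    ⟨⌈c * (L * r)⌉₊ + 2, by push_cast; linarith [Nat.le_ceil (c * (L * r))], by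
      have := (Nat.ceil_lt_add_one (show 0 ≤ c * (L * r) by positivity)).le
      push_cast
      linarith, by omega⟩
  have K1 : (⌊a * L⌋₊ : ℝ) ≤ a * L := Nat.floor_le (by positivity)
  have K2 : a * L < ⌊a * L⌋₊ + 1 := Nat.lt_floor_add_one _
  have K3 : 2 ≤ ⌊a * L⌋₊ := Nat.le_floor (by push_cast; linarith)
  have K0 : (0 : ℝ) < ⌊a * L⌋₊ := by linarith
  have K4 : (1 - η) * l ≤ log ⌊a * L⌋₊ := by
    have h2 := log_le_log (by positivity) (show a / 2 * L ≤ ⌊a * L⌋₊ by linarith)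
    rw [log_mul (by positivity) hL0.ne', hl] at h2
    linarith [neg_abs_le (log (a / 2))]
  -- the smoothness bound `z`
  obtain ⟨u, hu⟩ : ∃ u, (1 + 6 * η) * l₂ / l₃ = u := ⟨_, rfl⟩
  have u0 : 0 < u := hu ▸ by positivity
  have u1 : u * r = 1 + 6 * η := by rw [← hu, ← hr]; field_simp
  have u2 : u ≤ 2 * l₂ := by
    rw [← hu]
    refine (div_le_self (by positivity) hl₃1).trans ?_
    exact mul_le_mul_of_nonneg_right (by linarith) hl₂0.le
  have u3 : 2 ≤ u := by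
    by_contra h2
    linarith [mul_pos (sub_pos.mpr (not_le.mp h2)) r0]
  have u4 : l / (2 * l₂) ≤ l / u := div_le_div_of_nonneg_left hl0.le u0 u2
  have u5 : l / u ≤ l / 2 := div_le_div_of_nonneg_left hl0.le (by norm_num) u3
  have u6 : 1 ≤ η * (l / u) := by
    have : 1 ≤ η * (l / (2 * l₂)) := by
      rw [← mul_div_assoc, le_div_iff₀ (by positivity)]; linarith
    exact this.trans (mul_le_mul_of_nonneg_left u4 hη.le)
  have u7 : 4 * l₂ ≤ l / u := by
    refine le_trans ?_ u4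
    rw [le_div_iff₀ (by positivity)]; linarith
  have u8 : |x₀| + w' ≤ l / u := by
    refine le_trans ?_ u4
    rw [le_div_iff₀ (by positivity)]; linarith
  obtain ⟨z, z1, z2⟩ : ∃ z : ℕ, exp (l / u) ≤ z ∧ (z : ℝ) ≤ exp (l / u) + 1 :=
    ⟨⌈exp (l / u)⌉₊, Nat.le_ceil _, (Nat.ceil_lt_add_one (exp_pos _).le).le⟩
  have z3 : l / u + 1 ≤ z := (add_one_le_exp _).trans z1
  have z0 : (2 : ℝ) ≤ z := by linarith
  have lz1 : l / u ≤ log z := by rwa [le_log_iff_exp_le (by linarith)]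
  have lz2 : log z ≤ l / u + 1 := by
    rw [log_le_iff_le_exp (by linarith), exp_add]
    have h2 : exp (l / u) * 2 ≤ exp (l / u) * exp 1 :=
      mul_le_mul_of_nonneg_left (by linarith [add_one_le_exp (1 : ℝ)]) (exp_pos _).le
    have h3 := one_le_exp (show 0 ≤ l / u by positivity)
    linarith
  have lz0 : 0 < log (z : ℝ) := by linarith
  have y1 : exp (l / 2) + 1 ≤ μ / 2 * (L / l) := by
    have h1 := one_le_exp (show 0 ≤ l / 2 by positivity)
    have h2 : exp (l / 2) * exp (l / 2) = L := by rw [← exp_add, add_halves, x1]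
    rw [show 1 / 2 * l = l / 2 by ring] at e5
    rw [← mul_div_assoc, le_div_iff₀ hl0, ← h2]
    linarith [mul_le_mul_of_nonneg_right e5 (exp_pos (l / 2)).le,
      mul_nonneg (sub_nonneg.mpr h1) hl0.le]
  have Ll0 : 0 < L / l := div_pos hL0 hl0
  have Ll : L / l ≤ L := div_le_self hL0.le (by linarith)
  have z4 : (z : ℝ) ≤ μ * L := by
    have := exp_le_exp.mpr u5
    linarith [mul_le_mul_of_nonneg_left Ll μ0.le, mul_pos μ0 hL0]
  have avL : a * v * L ≤ (1 - 3 * δ) * L := mul_le_mul_of_nonneg_right (by linarith) hL0.le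
  have ηL : L ≤ (2 - 2 * η) * L := le_mul_of_one_le_left hL0.le (by linarith)
  have wz : w' ≤ z := by exact_mod_cast (show (w' : ℝ) ≤ z by linarith [abs_nonneg x₀])
  have zle : z ≤ ⌊η * L⌋₊ := Nat.le_floor (z4.trans (mul_le_mul_of_nonneg_right μ2 hL0.le))
  have zy : z ≤ ⌊a * v * L⌋₊ := Nat.le_floor (z4.trans (mul_le_mul_of_nonneg_right μ3 hL0.le))
  have f1 : ⌊a * v * L⌋₊ ≤ ⌊(1 - 3 * δ) * L⌋₊ := Nat.floor_mono avL
  have f2 : ⌊(1 - 3 * δ) * L⌋₊ ≤ ⌊L⌋₊ := Nat.floor_mono (by linarith [mul_pos δ0 hL0])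
  have f3 : ⌊L⌋₊ ≤ ⌊(2 - 2 * η) * L⌋₊ := Nat.floor_mono ηL
  have pr : ∀ a b : ℕ, ∀ p ∈ primesIoc a b, p.Prime := fun a b p hp => (mem_primesIoc.mp hp).2.2
  have pru : ∀ a b a' b' : ℕ, ∀ p ∈ primesIoc a b ∪ primesIoc a' b', p.Prime :=
    fun a b a' b' p hp => (mem_union.mp hp).elim (pr _ _ p) (pr _ _ p)
  have prv : ∀ a b a' b' a'' b'' : ℕ,
      ∀ p ∈ primesIoc a b ∪ primesIoc a' b' ∪ primesIoc a'' b'', p.Prime :=
    fun a b a' b' a'' b'' p hp => (mem_union.mp hp).elim (pru _ _ _ _ p) (pr _ _ p)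
  have dj : ∀ a b a' b' : ℕ, b ≤ a' → Disjoint (primesIoc a b) (primesIoc a' b') :=
    fun a b a' b' h => disjoint_left.mpr fun p hp hp' => by
      have := mem_primesIoc.mp hp
      have := mem_primesIoc.mp hp'
      omega
  refine ⟨∏ p ∈ primesIoc w w' ∪ primesIoc z ⌊a * v * L⌋₊
      ∪ primesIoc ⌊a * v * L⌋₊ ⌊(1 - 3 * δ) * L⌋₊, p,
    ∏ p ∈ primesIoc 0 w ∪ primesIoc w' z ∪ primesIoc ⌊L⌋₊ ⌊(2 - 2 * η) * L⌋₊, p,
    prod_lt_exp (prv _ _ _ _ _ _) ?_, prod_lt_exp (prv _ _ _ _ _ _) ?_, ?_, ?_, ?_⟩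
  · rw [div_lt_one hL0] at q2
    refine lt_of_le_of_lt ?_ q2
    refine sum_le_sum_of_subset_of_nonneg (fun p hp => ?_) fun p _ _ => log_natCast_nonneg p
    have := prv _ _ _ _ _ _ p hp
    simp only [mem_union, mem_primesIoc] at hp
    exact mem_primesIoc.mpr ⟨this.pos, by omega, this⟩
  · rw [sum_union (disjoint_union_left.mpr ⟨dj _ _ _ _ (by omega), dj _ _ _ _ (by omega)⟩),
      sum_log_primesIoc ηL]
    have h1 : ∑ p ∈ primesIoc 0 w ∪ primesIoc w' z, log (p : ℝ) ≤ Chebyshev.theta (η * L) := by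
      refine sum_le_sum_of_subset_of_nonneg (fun p hp => ?_) fun p _ _ => log_natCast_nonneg p
      have := pru _ _ _ _ p hp
      simp only [mem_union, mem_primesIoc] at hp
      exact mem_primesIoc.mpr ⟨this.pos, by omega, this⟩
    rw [← sub_div, ← add_div, div_lt_one hL0] at q1
    linarith
  · refine Nat.Coprime.prod_left fun p hp => Nat.Coprime.prod_right fun q hq => ?_
    refine (Nat.coprime_primes (prv _ _ _ _ _ _ p hp) (prv _ _ _ _ _ _ q hq)).mpr ?_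
    simp only [mem_union, mem_primesIoc] at hp hq
    omega
  · obtain ⟨g, hg⟩ := greedy (primesIoc w w') (fun p hp => (pr _ _ p hp).pos)
      ((Ioc 0 ⌊a * L⌋₊).filter fun n => ∀ p ∈ primesIoc z ⌊a * v * L⌋₊, ¬ p ∣ n)
    refine (Nat.floor_lt (by positivity)).mp (lt_J_of_classes (pru _ _ _ _) (pr _ _)
      (disjoint_union_left.mpr ⟨dj _ _ _ _ (by omega), dj _ _ _ _ le_rfl⟩)
      (fun p => if p ≤ w' then g p else 0) K3 ?_)
    have y2 := Nat.le_ceil (exp (l / 2))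
    have y3 := (Nat.ceil_lt_add_one (exp_pos (l / 2)).le).le
    have y4 : (2 : ℝ) ≤ ⌈exp (l / 2)⌉₊ := by linarith [add_one_le_exp (l / 2)]
    have h2 := hC ((1 - η) * l₃ / log z) ⌊a * L⌋₊ z ⌈exp (l / 2)⌉₊
      (div_nonneg (mul_nonneg (by linarith) hl₃0.le) lz0.le)
      (by rw [div_le_iff₀ lz0]; linarith [mul_pos hη hl₃0]) (by exact_mod_cast z0)
      (by exact_mod_cast y4)
    have h3 : (z : ℝ) ^ ((1 - η) * l₃ / log z) = exp ((1 - η) * l₃) := by
      rw [rpow_def_of_pos (by linarith)]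
      congr 1
      field_simp
    rw [h3] at h2
    have h4 := smooth_tiny hη hη1 hC0 x2 x3 hl₃0 h10 K0 K4 lz0 (by rw [hu]; linarith)
      (by linarith) (ly₀ := log ⌈exp (l / 2)⌉₊) (by rwa [le_log_iff_exp_le (by linarith)])
    have h5 : 2 * C * (⌊a * L⌋₊ / l) * exp (-(η / 2 * l₂)) ≤ δ / 2 * (L / l) :=
      calc _ ≤ 2 * C * (a * L / l) * exp (-(η / 2 * l₂)) := by gcongr
        _ = 2 * C * a * exp (-(η / 2 * l₂)) * (L / l) := by ring
        _ ≤ _ := mul_le_mul_of_nonneg_right q3 Ll0.le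
    have h6 : (Q * (a * log (1 / v)) + 2 * δ) * (L / l)
        ≤ (primesIoc ⌊a * v * L⌋₊ ⌊(1 - 3 * δ) * L⌋₊).card := by
      rw [card_primesIoc f1, ← mul_div_assoc, div_le_iff₀ hl0]
      rwa [← sub_div, ← sub_mul, le_div_iff₀ hL0] at p1
    rw [div_le_iff₀ hL0, ← le_div_iff₀ hl0, mul_div_assoc] at p0
    have h7 := (card_unsieved_le' hv ha0 hL0 z).trans (add_le_add
      (show _ ≤ δ * (L / l) by linarith [mul_le_mul_of_nonneg_right μ1 Ll0.le]) p0)
    rw [← hQ] at hg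
    have h8 := hg.trans (mul_le_mul_of_nonneg_right h7 Q0.le)
    have h9 := mul_le_mul_of_nonneg_left Q1 (mul_pos δ0 Ll0).le
    refine le_trans (card_le_card fun n hn => ?_) (Nat.cast_le.mp (h8.trans (le_trans ?_ h6)))
    · obtain ⟨h, h'⟩ := mem_filter.mp hn
      refine mem_filter.mpr ⟨mem_filter.mpr ⟨h, fun p hp => ?_⟩, fun p hp => ?_⟩
      · have := h' p (mem_union_right _ hp)
        rwa [if_neg (by have := mem_primesIoc.mp hp; omega), zero_add] at this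
      · have := h' p (mem_union_left _ hp)
        rwa [if_pos (mem_primesIoc.mp hp).2.1] at this
    · linarith
  · obtain ⟨g, hg⟩ := greedy (primesIoc 0 w ∪ primesIoc w' z) (fun p hp => (pru _ _ _ _ p hp).pos)
      (Ioc 0 H)
    have H5 : c * L * l₃ / l₂ ≤ H := le_of_eq_of_le (by rw [← hr]; ring) H1
    refine H5.trans_lt (Nat.cast_lt.mpr (lt_J_of_classes (pru _ _ _ _) (pr _ _)
      (disjoint_union_left.mpr ⟨dj _ _ _ _ (by omega), dj _ _ _ _ (by omega)⟩) g H4 ?_))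
    have h1 := hx₀ z (by linarith [le_abs_self x₀, Nat.cast_nonneg (α := ℝ) w'])
    rw [Nat.floor_natCast] at h1
    rw [Nat.card_Ioc, Nat.sub_zero, prod_union (dj _ _ _ _ hw)] at hg
    have h0 : V w * ∏ p ∈ primesIoc w' z, (1 - 1 / (p : ℝ)) = V z / Q := by
      rw [V_eq_mul wz, hQ']
      field_simp [(V_pos w).ne', (V_pos w').ne']
    have h2 : V z ≤ (1 + η) / G / (l / u) := by
      refine le_trans ?_ (div_le_div_of_nonneg_left (by positivity) (by positivity) lz1)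
      rw [le_div_iff₀' lz0]
      exact h1
    have h3 : (H : ℝ) * (V z / Q) ≤ (1 - 3 * η) * (L / l) :=
      calc _ ≤ (c + η) * (L * r) * ((1 + η) / G / (l / u) / Q) :=
            mul_le_mul H2 (div_le_div_of_nonneg_right h2 Q0.le) (div_pos (V_pos z) Q0).le
              (by positivity)
        _ = (c + η) * (u * r) * ((1 + η) / (Q * G)) * (L / l) := by field_simp
        _ ≤ _ := by rw [u1]; exact mul_le_mul_of_nonneg_right hηc (by positivity)
    have h6 : (1 - 3 * η) * (L / l) ≤ (primesIoc ⌊L⌋₊ ⌊(2 - 2 * η) * L⌋₊).card := by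
      rw [card_primesIoc f3, ← mul_div_assoc, div_le_iff₀ hl0]
      rwa [← sub_div, ← sub_mul, le_div_iff₀ hL0] at p2
    rw [← h0] at h3
    exact_mod_cast hg.trans (h3.trans h6)

end Pool.Agent.P.MP_1b1bb8_nt
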