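import Pool.Agent.P.MP_1b1bb8_nt.LowerCore

/-!
Tools for the asymmetric construction.
-/

open Finset Real Filter Topology

namespace Pool.Agent.P.MP_1b1bb8_nt

open Pool.Agent.P.MP_3bc45c_nt

theorem smooth_tiny {η C l l₂ l₃ H lz ly₀ : ℝ} (hη : 0 < η) (hη1 : η ≤ 1 / 10) (hC : 0 < C)
    (hl : exp l₂ = l) (hl₂ : exp l₃ = l₂) (hl₃ : 0 < l₃) (h10 : 20 / η ≤ exp (η * l₃))
    (hH0 : 0 < H) (hH : (1 - η) * l ≤ log H) (hlz0 : 0 < lz)
    (hlz : lz ≤ (1 + η) * (l / ((1 + 6 * η) * l₂ / l₃))) (hlzl : lz ≤ l) (hly₀ : l / 2 ≤ ly₀) :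
    C * (H ^ (1 - (1 - η) * l₃ / lz) * exp ((1 - η) * l₃) *
      (lz * exp (9 * exp ((1 - η) * l₃)))) / ly₀ ≤ 2 * C * (H / l) * exp (-(η / 2 * l₂)) := by
  have hl0 : 0 < l := hl ▸ exp_pos _
  have hl₂0 : 0 < l₂ := hl₂ ▸ exp_pos _
  have hτ : 0 ≤ (1 - η) * l₃ := mul_nonneg (by linarith) hl₃.le
  have h1 : (1 + η) * l₂ ≤ log H * ((1 - η) * l₃ / lz) := by
    refine le_trans ?_ (mul_le_mul_of_nonneg_right hH (by positivity))
    rw [← mul_div_assoc, le_div_iff₀ hlz0]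
    refine (mul_le_mul_of_nonneg_left hlz (by positivity)).trans ?_
    have : (1 + η) * l₂ * ((1 + η) * (l / ((1 + 6 * η) * l₂ / l₃)))
        = (1 + η) * (1 + η) / (1 + 6 * η) * (l * l₃) := by field_simp
    rw [this]
    have h2 : (1 + η) * (1 + η) / (1 + 6 * η) ≤ (1 - η) * (1 - η) := by
      rw [div_le_iff₀ (by positivity)]; nlinarith [mul_pos hη (mul_pos hη hη)]
    calc _ ≤ (1 - η) * (1 - η) * (l * l₃) := mul_le_mul_of_nonneg_right h2 (by positivity)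
      _ = _ := by ring
  have h2 : 20 * exp ((1 - η) * l₃) ≤ η * l₂ := by
    have h3 : l₂ = exp (η * l₃) * exp ((1 - η) * l₃) := by
      rw [← exp_add, ← hl₂]; congr 1; ring
    rw [div_le_iff₀' hη] at h10
    rw [h3]
    nlinarith [exp_pos ((1 - η) * l₃)]
  have h3 : H ^ (1 - (1 - η) * l₃ / lz) * exp ((1 - η) * l₃) * exp (9 * exp ((1 - η) * l₃))
      ≤ H / l * exp (-(η / 2 * l₂)) := by
    rw [rpow_sub hH0, rpow_one, rpow_def_of_pos hH0, div_eq_mul_inv, ← exp_neg, mul_assoc,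
      mul_assoc, ← exp_add, ← exp_add, div_eq_mul_inv H l, mul_assoc H l⁻¹,
      show l⁻¹ = exp (-l₂) by rw [exp_neg, hl], ← exp_add]
    refine mul_le_mul_of_nonneg_left (exp_le_exp.mpr ?_) hH0.le
    linarith [add_one_le_exp ((1 - η) * l₃)]
  have h5 : lz / ly₀ ≤ 2 := by
    rw [div_le_iff₀ (by linarith)]; linarith
  calc _ = C * ((H ^ (1 - (1 - η) * l₃ / lz) * exp ((1 - η) * l₃) *
        exp (9 * exp ((1 - η) * l₃))) * (lz / ly₀)) := by ring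
    _ ≤ C * (H / l * exp (-(η / 2 * l₂)) * 2) := by
        have : 0 < ly₀ := by linarith
        gcongr
    _ = _ := by ring

theorem window_tendsto {v : ℝ} (hv : 0 < v) :
    Tendsto (fun w : ℝ => V ⌊w ^ (1 / v)⌋₊ / V ⌊w⌋₊) atTop (𝓝 v) := by
  have m := Pool.Agent.Lib.Mertens.mertens_third
  have h := ((m.comp (tendsto_rpow_atTop (one_div_pos.mpr hv))).div m (exp_pos _).ne').const_mul v
  rw [div_self (exp_pos _).ne', mul_one] at h
  refine h.congr' ?_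
  filter_upwards [eventually_gt_atTop 1] with w hw
  have h1 := log_pos hw
  have h2 := V_pos ⌊w⌋₊
  simp only [Function.comp, Pi.div_apply]
  rw [log_rpow (by linarith)]
  change v * (1 / v * log w * V ⌊w ^ (1 / v)⌋₊ / (log w * V ⌊w⌋₊)) = _
  field_simp

theorem exists_window_primes {v a c G : ℝ} (hv : 0 < v) (hv1 : v ≤ 1)
    (ha : a * v * (1 + log (1 / v)) < 1) (hc : c < v * G) : ∃ w w' : ℕ, w ≤ w' ∧
      a * v + V w' / V w * (a * log (1 / v)) < 1 ∧ c < V w' / V w * G := by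
  have t := window_tendsto hv
  obtain ⟨w, h1, h2, h3⟩ := ((eventually_ge_atTop (1 : ℝ)).and
    ((((t.mul_const (a * log (1 / v))).const_add (a * v)).eventually_lt_const
      (show a * v + v * (a * log (1 / v)) < 1 by linarith)).and
      ((t.mul_const G).eventually_const_lt hc))).exists
  refine ⟨_, _, Nat.floor_mono ?_, h2, h3⟩
  simpa using rpow_le_rpow_of_exponent_le h1 (one_le_one_div hv hv1)

theorem sum_inv_sub_le {v : ℝ} (hv : 0 < v) (hv1 : v ≤ 1) :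
    ∑ m ∈ Icc 1 ⌊1 / v⌋₊, (1 / (m : ℝ) - v) ≤ log (1 / v) := by
  have k1 : 1 ≤ ⌊1 / v⌋₊ := (Nat.one_le_floor_iff _).mpr (one_le_one_div hv hv1)
  generalize ⌊1 / v⌋₊ = k at k1
  have k0 : (0 : ℝ) < k := by exact_mod_cast k1
  have h1 := harmonic_le_one_add_log k
  rw [harmonic_eq_sum_Icc] at h1
  push_cast at h1
  have h2 := log_le_sub_one_of_pos (mul_pos k0 hv)
  rw [log_mul k0.ne' hv.ne'] at h2
  rw [sum_sub_distrib, sum_const, Nat.card_Icc, Nat.add_sub_cancel, nsmul_eq_mul, one_div v,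
    log_inv]
  simp only [one_div]
  linarith

theorem card_unsieved_le' {v a L : ℝ} (hv : 0 < v) (ha : 0 < a) (hL : 0 < L) (z : ℕ) :
    (((Ioc 0 ⌊a * L⌋₊).filter fun n => ∀ p ∈ primesIoc z ⌊a * v * L⌋₊, ¬ p ∣ n).card : ℝ)
      ≤ (smoothUpTo ⌊a * L⌋₊ z).card + ∑ m ∈ Icc 1 ⌊1 / v⌋₊,
        ((Nat.primeCounting ⌊a / m * L⌋₊ : ℝ) - Nat.primeCounting ⌊a * v * L⌋₊) := by
  have h1 : ((Ioc 0 ⌊a * L⌋₊).filter fun n => ∀ p ∈ primesIoc z ⌊a * v * L⌋₊, ¬ p ∣ n)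
      ⊆ smoothUpTo ⌊a * L⌋₊ z ∪ (Icc 1 ⌊1 / v⌋₊).biUnion fun m =>
        (primesIoc ⌊a * v * L⌋₊ ⌊a / m * L⌋₊).image (m * ·) := by
    intro n hn
    obtain ⟨h2, h3⟩ := mem_filter.mp hn
    have h4 := mem_Ioc.mp h2
    by_cases h : ∀ p : ℕ, p.Prime → p ∣ n → p ≤ z
    · exact mem_union_left _ (mem_smoothUpTo.mpr ⟨h4.1, h4.2, h⟩)
    · push Not at h
      obtain ⟨p, hp, hd, hz⟩ := h
      have hx : ⌊a * v * L⌋₊ < p := by
        by_contra hx
        exact h3 p (mem_primesIoc.mpr ⟨hz, not_lt.mp hx, hp⟩) hd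
      obtain ⟨m, rfl⟩ := hd
      have m0 : 0 < m := Nat.pos_of_mul_pos_left h4.1
      have m1 : (0 : ℝ) < m := by exact_mod_cast m0
      have b1 : a * v * L < p := (Nat.floor_lt (by positivity)).mp hx
      have b2 : (p : ℝ) * m ≤ a * L := by
        have := (Nat.le_floor_iff (by positivity)).mp h4.2
        exact_mod_cast this
      refine mem_union_right _ (mem_biUnion.mpr ⟨m, mem_Icc.mpr ⟨m0, Nat.le_floor ?_⟩,
        mem_image.mpr ⟨p, mem_primesIoc.mpr ⟨hx, Nat.le_floor ?_, hp⟩, mul_comm _ _⟩⟩)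
      · rw [le_div_iff₀ hv]
        refine le_of_mul_le_mul_left ?_ (mul_pos ha hL)
        nlinarith [mul_lt_mul_of_pos_right b1 m1]
      · rwa [div_mul_eq_mul_div, le_div_iff₀ m1]
  have h2 := (card_le_card h1).trans ((card_union_le _ _).trans
    (Nat.add_le_add_left card_biUnion_le _))
  refine (Nat.cast_le.mpr h2).trans ?_
  push_cast
  refine add_le_add le_rfl (sum_le_sum fun m hm => ?_)
  have m1 : (0 : ℝ) < m := by exact_mod_cast (mem_Icc.mp hm).1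
  have m2 : (m : ℝ) ≤ 1 / v := (Nat.le_floor_iff (by positivity)).mp (mem_Icc.mp hm).2
  rw [← card_primesIoc (Nat.floor_mono (mul_le_mul_of_nonneg_right ?_ hL.le))]
  · exact_mod_cast card_image_le
  · rw [le_div_iff₀ hv] at m2
    rw [le_div_iff₀ m1]
    nlinarith

theorem top_tendsto {v a : ℝ} (hv : 0 < v) (ha : 0 < a) :
    Tendsto (fun L : ℝ => (∑ m ∈ Icc 1 ⌊1 / v⌋₊,
      ((Nat.primeCounting ⌊a / m * L⌋₊ : ℝ) - Nat.primeCounting ⌊a * v * L⌋₊)) * log L / L) atTop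
      (𝓝 (a * ∑ m ∈ Icc 1 ⌊1 / v⌋₊, (1 / (m : ℝ) - v))) := by
  simp only [sum_mul, sum_div, mul_sum, sub_mul, sub_div, mul_sub, mul_one_div]
  refine tendsto_finsetSum _ fun m hm => (pi_scaled ?_).sub (pi_scaled (mul_pos ha hv))
  exact div_pos ha (by exact_mod_cast (mem_Icc.mp hm).1)

end Pool.Agent.P.MP_1b1bb8_nt
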