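import Mathlib

/-!
The largest gap between consecutive totatives.
-/

open Finset

namespace Pool.Agent.P.MP_1b1bb8_nt

/-- The pairs `(a, b)` of consecutive totatives of `n`: `1 ≤ a < b < n`, both coprime to `n`,
and no integer strictly between them is coprime to `n`. -/
def gapPairs (n : ℕ) : Finset (ℕ × ℕ) :=
  (range n ×ˢ range n).filter fun ab => 1 ≤ ab.1 ∧ ab.1 < ab.2 ∧ Nat.Coprime ab.1 n ∧
    Nat.Coprime ab.2 n ∧ ∀ c ∈ Ioo ab.1 ab.2, ¬ Nat.Coprime c n

/-- The largest gap between consecutive totatives of `n` (zero if there is no such pair). -/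
def J (n : ℕ) : ℕ := (gapPairs n).sup fun ab => ab.2 - ab.1

end Pool.Agent.P.MP_1b1bb8_nt
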