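import Pool.Agent.P.MP_1b1bb8_nt.Sieve

/-!
The finite sieve inequality for an interval covered by the multiples of a set of primes.
-/

open Finset Real

namespace Pool.Agent.P.MP_1b1bb8_nt

noncomputable def wt (r : Finset ℕ) : ℝ := ∑ p ∈ r, log (p : ℝ)

noncomputable def cf (u : ℝ) (r : Finset ℕ) : ℝ := if wt r ≤ u then 1 / ph r else 0

noncomputable def g (S : Finset ℕ) (u : ℝ) : ℝ := ∑ r ∈ S.powerset, cf u r

noncomputable def K (S : Finset ℕ) : ℝ := ∏ p ∈ S, (1 - 1 / (p : ℝ))⁻¹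

theorem ph_pos {S r : Finset ℕ} (hS : ∀ p ∈ S, p.Prime) (hr : r ∈ S.powerset) : 0 < ph r :=
  prod_pos fun p hp => by
    have : (2 : ℝ) ≤ p := by exact_mod_cast (hS p (mem_powerset.mp hr hp)).two_le
    linarith

theorem wt_nonneg (r : Finset ℕ) : 0 ≤ wt r := sum_nonneg fun p _ => log_natCast_nonneg p

theorem cf_nonneg {S r : Finset ℕ} (hS : ∀ p ∈ S, p.Prime) (hr : r ∈ S.powerset) (u : ℝ) :
    0 ≤ cf u r := by
  have := ph_pos hS hr
  unfold cf
  split_ifs <;> positivity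

theorem cf_mono {S r : Finset ℕ} (hS : ∀ p ∈ S, p.Prime) (hr : r ∈ S.powerset) {u v : ℝ}
    (h : u ≤ v) : cf u r ≤ cf v r := by
  have := ph_pos hS hr
  unfold cf
  split_ifs with h1 h2
  · exact le_rfl
  · exact absurd (h1.trans h) h2
  · positivity
  · exact le_rfl

theorem g_nonneg {S : Finset ℕ} (hS : ∀ p ∈ S, p.Prime) (u : ℝ) : 0 ≤ g S u :=
  sum_nonneg fun _ hr => cf_nonneg hS hr u

theorem g_mono {S : Finset ℕ} (hS : ∀ p ∈ S, p.Prime) {u v : ℝ} (h : u ≤ v) : g S u ≤ g S v :=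
  sum_le_sum fun _ hr => cf_mono hS hr h

theorem one_le_g {S : Finset ℕ} (hS : ∀ p ∈ S, p.Prime) {u : ℝ} (hu : 0 ≤ u) : 1 ≤ g S u := by
  have h := single_le_sum (f := cf u) (fun r hr => cf_nonneg hS hr u) (empty_mem_powerset S)
  have h1 : cf u ∅ = 1 := by simp [cf, wt, ph, hu]
  rwa [h1] at h

theorem g_le_K {S : Finset ℕ} (hS : ∀ p ∈ S, p.Prime) (u : ℝ) : g S u ≤ K S := by
  have h1 : K S = ∑ r ∈ S.powerset, ∏ p ∈ r, 1 / ((p : ℝ) - 1) := by
    rw [← prod_one_add]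
    refine prod_congr rfl fun p hp => ?_
    have : (2 : ℝ) ≤ p := by exact_mod_cast (hS p hp).two_le
    have h2 : (p : ℝ) - 1 ≠ 0 := by linarith
    have h3 : (p : ℝ) ≠ 0 := by linarith
    field_simp
    ring
  rw [h1]
  refine sum_le_sum fun r hr => ?_
  have := ph_pos hS hr
  rw [prod_div_distrib, prod_const_one]
  unfold cf
  split_ifs
  · exact le_rfl
  · exact (one_div_pos.mpr this).le

theorem K_factor {p : ℕ} (hp : p.Prime) : 1 ≤ (1 - 1 / (p : ℝ))⁻¹ := by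
  have : (2 : ℝ) ≤ p := by exact_mod_cast hp.two_le
  have h1 : 1 / (p : ℝ) ≤ 1 / 2 := by gcongr
  have h2 : 0 < 1 / (p : ℝ) := by positivity
  rw [one_le_inv₀ (by linarith)]
  linarith

theorem K_mono {S T : Finset ℕ} (hT : ∀ p ∈ T, p.Prime) (h : S ⊆ T) : K S ≤ K T :=
  prod_le_prod_of_subset_of_one_le h (fun p hp => zero_le_one.trans (K_factor (hT p (h hp))))
    fun p hp _ => K_factor (hT p hp)

theorem one_le_K {S : Finset ℕ} (hS : ∀ p ∈ S, p.Prime) : 1 ≤ K S :=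
  (one_le_g hS le_rfl).trans (g_le_K hS 0)

theorem Nm_le {S : Finset ℕ} (hS : ∀ p ∈ S, p.Prime) {u : ℝ} {c : Finset ℕ → ℝ}
    (hc : ∀ r ∈ S.powerset, |c r| ≤ cf u r) : Nm S c ≤ exp u * K S ^ 2 := by
  have h1 : ∑ r ∈ S.powerset, ∏ p ∈ r, ((p : ℝ) + 1) / (((p : ℝ) - 1) * p) ≤ K S ^ 2 := by
    rw [← prod_one_add, K, ← prod_pow]
    refine prod_le_prod (fun p hp => ?_) fun p hp => ?_
    · have : (2 : ℝ) ≤ p := by exact_mod_cast (hS p hp).two_le
      have h2 : 0 < (p : ℝ) - 1 := by linarith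
      positivity
    · have : (2 : ℝ) ≤ p := by exact_mod_cast (hS p hp).two_le
      have h2 : 0 < (p : ℝ) - 1 := by linarith
      have h3 : 0 < (p : ℝ) := by linarith
      have h4 : (1 - 1 / (p : ℝ))⁻¹ = p / (p - 1) := by field_simp
      rw [h4, div_pow, add_div' _ _ _ (by positivity), div_le_div_iff₀ (by positivity)
        (by positivity)]
      nlinarith [mul_pos h2 h3, mul_pos h2 (mul_pos h2 h3)]
  refine le_trans ?_ (mul_le_mul_of_nonneg_left h1 (exp_pos u).le)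
  rw [mul_sum]
  refine sum_le_sum fun r hr => ?_
  have hph := ph_pos hS hr
  have hpr : exp (wt r) = ∏ p ∈ r, (p : ℝ) := by
    rw [wt, exp_sum]
    exact prod_congr rfl fun p hp =>
      exp_log (by exact_mod_cast (hS p (mem_powerset.mp hr hp)).pos)
  have h2 : ∏ p ∈ r, ((p : ℝ) + 1) / (((p : ℝ) - 1) * p) = sg r / (ph r * exp (wt r)) := by
    rw [prod_div_distrib, prod_mul_distrib, hpr]
    rfl
  rw [h2]
  refine (mul_le_mul_of_nonneg_right (hc r hr) (sg_nonneg r)).trans ?_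
  have hs := sg_nonneg r
  unfold cf
  split_ifs with h
  · have h3 : 1 ≤ exp u / exp (wt r) := by
      rw [← exp_sub]; exact one_le_exp (by linarith)
    calc 1 / ph r * sg r = 1 * (sg r / ph r) := by ring
      _ ≤ exp u / exp (wt r) * (sg r / ph r) := mul_le_mul_of_nonneg_right h3 (by positivity)
      _ = _ := by field_simp
  · rw [zero_mul]; positivity

theorem ip_cf {S : Finset ℕ} (hS : ∀ p ∈ S, p.Prime) (u : ℝ) : ip S (cf u) (cf u) = g S u := by
  refine sum_congr rfl fun r hr => ?_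
  have := ph_pos hS hr
  unfold cf
  split_ifs
  · field_simp
  · simp

theorem F_cf_of_not_dvd {S : Finset ℕ} {m : ℕ} (h : ∀ p ∈ S, ¬ p ∣ m) (u : ℝ) :
    F S (cf u) m = g S u := by
  refine sum_congr rfl fun r hr => ?_
  have : Zf r m = 1 := prod_eq_one fun p hp => by
    rw [X, if_neg (h p (mem_powerset.mp hr hp))]; ring
  rw [this, mul_one]

theorem X_mul_F {S : Finset ℕ} (hS : ∀ p ∈ S, p.Prime) {q : ℕ} (hq : q ∈ S) (u : ℝ) (m : ℕ) :
    X q m * (F S (cf u) m * F S (cf u) m)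
      = X q m * (F (S.erase q) (fun r => cf u r - cf (u - log q) r) m
        * F (S.erase q) (fun r => cf u r - cf (u - log q) r) m) := by
  by_cases h : q ∣ m
  · have h1 : F S (cf u) m = F (S.erase q) (fun r => cf u r - cf (u - log q) r) m := by
      conv_lhs => rw [← insert_erase hq, F_insert (notMem_erase q S)]
      rw [X, if_pos h]
      unfold F
      rw [mul_sum, ← sum_add_distrib]
      refine sum_congr rfl fun r hr => ?_
      have h2 : q ∉ r := fun h => notMem_erase q S (mem_powerset.mp hr h)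
      have h3 : (2 : ℝ) ≤ q := by exact_mod_cast (hS q hq).two_le
      have h4 : (q : ℝ) - 1 ≠ 0 := by linarith
      have h5 : (1 - (q : ℝ) * 1) * cf u (insert q r) = - cf (u - log q) r := by
        unfold cf wt ph
        rw [sum_insert h2, prod_insert h2]
        by_cases h6 : log (q : ℝ) + ∑ p ∈ r, log (p : ℝ) ≤ u
        · rw [if_pos h6, if_pos (by linarith)]
          by_cases h7 : ∏ p ∈ r, ((p : ℝ) - 1) = 0
          · simp [h7]
          · field_simp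
            ring
        · rw [if_neg h6, if_neg (by linarith)]
          simp
      linear_combination (Zf r m) * h5
    rw [h1]
  · simp [X, h]

theorem small_term (N H : ℕ) {S : Finset ℕ} (hS : ∀ p ∈ S, p.Prime) {q : ℕ} (hq : q ∈ S)
    (u : ℝ) : ∑ m ∈ Ioc N (N + H), X q m * (F S (cf u) m * F S (cf u) m)
      ≤ H / q * (g S u - g S (u - log q)) + (exp u * K S ^ 2) ^ 2 := by
  have hS' : ∀ p ∈ S.erase q, p.Prime := fun p hp => hS p (mem_of_mem_erase hp)
  have hl : 0 ≤ log (q : ℝ) := log_natCast_nonneg q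
  simp only [X_mul_F hS hq]
  have h1 := (abs_le.mp (bilinear N H (S.erase q) hS' q (hS q hq).pos
    (fun p hp => (Nat.coprime_primes (hS' p hp) (hS q hq)).mpr (ne_of_mem_erase hp))
    (fun r => cf u r - cf (u - log q) r) (fun r => cf u r - cf (u - log q) r))).2
  have h2 : Nm (S.erase q) (fun r => cf u r - cf (u - log q) r) ≤ exp u * K S ^ 2 := by
    refine (Nm_le (u := u) hS' fun r hr => ?_).trans ?_
    · have h3 := cf_mono hS' hr (show u - log q ≤ u by linarith)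
      have h4 := cf_nonneg hS' hr (u - log q)
      rw [abs_of_nonneg (by linarith)]
      linarith
    · have := K_mono hS (erase_subset q S)
      have h0 := one_le_K hS'
      gcongr
  have h3 : ip (S.erase q) (fun r => cf u r - cf (u - log q) r)
      (fun r => cf u r - cf (u - log q) r) ≤ g S u - g S (u - log q) := by
    unfold ip g
    rw [← sum_sub_distrib]
    refine le_trans (le_of_eq (sum_congr rfl fun r hr => ?_))
      (sum_le_sum_of_subset_of_nonneg (f := fun r => cf u r - cf (u - log q) r)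
        (powerset_mono.mpr (erase_subset q S)) fun r hr _ => ?_)
    · have := ph_pos hS' hr
      simp only [cf]
      by_cases h6 : wt r ≤ u - log q
      · have h7 : wt r ≤ u := by linarith
        simp only [if_pos h6, if_pos h7]
        simp
      · simp only [if_neg h6]
        split_ifs
        · field_simp
          ring
        · simp
    · linarith [cf_mono hS hr (show u - log q ≤ u by linarith)]
  have h4 := Nm_nonneg (S.erase q) (fun r => cf u r - cf (u - log q) r)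
  have h5 : (0 : ℝ) ≤ H / q := by positivity
  nlinarith [mul_le_mul_of_nonneg_left h3 h5, mul_self_le_mul_self h4 h2]

theorem plain_term (N H : ℕ) {S : Finset ℕ} (hS : ∀ p ∈ S, p.Prime) {d : ℕ} (hd : 0 < d)
    (hco : ∀ p ∈ S, Nat.Coprime p d) (u : ℝ) :
    |∑ m ∈ Ioc N (N + H), X d m * (F S (cf u) m * F S (cf u) m) - H / d * g S u|
      ≤ (exp u * K S ^ 2) ^ 2 := by
  have h1 := bilinear N H S hS d hd hco (cf u) (cf u)
  rw [ip_cf hS] at h1
  have h2 : Nm S (cf u) ≤ exp u * K S ^ 2 :=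
    Nm_le hS fun r hr => (abs_of_nonneg (cf_nonneg hS hr u)).le
  refine h1.trans ?_
  rw [sq]
  exact mul_self_le_mul_self (Nm_nonneg _ _) h2

theorem finite_ineq (N H : ℕ) {S₀ S₁ S₂ : Finset ℕ} (h₀ : ∀ p ∈ S₀, p.Prime)
    (h₁ : ∀ p ∈ S₁, p.Prime) (h₂ : ∀ p ∈ S₂, p.Prime) (hd : Disjoint S₀ S₁)
    (hcov : ∀ m ∈ Ioc N (N + H), (∃ p ∈ S₀, p ∣ m) ∨ (∃ p ∈ S₁, p ∣ m) ∨ ∃ p ∈ S₂, p ∣ m)
    {U : ℝ} (hU : 0 ≤ U) {u : ℕ → ℝ} (hu : ∀ q ∈ S₁, 0 ≤ u q) :
    H / g S₀ U ≤ ∑ q ∈ S₀, H / q * ((g S₀ U - g S₀ (U - log q)) / g S₀ U ^ 2)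
      + ∑ q ∈ S₁, H / q / g S₀ (u q)
      + ((1 + S₀.card) * (exp U * K S₀ ^ 2) ^ 2 + ∑ q ∈ S₁, (exp (u q) * K S₀ ^ 2) ^ 2
        + ∑ q ∈ S₂, ((H : ℝ) / q + 1)) := by
  have hg := one_le_g h₀ hU
  have hg0 : 0 < g S₀ U := by linarith
  have pt : ∀ m ∈ Ioc N (N + H), X 1 m * (F S₀ (cf U) m * F S₀ (cf U) m) / g S₀ U ^ 2
      ≤ ∑ q ∈ S₀, X q m * (F S₀ (cf U) m * F S₀ (cf U) m) / g S₀ U ^ 2
        + ∑ q ∈ S₁, X q m * (F S₀ (cf (u q)) m * F S₀ (cf (u q)) m) / g S₀ (u q) ^ 2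
        + ∑ q ∈ S₂, X q m := by
    intro m hm
    have n0 : ∀ q ∈ S₀, 0 ≤ X q m * (F S₀ (cf U) m * F S₀ (cf U) m) / g S₀ U ^ 2 := fun q _ =>
      div_nonneg (mul_nonneg (X_nonneg _ _) (mul_self_nonneg _)) (sq_nonneg _)
    have n1 : ∀ q ∈ S₁, 0 ≤ X q m * (F S₀ (cf (u q)) m * F S₀ (cf (u q)) m) / g S₀ (u q) ^ 2 :=
      fun q _ => div_nonneg (mul_nonneg (X_nonneg _ _) (mul_self_nonneg _)) (sq_nonneg _)
    have n2 : ∀ q ∈ S₂, 0 ≤ X q m := fun q _ => X_nonneg _ _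
    have hX1 : X 1 m = 1 := if_pos (one_dvd m)
    by_cases h : ∃ p ∈ S₀, p ∣ m
    · obtain ⟨p, hp, hpm⟩ := h
      have h3 := single_le_sum n0 hp
      have h4 : X p m = 1 := if_pos hpm
      rw [h4] at h3
      rw [hX1]
      linarith [sum_nonneg n1, sum_nonneg n2]
    · have h' : ∀ p ∈ S₀, ¬ p ∣ m := fun p hp hpm => h ⟨p, hp, hpm⟩
      have h3 : X 1 m * (F S₀ (cf U) m * F S₀ (cf U) m) / g S₀ U ^ 2 = 1 := by
        rw [hX1, F_cf_of_not_dvd h']
        field_simp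
      rw [h3]
      rcases hcov m hm with h4 | ⟨q, hq, hqm⟩ | ⟨q, hq, hqm⟩
      · exact absurd h4 h
      · have h5 := single_le_sum n1 hq
        have h6 : X q m = 1 := if_pos hqm
        have h7 := one_le_g h₀ (hu q hq)
        have h8 : X q m * (F S₀ (cf (u q)) m * F S₀ (cf (u q)) m) / g S₀ (u q) ^ 2 = 1 := by
          rw [h6, F_cf_of_not_dvd h']
          field_simp
        rw [h8] at h5
        linarith [sum_nonneg n0, sum_nonneg n2]
      · have h5 := single_le_sum n2 hq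
        have h6 : X q m = 1 := if_pos hqm
        rw [h6] at h5
        linarith [sum_nonneg n0, sum_nonneg n1]
  have tot := sum_le_sum pt
  rw [sum_add_distrib, sum_add_distrib, sum_comm (t := S₀), sum_comm (t := S₁),
    sum_comm (t := S₂), ← sum_div] at tot
  have hE : ∀ v, 0 ≤ v → (exp v * K S₀ ^ 2) ^ 2 / g S₀ v ^ 2 ≤ (exp v * K S₀ ^ 2) ^ 2 :=
    fun v hv => div_le_self (sq_nonneg _) (one_le_pow₀ (one_le_g h₀ hv))
  have a0 : H / g S₀ U - (exp U * K S₀ ^ 2) ^ 2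
      ≤ (∑ m ∈ Ioc N (N + H), X 1 m * (F S₀ (cf U) m * F S₀ (cf U) m)) / g S₀ U ^ 2 := by
    have h3 := (abs_le.mp (plain_term N H h₀ one_pos (fun p _ => Nat.coprime_one_right p) U)).1
    have h4 : (H : ℝ) / g S₀ U = H / (1 : ℕ) * g S₀ U / g S₀ U ^ 2 := by
      push_cast; field_simp
    have h6 : (H : ℝ) / (1 : ℕ) * g S₀ U - (exp U * K S₀ ^ 2) ^ 2
        ≤ ∑ m ∈ Ioc N (N + H), X 1 m * (F S₀ (cf U) m * F S₀ (cf U) m) := by
      generalize (H : ℝ) / (1 : ℕ) * g S₀ U = A at h3 ⊢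
      linarith
    have h5 := div_le_div_of_nonneg_right h6 (sq_nonneg (g S₀ U))
    rw [sub_div, ← h4] at h5
    linarith [hE U hU]
  have a1 : ∑ q ∈ S₀, ∑ m ∈ Ioc N (N + H), X q m * (F S₀ (cf U) m * F S₀ (cf U) m) / g S₀ U ^ 2
      ≤ ∑ q ∈ S₀, (H / q * ((g S₀ U - g S₀ (U - log q)) / g S₀ U ^ 2)
        + (exp U * K S₀ ^ 2) ^ 2) := by
    refine sum_le_sum fun q hq => ?_
    rw [← sum_div]
    refine (div_le_div_of_nonneg_right (small_term N H h₀ hq U) (sq_nonneg _)).trans ?_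
    rw [add_div, mul_div_assoc]
    linarith [hE U hU]
  have a2 : ∑ q ∈ S₁, ∑ m ∈ Ioc N (N + H),
        X q m * (F S₀ (cf (u q)) m * F S₀ (cf (u q)) m) / g S₀ (u q) ^ 2
      ≤ ∑ q ∈ S₁, (H / q / g S₀ (u q) + (exp (u q) * K S₀ ^ 2) ^ 2) := by
    refine sum_le_sum fun q hq => ?_
    rw [← sum_div]
    have h3 := (abs_le.mp (plain_term N H h₀ (h₁ q hq).pos (fun p hp =>
      (Nat.coprime_primes (h₀ p hp) (h₁ q hq)).mpr fun e =>
        disjoint_left.mp hd hp (e ▸ hq)) (u q))).2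
    have h7 := one_le_g h₀ (hu q hq)
    have h4 : (H : ℝ) / q / g S₀ (u q) = H / q * g S₀ (u q) / g S₀ (u q) ^ 2 := by
      field_simp
    refine (div_le_div_of_nonneg_right (show _ ≤ (H : ℝ) / q * g S₀ (u q)
      + (exp (u q) * K S₀ ^ 2) ^ 2 by linarith) (sq_nonneg _)).trans ?_
    rw [add_div, h4]
    linarith [hE (u q) (hu q hq)]
  have a3 : ∑ q ∈ S₂, ∑ m ∈ Ioc N (N + H), X q m ≤ ∑ q ∈ S₂, ((H : ℝ) / q + 1) :=
    sum_le_sum fun q hq => by linarith [(abs_le.mp (count_X N H (h₂ q hq).pos)).2]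
  rw [sum_add_distrib, sum_const, nsmul_eq_mul] at a1
  rw [sum_add_distrib] at a2
  linarith

end Pool.Agent.P.MP_1b1bb8_nt
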