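import Pool.Agent.P.MP_1b1bb8_nt.Defs

/-!
`J n` exceeds `H` exactly when some `H` consecutive integers all share a factor with `n`.
-/

open Finset

namespace Pool.Agent.P.MP_1b1bb8_nt

example : J 30 = 6 := by decide +kernel

example : J 1 = 0 ∧ J 2 = 0 ∧ J 3 = 1 ∧ J 6 = 4 := by decide +kernel

theorem run_of_lt_J {n H : ℕ} (h : H < J n) :
    n ≠ 0 ∧ ∃ N, ∀ m ∈ Ioc N (N + H), ∃ p ∈ n.primeFactors, p ∣ m := by
  obtain ⟨⟨a, b⟩, hab, h1⟩ := Finset.lt_sup_iff.mp h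
  obtain ⟨h2, -, -, -, -, h3⟩ := mem_filter.mp hab
  have hn : n ≠ 0 := by
    have := mem_range.mp (mem_product.mp h2).1
    omega
  refine ⟨hn, a, fun m hm => ?_⟩
  have h4 := mem_Ioc.mp hm
  simp only at h1 h3
  obtain ⟨p, hp, hpm, hpn⟩ := Nat.Prime.not_coprime_iff_dvd.mp
    (h3 m (mem_Ioo.mpr ⟨h4.1, by omega⟩))
  exact ⟨p, Nat.mem_primeFactors.mpr ⟨hp, hpn, hn⟩, hpm⟩

theorem lt_J_of_run {n N H : ℕ} (hn : 0 < n) (hH : 2 ≤ H)
    (h : ∀ m ∈ Ioc N (N + H), ¬ Nat.Coprime m n) : H < J n := by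
  have h1 : ∀ m ∈ Ioc (N % n) (N % n + H), ¬ Nat.Coprime m n := by
    intro m hm hc
    have h2 := mem_Ioc.mp hm
    have h3 := Nat.div_add_mod N n
    refine h (m + n * (N / n)) (mem_Ioc.mpr ⟨by omega, by omega⟩) ?_
    exact (Nat.coprime_add_mul_left_left m n (N / n)).mpr hc
  have h2 : N % n < n := Nat.mod_lt _ hn
  generalize N % n = A at h1 h2
  have c1 : Nat.Coprime (n - 1) n := by
    obtain ⟨k, rfl⟩ := Nat.exists_eq_succ_of_ne_zero hn.ne'
    simp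
  have c2 : Nat.Coprime (n + 1) n := by simp
  have h3 : A + H < n - 1 := by
    by_contra h4
    by_cases h5 : A < n - 1
    · exact h1 _ (mem_Ioc.mpr ⟨h5, by omega⟩) c1
    · exact h1 _ (mem_Ioc.mpr ⟨by omega, by omega⟩) c2
  have h4 : 1 ≤ A := by
    by_contra h4
    exact h1 1 (mem_Ioc.mpr ⟨by omega, by omega⟩) (Nat.coprime_one_left n)
  have ex : ∃ b, A < b ∧ Nat.Coprime b n := ⟨n - 1, by omega, c1⟩
  have hb := Nat.find_spec ex
  have hb' : Nat.find ex ≤ n - 1 := Nat.find_min' ex ⟨by omega, c1⟩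
  have hb'' : A + H < Nat.find ex := by
    by_contra h5
    exact h1 _ (mem_Ioc.mpr ⟨hb.1, by omega⟩) hb.2
  set a := Nat.findGreatest (fun a => Nat.Coprime a n) A with ha
  have a1 : 1 ≤ a := Nat.le_findGreatest h4 (Nat.coprime_one_left n)
  have a2 : a ≤ A := Nat.findGreatest_le A
  have a3 : Nat.Coprime a n :=
    Nat.findGreatest_spec (P := fun a => Nat.Coprime a n) h4 (Nat.coprime_one_left n)
  refine Finset.lt_sup_iff.mpr ⟨(a, Nat.find ex), mem_filter.mpr ⟨mem_product.mpr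
    ⟨mem_range.mpr (by simp only; omega), mem_range.mpr (by simp only; omega)⟩, a1,
    by simp only; omega, a3, hb.2, fun c hc hcn => ?_⟩, by simp only; omega⟩
  have h5 := mem_Ioo.mp hc
  simp only at h5
  by_cases h6 : c ≤ A
  · exact Nat.findGreatest_is_greatest (P := fun a => Nat.Coprime a n) h5.1 h6 hcn
  · exact Nat.find_min ex h5.2 ⟨by omega, hcn⟩

end Pool.Agent.P.MP_1b1bb8_nt
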