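import Pool.Agent.P.MP_1b1bb8_nt.Finite
import Pool.Agent.Lib.Mertens.Third

/-!
The function `g S u` grows at most linearly, uniformly in the set of primes `S`.
-/

open Finset Real

namespace Pool.Agent.P.MP_1b1bb8_nt

/-- `C` bounds the excess of the weighted count of primes in a logarithmic window. -/
def Window (C : ℝ) : Prop := ∀ T : Finset ℕ, (∀ p ∈ T, p.Prime) → ∀ a h : ℝ, 0 ≤ h →
  (∀ p ∈ T, a < log (p : ℝ) ∧ log (p : ℝ) ≤ a + h) → ∑ p ∈ T, log (p : ℝ) / (p - 1) ≤ h + C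

theorem exists_window : ∃ C : ℝ, 0 < C ∧ Window C := by
  obtain ⟨C, hC0, hC⟩ := Pool.Agent.Lib.Mertens.exists_abs_sum_log_div_prime_sub_log_le
  have hs : Summable fun n : ℕ => 4 * (1 / (n : ℝ) ^ (3 / 2 : ℝ)) :=
    (Real.summable_one_div_nat_rpow.2 (by norm_num)).mul_left 4
  have hnn : ∀ n : ℕ, 0 ≤ 4 * (1 / (n : ℝ) ^ (3 / 2 : ℝ)) := fun n => by positivity
  set D := ∑' n : ℕ, 4 * (1 / (n : ℝ) ^ (3 / 2 : ℝ)) with hD
  have hD0 : 0 ≤ D := tsum_nonneg hnn
  refine ⟨2 * C + D, by positivity, fun T hT a h hh hw => ?_⟩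
  rcases T.eq_empty_or_nonempty with rfl | ⟨p₀, hp₀⟩
  · rw [sum_empty]; positivity
  have hb : 0 ≤ a + h := (log_natCast_nonneg p₀).trans (hw p₀ hp₀).2
  have h1 : ∀ p ∈ T, log (p : ℝ) / (p - 1) ≤ log (p : ℝ) / p + 4 * (1 / (p : ℝ) ^ (3 / 2 : ℝ)) := by
    intro p hp
    have h2 : (2 : ℝ) ≤ p := by exact_mod_cast (hT p hp).two_le
    have h3 : 0 < (p : ℝ) := by linarith
    have h4 : 0 < (p : ℝ) - 1 := by linarith
    have h5 : log (p : ℝ) ≤ 2 * (p : ℝ) ^ (1 / 2 : ℝ) := by
      have := log_le_rpow_div h3.le (show (0 : ℝ) < 1 / 2 by norm_num)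
      linarith
    have h6 : (p : ℝ) ^ (1 / 2 : ℝ) * (p : ℝ) ^ (3 / 2 : ℝ) = p ^ 2 := by
      rw [← rpow_add h3]; norm_num
    have h7 : 0 < (p : ℝ) ^ (3 / 2 : ℝ) := by positivity
    have h8 : log (p : ℝ) / (p - 1) = log (p : ℝ) / p + log (p : ℝ) / (p * (p - 1)) := by
      field_simp; ring
    rw [h8, add_le_add_iff_left, mul_one_div, div_le_div_iff₀ (by positivity) h7]
    nlinarith [mul_le_mul_of_nonneg_right h5 h7.le]
  refine (sum_le_sum h1).trans ?_
  rw [sum_add_distrib]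
  have h2 : ∑ p ∈ T, 4 * (1 / (p : ℝ) ^ (3 / 2 : ℝ)) ≤ D := hs.sum_le_tsum _ fun n _ => hnn n
  have h3 : ∑ p ∈ T, log (p : ℝ) / p ≤ h + 2 * C := by
    set a' := max a 0 with ha'
    have e1 := (abs_le.mp (hC (exp (a + h)) (one_le_exp hb))).2
    have e2 := (abs_le.mp (hC (exp a') (one_le_exp (le_max_right _ _)))).1
    rw [log_exp] at e1 e2
    have ha'b : a' ≤ a + h := max_le (by linarith) hb
    have hdis : Disjoint T ((Ioc 0 ⌊exp a'⌋₊).filter Nat.Prime) := by
      refine disjoint_left.mpr fun p hp hp' => ?_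
      have h4 := (mem_Ioc.mp (mem_filter.mp hp').1).2
      have h5 : (0 : ℝ) < p := by exact_mod_cast (hT p hp).pos
      rw [Nat.le_floor_iff (exp_pos _).le, ← log_le_iff_le_exp h5] at h4
      have h6 : 0 < log (p : ℝ) := log_pos (by exact_mod_cast (hT p hp).one_lt)
      exact absurd h4 (not_le.mpr (max_lt (hw p hp).1 h6))
    have hsub : T ∪ (Ioc 0 ⌊exp a'⌋₊).filter Nat.Prime
        ⊆ (Ioc 0 ⌊exp (a + h)⌋₊).filter Nat.Prime := by
      refine union_subset (fun p hp => ?_) (filter_subset_filter _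
        (Ioc_subset_Ioc_right (Nat.floor_mono (exp_le_exp.mpr ha'b))))
      have h5 : (0 : ℝ) < p := by exact_mod_cast (hT p hp).pos
      refine mem_filter.mpr ⟨mem_Ioc.mpr ⟨(hT p hp).pos, ?_⟩, hT p hp⟩
      rw [Nat.le_floor_iff (exp_pos _).le, ← log_le_iff_le_exp h5]
      exact (hw p hp).2
    have e3 := sum_le_sum_of_subset_of_nonneg (f := fun p : ℕ => log (p : ℝ) / p) hsub
      fun p _ _ => div_nonneg (log_natCast_nonneg p) (Nat.cast_nonneg p)
    rw [sum_union hdis] at e3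
    linarith [le_max_left a 0]
  linarith

theorem g_step {C : ℝ} (hC : Window C) {S : Finset ℕ} (hS : ∀ p ∈ S, p.Prime) (v : ℝ) {h : ℝ}
    (hh : 0 ≤ h) : v * (g S (v + h) - g S v) ≤ (h + C) * g S (v + h) := by
  set D : Finset ℕ → ℝ := fun r => cf (v + h) r - cf v r with hD
  have h1 : v * (g S (v + h) - g S v) ≤ ∑ r ∈ S.powerset, wt r * D r := by
    unfold g
    rw [← sum_sub_distrib, mul_sum]
    refine sum_le_sum fun r hr => ?_
    by_cases h2 : wt r ≤ v
    · have h3 : wt r ≤ v + h := by linarith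
      simp only [hD, cf, if_pos h2, if_pos h3]
      simp
    · exact mul_le_mul_of_nonneg_right (not_le.mp h2).le
        (sub_nonneg.mpr (cf_mono hS hr (by linarith)))
  have h2 : ∑ r ∈ S.powerset, wt r * D r
      = ∑ p ∈ S, ∑ r ∈ S.powerset, if p ∈ r then log (p : ℝ) * D r else 0 := by
    rw [sum_comm]
    refine sum_congr rfl fun r hr => ?_
    rw [← sum_filter, filter_mem_eq_inter, inter_eq_right.mpr (mem_powerset.mp hr), wt, sum_mul]
  have h3 : ∀ p ∈ S, (∑ r ∈ S.powerset, if p ∈ r then log (p : ℝ) * D r else 0)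
      ≤ ∑ m ∈ S.powerset, cf (v + h) m *
        if v - wt m < log (p : ℝ) ∧ log (p : ℝ) ≤ v - wt m + h then log (p : ℝ) / (p - 1)
          else 0 := by
    intro p hp
    have hp2 : (2 : ℝ) ≤ p := by exact_mod_cast (hS p hp).two_le
    have hp1 : 0 < (p : ℝ) - 1 := by linarith
    have hl : 0 ≤ log (p : ℝ) := log_natCast_nonneg p
    have hS' : ∀ q ∈ S.erase p, q.Prime := fun q hq => hS q (mem_of_mem_erase hq)
    conv_lhs => rw [← insert_erase hp, sum_pow_insert (notMem_erase p S)]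
    have e0 : (∑ r ∈ (S.erase p).powerset, if p ∈ r then log (p : ℝ) * D r else 0) = 0 :=
      sum_eq_zero fun r hr => if_neg fun h4 => notMem_erase p S (mem_powerset.mp hr h4)
    rw [e0, zero_add]
    refine le_trans (sum_le_sum fun m hm => ?_) (sum_le_sum_of_subset_of_nonneg
      (powerset_mono.mpr (erase_subset p S)) fun m hm _ => mul_nonneg (cf_nonneg hS hm _) ?_)
    · have h4 : p ∉ m := fun h4 => notMem_erase p S (mem_powerset.mp hm h4)
      have h5 := ph_pos hS' hm
      have h6 : wt (insert p m) = log (p : ℝ) + wt m := sum_insert h4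
      have h7 : ph (insert p m) = ((p : ℝ) - 1) * ph m := prod_insert h4
      rw [if_pos (mem_insert_self _ _)]
      simp only [hD, cf, h6, h7]
      by_cases c1 : log (p : ℝ) + wt m ≤ v
      · have c2 : log (p : ℝ) + wt m ≤ v + h := by linarith
        rw [if_pos c1, if_pos c2, sub_self, mul_zero]
        split_ifs <;> positivity
      · by_cases c2 : log (p : ℝ) + wt m ≤ v + h
        · rw [if_neg c1, if_pos c2, if_pos (by linarith), if_pos ⟨by linarith, by linarith⟩]
          apply le_of_eq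
          field_simp
          ring
        · rw [if_neg c1, if_neg c2, sub_self, mul_zero]
          split_ifs <;> positivity
    · split_ifs <;> positivity
  refine h1.trans (h2.le.trans ((sum_le_sum h3).trans ?_))
  rw [sum_comm, g, mul_sum]
  refine sum_le_sum fun m hm => ?_
  rw [← mul_sum, ← sum_filter, mul_comm]
  refine mul_le_mul_of_nonneg_right ?_ (cf_nonneg hS hm _)
  exact hC _ (fun p hp => hS p (mem_filter.mp hp).1) (v - wt m) h hh
    fun p hp => (mem_filter.mp hp).2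

theorem g_iter {C : ℝ} (hC0 : 0 ≤ C) (hC : Window C) {S : Finset ℕ} (hS : ∀ p ∈ S, p.Prime)
    {U h κ : ℝ} (hh : 0 < h) (hU : h < U) (hκ : h + C ≤ κ * h) (n : ℕ) :
    g S U * (1 - n * (κ * h) / (U - h)) ≤ g S (U - n * h) := by
  have hW : 0 < U - h := by linarith
  induction n with
  | zero => simp
  | succ n ih =>
    set v := U - (n + 1 : ℕ) * h with hv
    have hv' : U - n * h = v + h := by rw [hv]; push_cast; ring
    rw [hv'] at ih
    have hg := g_nonneg hS U
    have hgv := g_nonneg hS v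
    have hn : (0 : ℝ) ≤ n := Nat.cast_nonneg n
    have e1 : U - h - n * (κ * h) ≤ v := by
      have : (n : ℝ) * h ≤ n * (κ * h) := mul_le_mul_of_nonneg_left (by linarith) hn
      linarith
    have e2 : 1 - (n + 1 : ℕ) * (κ * h) / (U - h) = (U - h - n * (κ * h) - κ * h) / (U - h) := by
      push_cast; field_simp; ring
    have e3 : 1 - n * (κ * h) / (U - h) = (U - h - n * (κ * h)) / (U - h) := by field_simp
    rw [e2]
    rw [e3] at ih
    by_cases c : U - h - n * (κ * h) - κ * h ≤ 0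
    · exact (mul_nonpos_of_nonneg_of_nonpos hg (div_nonpos_of_nonpos_of_nonneg c hW.le)).trans hgv
    · push Not at c
      have hk : 0 < κ * h := by linarith
      have hv0 : 0 < v := by linarith
      have s1 := g_step hC hS v hh.le
      have s2 : (v - κ * h) * g S (v + h) ≤ v * g S v := by
        nlinarith [mul_le_mul_of_nonneg_right hκ (g_nonneg hS (v + h))]
      set A := U - h - n * (κ * h) with hA
      have s3 : (v - κ * h) * (g S U * (A / (U - h))) ≤ v * g S v :=
        (mul_le_mul_of_nonneg_left ih (by linarith)).trans s2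
      have s4 : v * (g S U * ((A - κ * h) / (U - h))) ≤ (v - κ * h) * (g S U * (A / (U - h))) := by
        have s5 : v * (A - κ * h) ≤ (v - κ * h) * A := by nlinarith
        calc v * (g S U * ((A - κ * h) / (U - h))) = v * (A - κ * h) * (g S U / (U - h)) := by ring
          _ ≤ (v - κ * h) * A * (g S U / (U - h)) :=
            mul_le_mul_of_nonneg_right s5 (div_nonneg hg hW.le)
          _ = _ := by ring
      exact le_of_mul_le_mul_left (s4.trans s3) hv0

theorem g_ratio {C : ℝ} (hC0 : 0 ≤ C) (hC : Window C) {S : Finset ℕ} (hS : ∀ p ∈ S, p.Prime)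
    {U h κ : ℝ} (hh : 0 < h) (hU : h < U) (hκ : h + C ≤ κ * h) {t : ℝ} (ht : 0 ≤ t) :
    g S U * (1 - κ * (t + h) / (U - h)) ≤ g S (U - t) := by
  have h1 := g_iter hC0 hC hS hh hU hκ ⌈t / h⌉₊
  have h2 : t ≤ ⌈t / h⌉₊ * h := by
    have := Nat.le_ceil (t / h)
    rwa [div_le_iff₀ hh] at this
  have h3 : ⌈t / h⌉₊ * h ≤ t + h := by
    have := (Nat.ceil_lt_add_one (div_nonneg ht hh.le)).le
    calc _ ≤ (t / h + 1) * h := mul_le_mul_of_nonneg_right this hh.le
      _ = _ := by field_simp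
  have hκ0 : 0 ≤ κ := by
    by_contra h4
    nlinarith [mul_pos (neg_pos.mpr (not_le.mp h4)) hh]
  refine le_trans ?_ (h1.trans (g_mono hS (by linarith)))
  refine mul_le_mul_of_nonneg_left ?_ (g_nonneg hS U)
  have h4 : (⌈t / h⌉₊ : ℝ) * (κ * h) ≤ κ * (t + h) := by
    nlinarith [mul_le_mul_of_nonneg_left h3 hκ0]
  have := div_le_div_of_nonneg_right h4 (show 0 ≤ U - h by linarith)
  linarith

theorem window_sum {C : ℝ} (hC : Window C) {a h κ : ℝ} (hh : 0 < h) (hκ : h + C ≤ κ * h)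
    (ψ : ℝ → ℝ) (Ψ : ℕ → ℝ) (n : ℕ) (hΨ : ∀ j < n, Ψ j ≤ Ψ (j + 1))
    (hψ : ∀ j < n, ∀ t, a + j * h < t → t ≤ a + (j + 1) * h → h * ψ t ≤ Ψ (j + 1) - Ψ j)
    (hC0 : 0 ≤ C) :
    ∀ T : Finset ℕ, (∀ p ∈ T, p.Prime) → (∀ p ∈ T, a < log (p : ℝ) ∧ log (p : ℝ) ≤ a + n * h) →
      ∑ p ∈ T, log (p : ℝ) / p * ψ (log p) ≤ κ * (Ψ n - Ψ 0) := by
  induction n with
  | zero =>
    intro T _ hT
    have : T = ∅ := eq_empty_of_forall_notMem fun p hp => by
      have := hT p hp
      simp only [Nat.cast_zero, zero_mul, add_zero] at this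
      linarith [this.1, this.2]
    simp [this]
  | succ n ih =>
    intro T hp hT
    rw [← sum_filter_add_sum_filter_not T (fun p : ℕ => log (p : ℝ) ≤ a + n * h)]
    have h1 := ih (fun j hj => hΨ j (by omega)) (fun j hj => hψ j (by omega))
      (T.filter fun p : ℕ => log (p : ℝ) ≤ a + n * h) (fun p h => hp p (mem_filter.mp h).1)
      fun p h => ⟨(hT p (mem_filter.mp h).1).1, (mem_filter.mp h).2⟩
    set T' := T.filter fun p : ℕ => ¬ log (p : ℝ) ≤ a + n * h with hT'
    have hw : ∀ p ∈ T', a + n * h < log (p : ℝ) ∧ log (p : ℝ) ≤ a + n * h + h := fun p h => by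
      refine ⟨not_le.mp (mem_filter.mp h).2, ?_⟩
      have := (hT p (mem_filter.mp h).1).2
      push_cast at this
      linarith
    have h2 := hC T' (fun p h => hp p (mem_filter.mp h).1) _ h hh.le hw
    have hd : 0 ≤ (Ψ (n + 1) - Ψ n) / h := div_nonneg (sub_nonneg.mpr (hΨ n (by omega))) hh.le
    have h3 : ∑ p ∈ T', log (p : ℝ) / p * ψ (log p)
        ≤ ∑ p ∈ T', log (p : ℝ) / (p - 1) * ((Ψ (n + 1) - Ψ n) / h) := by
      refine sum_le_sum fun p hp' => ?_
      have hp2 : (2 : ℝ) ≤ p := by exact_mod_cast (hp p (mem_filter.mp hp').1).two_le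
      have hl : 0 ≤ log (p : ℝ) := log_natCast_nonneg p
      have h4 : ψ (log p) ≤ (Ψ (n + 1) - Ψ n) / h := by
        rw [le_div_iff₀' hh]
        exact hψ n (by omega) _ (hw p hp').1 (by linarith [(hw p hp').2])
      refine (mul_le_mul_of_nonneg_left h4 (by positivity)).trans ?_
      exact mul_le_mul_of_nonneg_right
        (div_le_div_of_nonneg_left hl (by linarith) (by linarith)) hd
    rw [← sum_mul] at h3
    have h4 := mul_le_mul_of_nonneg_right (h2.trans hκ) hd
    have h5 : κ * h * ((Ψ (n + 1) - Ψ n) / h) = κ * (Ψ (n + 1) - Ψ n) := by field_simp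
    linarith

end Pool.Agent.P.MP_1b1bb8_nt
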