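import Mathlib

/-!
The adjoint function `pp s = ∫₀^∞ exp (-s x - E x) dx` of the linear sieve.
-/

open Real Filter Topology MeasureTheory Set

namespace Pool.Agent.P.MP_1b1bb8_nt.LS

/-- `(1 - exp (-x)) / x`, extended by `1` at zero. -/
noncomputable def kk (x : ℝ) : ℝ := dslope (fun t => -exp (-t)) 0 x

theorem mul_kk (x : ℝ) : x * kk x = 1 - exp (-x) := by
  have h := sub_smul_dslope (fun t : ℝ => -exp (-t)) 0 x
  simp only [sub_zero, smul_eq_mul, neg_zero, exp_zero] at h
  unfold kk
  linarith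

theorem continuous_kk : Continuous kk := by
  have hd : Differentiable ℝ fun t : ℝ => -exp (-t) := by fun_prop
  rw [continuous_iff_continuousAt]
  intro x
  rcases eq_or_ne x 0 with rfl | hx
  · exact continuousAt_dslope_same.mpr (hd 0)
  · exact (continuousAt_dslope_of_ne hx).mpr (hd x).continuousAt

theorem kk_bounds {x : ℝ} (hx : 0 < x) : 0 ≤ kk x ∧ kk x ≤ 1 := by
  have h := mul_kk x
  have h1 : exp (-x) ≤ 1 := exp_le_one_iff.mpr (by linarith)
  have h2 := add_one_le_exp (-x)
  constructor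
  · by_contra hc
    nlinarith [not_le.mp hc]
  · by_contra hc
    nlinarith [not_le.mp hc]

/-- The entire exponential integral. -/
noncomputable def EE (x : ℝ) : ℝ := ∫ t in (0 : ℝ)..x, kk t

theorem hasDerivAt_EE (x : ℝ) : HasDerivAt EE (kk x) x :=
  (continuous_kk.integral_hasStrictDerivAt 0 x).hasDerivAt

theorem continuous_EE : Continuous EE :=
  continuous_iff_continuousAt.mpr fun x => (hasDerivAt_EE x).continuousAt

theorem EE_bounds {x : ℝ} (hx : 0 ≤ x) : 0 ≤ EE x ∧ EE x ≤ x := by
  have hi := continuous_kk.intervalIntegrable (μ := volume) 0 x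
  constructor
  · have h := intervalIntegral.integral_mono_on_of_le_Ioo hx
      (intervalIntegrable_const (c := (0 : ℝ))) hi fun t ht => (kk_bounds ht.1).1
    simpa [EE] using h
  · have h := intervalIntegral.integral_mono_on_of_le_Ioo hx hi
      (intervalIntegrable_const (c := (1 : ℝ))) fun t ht => (kk_bounds ht.1).2
    simpa [EE] using h

/-- The kernel. -/
noncomputable def ww (s x : ℝ) : ℝ := exp (-(s * x) - EE x)

theorem continuous_ww (s : ℝ) : Continuous (ww s) := by
  have := continuous_EE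
  unfold ww
  fun_prop

theorem ww_pos (s x : ℝ) : 0 < ww s x := exp_pos _

theorem ww_le {s x : ℝ} (hx : 0 ≤ x) : ww s x ≤ exp (-s * x) :=
  exp_le_exp.mpr (by linarith [(EE_bounds hx).1])

theorem le_ww {s x : ℝ} (hx : 0 ≤ x) : exp (-(s + 1) * x) ≤ ww s x :=
  exp_le_exp.mpr (by linarith [(EE_bounds hx).2])

theorem integrableOn_ww {s : ℝ} (hs : 0 < s) : IntegrableOn (ww s) (Ioi 0) := by
  refine Integrable.mono' (exp_neg_integrableOn_Ioi 0 hs) (continuous_ww s).aestronglyMeasurable ?_
  filter_upwards [ae_restrict_mem measurableSet_Ioi] with x hx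
  rw [norm_eq_abs, abs_of_pos (ww_pos s x)]
  exact ww_le (le_of_lt hx)

theorem mul_ww_le {s r x : ℝ} (hr : 0 < r) (hs : 2 * r ≤ s) (hx : 0 ≤ x) :
    x * ww s x ≤ r⁻¹ * exp (-r * x) := by
  have h1 : r * x ≤ exp (r * x) := by linarith [add_one_le_exp (r * x)]
  have h2 : ww s x ≤ exp (-r * x) * exp (-r * x) := by
    rw [← exp_add]
    exact (ww_le hx).trans (exp_le_exp.mpr (by nlinarith))
  have h3 : exp (r * x) * exp (-r * x) = 1 := by rw [← exp_add]; simp
  have h4 := exp_pos (-r * x)
  rw [inv_mul_eq_div, le_div_iff₀ hr]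
  calc x * ww s x * r = (r * x) * ww s x := by ring
    _ ≤ exp (r * x) * (exp (-r * x) * exp (-r * x)) :=
        mul_le_mul h1 h2 (ww_pos s x).le (exp_pos _).le
    _ = _ := by rw [← mul_assoc, h3, one_mul]

theorem integrableOn_mul_ww {s : ℝ} (hs : 0 < s) :
    IntegrableOn (fun x => x * ww s x) (Ioi 0) := by
  refine Integrable.mono' ((exp_neg_integrableOn_Ioi 0 (half_pos hs)).const_mul (s / 2)⁻¹)
    (continuous_id.mul (continuous_ww s)).aestronglyMeasurable ?_
  filter_upwards [ae_restrict_mem measurableSet_Ioi] with x hx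
  rw [norm_eq_abs, abs_of_nonneg (mul_nonneg (le_of_lt hx) (ww_pos s x).le)]
  exact mul_ww_le (half_pos hs) (by linarith) (le_of_lt hx)

/-- The adjoint function. -/
noncomputable def pp (s : ℝ) : ℝ := ∫ x in Ioi 0, ww s x

theorem integral_exp_neg_mul' {s : ℝ} (hs : 0 < s) : ∫ x in Ioi 0, exp (-s * x) = 1 / s := by
  rw [integral_exp_mul_Ioi (by linarith : -s < 0)]
  simp

theorem pp_le {s : ℝ} (hs : 0 < s) : pp s ≤ 1 / s := by
  rw [← integral_exp_neg_mul' hs]
  exact setIntegral_mono_on (integrableOn_ww hs) (exp_neg_integrableOn_Ioi 0 hs) measurableSet_Ioi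
    fun x hx => ww_le (le_of_lt hx)

theorem le_pp {s : ℝ} (hs : 0 < s) : 1 / (s + 1) ≤ pp s := by
  have h1 : 0 < s + 1 := by linarith
  rw [← integral_exp_neg_mul' h1]
  exact setIntegral_mono_on (exp_neg_integrableOn_Ioi 0 h1) (integrableOn_ww hs) measurableSet_Ioi
    fun x hx => le_ww (le_of_lt hx)

theorem pp_pos {s : ℝ} (hs : 0 < s) : 0 < pp s := lt_of_lt_of_le (by positivity) (le_pp hs)

theorem hasDerivAt_mul_ww (s x : ℝ) :
    HasDerivAt (fun x => x * ww s x) (ww (s + 1) x - s * (x * ww s x)) x := by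
  have h1 : HasDerivAt (ww s) (ww s x * (-s - kk x)) x := by
    exact (((hasDerivAt_id x).const_mul s).neg.sub (hasDerivAt_EE x)).exp.congr_deriv
      (by simp [ww])
  have h2 : ww (s + 1) x = exp (-x) * ww s x := by
    unfold ww
    rw [← exp_add]
    congr 1
    ring
  refine ((hasDerivAt_id x).mul h1).congr_deriv ?_
  rw [h2]
  simp only [id]
  linear_combination (-ww s x) * mul_kk x

theorem integral_mul_ww {s : ℝ} (hs : 0 < s) :
    s * ∫ x in Ioi 0, x * ww s x = pp (s + 1) := by
  have h1 : 0 < s + 1 := by linarith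
  have ht : Tendsto (fun x => x * ww s x) atTop (𝓝 0) := by
    have h2 : Tendsto (fun x : ℝ => (s / 2)⁻¹ * exp (-(s / 2) * x)) atTop (𝓝 ((s / 2)⁻¹ * 0)) :=
      (tendsto_exp_atBot.comp (tendsto_id.const_mul_atTop_of_neg (by linarith))).const_mul _
    rw [mul_zero] at h2
    refine squeeze_zero' ?_ ?_ h2
    · filter_upwards [eventually_ge_atTop 0] with x hx using mul_nonneg hx (ww_pos s x).le
    · filter_upwards [eventually_ge_atTop 0] with x hx using
        mul_ww_le (half_pos hs) (by linarith) hx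
  have h := integral_Ioi_of_hasDerivAt_of_tendsto' (a := 0) (fun x _ => hasDerivAt_mul_ww s x)
    ((integrableOn_ww h1).sub ((integrableOn_mul_ww hs).const_mul s)) ht
  rw [integral_sub (integrableOn_ww h1) ((integrableOn_mul_ww hs).const_mul s),
    integral_const_mul] at h
  unfold pp
  linarith

theorem hasDerivAt_pp {s : ℝ} (hs : 0 < s) : HasDerivAt pp (-pp (s + 1) / s) s := by
  have h := (hasDerivAt_integral_of_dominated_loc_of_deriv_le (μ := volume.restrict (Ioi 0))
    (F := ww) (F' := fun σ x => -(x * ww σ x)) (x₀ := s) (s := Ioi (s / 2))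
    (bound := fun x => (s / 4)⁻¹ * exp (-(s / 4) * x)) (Ioi_mem_nhds (by linarith))
    (Eventually.of_forall fun σ => (continuous_ww σ).aestronglyMeasurable) (integrableOn_ww hs)
    (continuous_id.mul (continuous_ww s)).neg.aestronglyMeasurable ?_
    ((exp_neg_integrableOn_Ioi 0 (by linarith)).const_mul _) ?_).2
  · rw [integral_neg] at h
    refine h.congr_deriv ?_
    rw [← integral_mul_ww hs]
    field_simp
  · filter_upwards [ae_restrict_mem measurableSet_Ioi] with x hx σ hσ
    rw [norm_neg, norm_eq_abs, abs_of_nonneg (mul_nonneg (le_of_lt hx) (ww_pos σ x).le)]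
    exact mul_ww_le (by linarith) (by linarith [mem_Ioi.mp hσ]) (le_of_lt hx)
  · refine Eventually.of_forall fun x σ _ => ?_
    exact (((hasDerivAt_id σ).mul_const x).neg.sub_const (EE x)).exp.congr_deriv
      (by simp [ww, mul_comm])

theorem le_EE (n : ℕ) {X : ℝ} (hX : 0 ≤ X) :
    log (1 + X / (n + 1)) + ∑ j ∈ Finset.range n,
      (1 - ((1 + X / (n + 1))⁻¹) ^ (j + 1)) / (j + 1) ≤ EE X := by
  set m : ℝ := n + 1 with hm
  have hm0 : 0 < m := by positivity
  have hd : ∀ t : ℝ, 0 ≤ t → HasDerivAt (fun X : ℝ => log (1 + X / m) + ∑ j ∈ Finset.range n,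
      (1 - ((1 + X / m)⁻¹) ^ (j + 1)) / (j + 1))
      (m⁻¹ * ∑ j ∈ Finset.range (n + 1), ((1 + t / m)⁻¹) ^ (j + 1)) t := by
    intro t ht
    have h0 : 0 < 1 + t / m := by positivity
    have h1 : HasDerivAt (fun X : ℝ => 1 + X / m) m⁻¹ t := by
      simpa using ((hasDerivAt_id t).div_const m).const_add 1
    have h2 := HasDerivAt.fun_sum (u := Finset.range n) fun j _ =>
      (((h1.inv h0.ne').pow (j + 1)).const_sub 1).div_const ((j : ℝ) + 1)
    refine ((h1.log h0.ne').add h2).congr_deriv ?_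
    rw [Finset.sum_range_succ', mul_add, Finset.mul_sum, add_comm (∑ _ ∈ _, m⁻¹ * _)]
    congr 1
    · simp [div_eq_mul_inv]
    · refine Finset.sum_congr rfl fun j _ => ?_
      simp only [Pi.inv_apply, Nat.add_sub_cancel]
      push_cast
      rw [div_eq_mul_inv (-m⁻¹), ← inv_pow]
      generalize (1 + t / m)⁻¹ = y
      generalize m⁻¹ = a
      field_simp
      ring
  have hc : ContinuousOn (fun t : ℝ => m⁻¹ * ∑ j ∈ Finset.range (n + 1), ((1 + t / m)⁻¹) ^ (j + 1))
      (uIcc 0 X) := by
    refine continuousOn_const.mul (continuousOn_finsetSum _ fun j _ =>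
      (ContinuousOn.inv₀ (by fun_prop) fun t ht => ?_).pow _)
    rw [uIcc_of_le hX] at ht
    have := ht.1
    positivity
  have h1 := intervalIntegral.integral_eq_sub_of_hasDerivAt
    (fun t ht => hd t (by rw [uIcc_of_le hX] at ht; exact ht.1)) hc.intervalIntegrable
  simp only [zero_div, add_zero, log_one, inv_one, one_pow, sub_self, Finset.sum_const_zero,
    sub_zero] at h1
  rw [← h1]
  refine intervalIntegral.integral_mono_on_of_le_Ioo hX hc.intervalIntegrable
    (continuous_kk.intervalIntegrable 0 X) fun t ht => ?_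
  have ht0 := ht.1
  set y := (1 + t / m)⁻¹ with hy
  have h0 : 0 < 1 + t / m := by positivity
  have h2 : 1 - y = t / m * y := by rw [hy]; field_simp; ring
  have h3 : (∑ j ∈ Finset.range (n + 1), y ^ j) * (1 - y) = 1 - y ^ (n + 1) :=
    geom_sum_mul_neg y (n + 1)
  have h4 : exp (-t) ≤ y ^ (n + 1) := by
    have h5 : (1 + t / m) ^ (n + 1) ≤ exp t := by
      calc (1 + t / m) ^ (n + 1) ≤ exp (t / m) ^ (n + 1) := by
            gcongr
            linarith [add_one_le_exp (t / m)]
        _ = exp t := by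
            rw [← exp_nat_mul]
            congr 1
            push_cast
            field_simp
            rfl
    rw [hy, inv_pow, exp_neg]
    exact inv_anti₀ (by positivity) h5
  have h5 : ∑ j ∈ Finset.range (n + 1), y ^ (j + 1) = (∑ j ∈ Finset.range (n + 1), y ^ j) * y := by
    rw [Finset.sum_mul]
    exact Finset.sum_congr rfl fun j _ => pow_succ y j
  refine le_of_mul_le_mul_left ?_ ht0
  rw [mul_kk, h5]
  calc _ = (∑ j ∈ Finset.range (n + 1), y ^ j) * (t / m * y) := by ring
    _ ≤ _ := by rw [← h2, h3]; linarith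

theorem pp_one_le : pp 1 ≤ exp (-eulerMascheroniConstant) := by
  have h1 : Tendsto (fun X : ℝ => X * ww 0 X) atTop (𝓝 (pp 1)) := by
    refine (intervalIntegral_tendsto_integral_Ioi 0 (integrableOn_ww one_pos) tendsto_id).congr
      fun X => ?_
    have h := intervalIntegral.integral_eq_sub_of_hasDerivAt (a := 0) (b := X)
      (fun x _ => hasDerivAt_mul_ww 0 x)
      (((continuous_ww _).sub (continuous_const.mul
        (continuous_id.mul (continuous_ww 0)))).intervalIntegrable _ _)
    simpa using h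
  have h2 : ∀ n : ℕ, pp 1 ≤ exp (-eulerMascheroniSeq n) := by
    intro n
    have hm0 : (0 : ℝ) < n + 1 := by positivity
    have t1 : Tendsto (fun X : ℝ => (1 + X / (n + 1))⁻¹) atTop (𝓝 0) :=
      (tendsto_atTop_add_const_left _ _ (tendsto_id.atTop_div_const hm0)).inv_tendsto_atTop
    have t2 := tendsto_finsetSum (Finset.range n) fun j _ =>
      ((t1.pow (j + 1)).const_sub 1).div_const ((j : ℝ) + 1)
    have t3 := t2.neg.rexp.const_mul ((n : ℝ) + 1)
    have e : ((n : ℝ) + 1) * exp (-∑ j ∈ Finset.range n, (1 - (0 : ℝ) ^ (j + 1)) / (j + 1))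
        = exp (-eulerMascheroniSeq n) := by
      rw [eulerMascheroniSeq, neg_sub, sub_eq_add_neg, exp_add, exp_log hm0, harmonic]
      simp
    rw [e] at t3
    refine le_of_tendsto_of_tendsto h1 t3 ?_
    filter_upwards [eventually_ge_atTop 0] with X hX
    have h0 : 0 < 1 + X / (n + 1) := by positivity
    have h3 := le_EE n hX
    have h4 : ww 0 X ≤ (1 + X / (n + 1))⁻¹ * exp (-∑ j ∈ Finset.range n,
        (1 - ((1 + X / (n + 1))⁻¹) ^ (j + 1)) / (j + 1)) := by
      nth_rewrite 1 [← exp_log h0]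
      rw [← exp_neg, ← exp_add]
      exact exp_le_exp.mpr (by linarith)
    have h5 : X * (1 + X / (n + 1))⁻¹ ≤ n + 1 := by
      rw [← div_eq_mul_inv, div_le_iff₀ h0]
      field_simp
      linarith
    refine (mul_le_mul_of_nonneg_left h4 hX).trans ?_
    rw [← mul_assoc]
    exact mul_le_mul_of_nonneg_right h5 (exp_pos _).le
  exact ge_of_tendsto' tendsto_eulerMascheroniSeq.neg.rexp h2

end Pool.Agent.P.MP_1b1bb8_nt.LS
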