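import Pool.Agent.P.MP_1b1bb8_nt.Upper
import Pool.Agent.P.MP_3bc45c_nt.Rankin

/-!
Sifted intervals: Buchstab's identity and a uniform Selberg bound.
-/

open Finset Real Filter Topology

namespace Pool.Agent.P.MP_1b1bb8_nt.LS

open Pool.Agent.P.MP_3bc45c_nt

/-- Number of `m` in `(M, M + N]` divisible by no element of `T`. -/
noncomputable def cnt (T : Finset ℕ) (M N : ℕ) : ℝ :=
  (((Ioc M (M + N)).filter fun m => ∀ p ∈ T, ¬ p ∣ m).card : ℝ)

/-- Number of multiples of `p` in `(M, M + N]`. -/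
def len (p M N : ℕ) : ℕ := (M + N) / p - M / p

theorem cnt_nonneg (T : Finset ℕ) (M N : ℕ) : 0 ≤ cnt T M N := Nat.cast_nonneg _

theorem cnt_anti {T T' : Finset ℕ} (h : T ⊆ T') (M N : ℕ) : cnt T' M N ≤ cnt T M N := by
  unfold cnt
  exact Nat.cast_le.mpr (card_le_card fun m hm =>
    mem_filter.mpr ⟨(mem_filter.mp hm).1, fun p hp => (mem_filter.mp hm).2 p (h hp)⟩)

theorem cnt_empty (M N : ℕ) : cnt ∅ M N = N := by simp [cnt]

theorem abs_len (p M N : ℕ) : |(len p M N : ℝ) - N / p| ≤ 1 := by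
  have h2 : ∀ n : ℕ, ((n / p : ℕ) : ℝ) ≤ n / p ∧ (n : ℝ) / p < (n / p : ℕ) + 1 := fun n => by
    refine ⟨Nat.cast_div_le, ?_⟩
    have := Nat.lt_floor_add_one ((n : ℝ) / p)
    rwa [Nat.floor_div_eq_div] at this
  have h3 := h2 M
  have h4 := h2 (M + N)
  rw [Nat.cast_add, add_div] at h4
  rw [len, Nat.cast_sub (Nat.div_le_div_right (Nat.le_add_right _ _)), abs_le]
  constructor <;> linarith [h3.1, h3.2, h4.1, h4.2]

theorem card_dvd {T : Finset ℕ} (hT : ∀ q ∈ T, q.Prime) {p : ℕ} (hp : p.Prime) (h : p ∉ T)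
    (M N : ℕ) : ((((Ioc M (M + N)).filter fun m => ∀ q ∈ T, ¬ q ∣ m).filter (p ∣ ·)).card : ℝ)
      = cnt T (M / p) (len p M N) := by
  unfold cnt
  rw [len, Nat.add_sub_cancel' (Nat.div_le_div_right (Nat.le_add_right _ _)), Nat.cast_inj]
  symm
  refine card_bij (fun m _ => p * m) (fun m hm => ?_)
    (fun _ _ _ _ e => Nat.eq_of_mul_eq_mul_left hp.pos e) fun m hm => ?_
  · obtain ⟨h1, h2⟩ := mem_filter.mp hm
    obtain ⟨h3, h4⟩ := mem_Ioc.mp h1
    rw [Nat.div_lt_iff_lt_mul hp.pos] at h3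
    rw [Nat.le_div_iff_mul_le hp.pos] at h4
    refine mem_filter.mpr ⟨mem_filter.mpr ⟨mem_Ioc.mpr ⟨by rwa [mul_comm], by rwa [mul_comm]⟩,
      fun q hq hd => ?_⟩, dvd_mul_right _ _⟩
    rcases (hT q hq).dvd_mul.mp hd with h5 | h5
    · exact h ((Nat.prime_dvd_prime_iff_eq (hT q hq) hp).mp h5 ▸ hq)
    · exact h2 q hq h5
  · obtain ⟨h1, m', rfl⟩ := mem_filter.mp hm
    obtain ⟨h2, h3⟩ := mem_filter.mp h1
    obtain ⟨h4, h5⟩ := mem_Ioc.mp h2
    refine ⟨m', mem_filter.mpr ⟨mem_Ioc.mpr ⟨?_, ?_⟩, fun q hq hd => h3 q hq (hd.mul_left p)⟩, rfl⟩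
    · rwa [Nat.div_lt_iff_lt_mul hp.pos, mul_comm]
    · rwa [Nat.le_div_iff_mul_le hp.pos, mul_comm]

theorem cnt_insert {T : Finset ℕ} (hT : ∀ q ∈ T, q.Prime) {p : ℕ} (hp : p.Prime) (h : p ∉ T)
    (M N : ℕ) : cnt T M N - cnt (insert p T) M N = cnt T (M / p) (len p M N) := by
  rw [← card_dvd hT hp h]
  have h1 := card_filter_add_card_filter_not
    (s := (Ioc M (M + N)).filter fun m => ∀ q ∈ T, ¬ q ∣ m) (p ∣ ·)
  have h2 : ((Ioc M (M + N)).filter fun m => ∀ q ∈ T, ¬ q ∣ m).filter (fun m => ¬ p ∣ m)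
      = (Ioc M (M + N)).filter fun m => ∀ q ∈ insert p T, ¬ q ∣ m := by
    rw [filter_filter]
    exact filter_congr fun m _ => by rw [forall_mem_insert, and_comm]
  rw [h2] at h1
  unfold cnt
  rw [← h1]
  push_cast
  ring

theorem primesIoc_succ {a b : ℕ} (h : a ≤ b) :
    primesIoc a (b + 1) = if (b + 1).Prime then insert (b + 1) (primesIoc a b) else primesIoc a b := by
  unfold primesIoc
  rw [← insert_Ioc_right_eq_Ioc_add_one h, filter_insert]

theorem prime_of_mem {a b p : ℕ} (h : p ∈ primesIoc a b) : p.Prime := (mem_primesIoc.mp h).2.2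

theorem buchstab (M N : ℕ) {a b : ℕ} (h : a ≤ b) :
    cnt (primesIoc 0 a) M N - cnt (primesIoc 0 b) M N
      = ∑ p ∈ primesIoc a b, cnt (primesIoc 0 (p - 1)) (M / p) (len p M N) := by
  induction b, h using Nat.le_induction with
  | base => simp [primesIoc]
  | succ b h ih =>
    rw [primesIoc_succ h, primesIoc_succ (Nat.zero_le b)]
    split_ifs with hp
    · rw [sum_insert (by simp [mem_primesIoc]), ← ih, Nat.add_sub_cancel,
        ← cnt_insert (fun q => prime_of_mem) hp (by simp [mem_primesIoc])]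
      ring
    · exact ih

theorem V_prime {p : ℕ} (hp : p.Prime) : V p = V (p - 1) * (1 - 1 / p) := by
  obtain ⟨b, rfl⟩ := Nat.exists_eq_succ_of_ne_zero hp.ne_zero
  rw [V, V, Nat.succ_eq_add_one, primesIoc_succ (Nat.zero_le b), if_pos hp,
    prod_insert (by simp [mem_primesIoc]), Nat.add_sub_cancel, mul_comm]

theorem V_tele (b : ℕ) : ∑ p ∈ primesIoc 0 b, V (p - 1) / p = 1 - V b := by
  induction b with
  | zero => simp [primesIoc, V]
  | succ b ih =>
    rw [primesIoc_succ (Nat.zero_le b)]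
    split_ifs with hp
    · rw [sum_insert (by simp [mem_primesIoc]), ih, V_prime hp, Nat.add_sub_cancel]
      ring
    · rw [ih, V, V, primesIoc_succ (Nat.zero_le b), if_neg hp]

theorem K_eq (n : ℕ) : K (primesIoc 0 n) = (V n)⁻¹ := by rw [K, V, prod_inv_distrib]

theorem V_le_one (n : ℕ) : V n ≤ 1 := by
  have h := one_le_K (S := primesIoc 0 n) fun _ => prime_of_mem
  rwa [K_eq, one_le_inv₀ (V_pos n)] at h

theorem subset_of_log_le {T : Finset ℕ} {l : ℝ} (hT : ∀ p ∈ T, p.Prime ∧ log (p : ℝ) ≤ l) :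
    T ⊆ primesIoc 0 ⌊exp l⌋₊ := fun p hp => by
  have h5 : (0 : ℝ) < p := by exact_mod_cast (hT p hp).1.pos
  refine mem_primesIoc.mpr ⟨(hT p hp).1.pos, ?_, (hT p hp).1⟩
  rw [Nat.le_floor_iff (exp_pos _).le, ← log_le_iff_le_exp h5]
  exact (hT p hp).2

theorem log_le_of_mem {a p : ℕ} {l : ℝ} (h : p ∈ primesIoc a ⌊exp l⌋₊) : log (p : ℝ) ≤ l := by
  have h1 := mem_primesIoc.mp h
  have h5 : (0 : ℝ) < p := by exact_mod_cast h1.2.2.pos
  rw [log_le_iff_le_exp h5, ← Nat.le_floor_iff (exp_pos _).le]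
  exact h1.2.1

theorem sum_log_div_le {T : Finset ℕ} {l : ℝ} (hl : 0 ≤ l)
    (hT : ∀ p ∈ T, p.Prime ∧ log (p : ℝ) ≤ l) : ∑ p ∈ T, log (p : ℝ) / p ≤ l + 11 / 2 := by
  have h1 := Pool.Agent.Lib.Mertens.sum_log_div_prime_le (one_le_exp hl)
  have h2 : log 4 = 2 * log 2 := by
    rw [show (4 : ℝ) = 2 ^ 2 by norm_num, log_pow]
    norm_num
  rw [log_exp] at h1
  refine (sum_le_sum_of_subset_of_nonneg (subset_of_log_le hT) fun p _ _ =>
    div_nonneg (log_natCast_nonneg p) (Nat.cast_nonneg p)).trans (h1.trans ?_)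
  linarith [log_two_lt_d9]

theorem rankin {T : Finset ℕ} {l : ℝ} (hl : 1 / 2 ≤ l) (hT : ∀ p ∈ T, p.Prime ∧ log (p : ℝ) ≤ l)
    (u : ℝ) : K T * (1 - exp (24 - u / l)) ≤ g T u := by
  have hl0 : 0 < l := by linarith
  have hS : ∀ p ∈ T, p.Prime := fun p hp => (hT p hp).1
  have h1 : K T = ∑ r ∈ T.powerset, ∏ p ∈ r, 1 / ((p : ℝ) - 1) := by
    rw [← prod_one_add]
    refine prod_congr rfl fun p hp => ?_
    have : (2 : ℝ) ≤ p := by exact_mod_cast (hS p hp).two_le
    have h2 : (p : ℝ) - 1 ≠ 0 := by linarith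
    have h3 : (p : ℝ) ≠ 0 := by linarith
    field_simp
    ring
  have h2 : K T ≤ g T u
      + exp (-(u / l)) * ∑ r ∈ T.powerset, ∏ p ∈ r, exp (log (p : ℝ) / l) / ((p : ℝ) - 1) := by
    rw [h1, g, mul_sum, ← sum_add_distrib]
    refine sum_le_sum fun r hr => ?_
    have h3 := ph_pos hS hr
    rw [prod_div_distrib, prod_div_distrib, prod_const_one, ← exp_sum, ← sum_div, ← mul_div_assoc,
      ← exp_add]
    change 1 / ph r ≤ cf u r + exp (-(u / l) + wt r / l) / ph r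
    unfold cf
    split_ifs with h
    · exact le_add_of_nonneg_right (by positivity)
    · rw [zero_add]
      refine div_le_div_of_nonneg_right (one_le_exp ?_) h3.le
      linarith [div_le_div_of_nonneg_right (not_le.mp h).le hl0.le]
  have h3 : ∑ r ∈ T.powerset, ∏ p ∈ r, exp (log (p : ℝ) / l) / ((p : ℝ) - 1) ≤ K T * exp 24 := by
    have h4 : ∑ p ∈ T, 2 / l * (log (p : ℝ) / p) ≤ 24 := by
      rw [← mul_sum, div_mul_eq_mul_div, div_le_iff₀ hl0]
      linarith [sum_log_div_le hl0.le hT]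
    refine le_trans ?_ (mul_le_mul_of_nonneg_left (exp_le_exp.mpr h4)
      (zero_le_one.trans (one_le_K hS)))
    rw [← prod_one_add, exp_sum, K, ← prod_mul_distrib]
    refine prod_le_prod (fun p hp => ?_) fun p hp => ?_
    · have : (2 : ℝ) ≤ p := by exact_mod_cast (hS p hp).two_le
      have h2 : 0 < (p : ℝ) - 1 := by linarith
      positivity
    have p2 : (2 : ℝ) ≤ p := by exact_mod_cast (hS p hp).two_le
    have p1 : 0 < (p : ℝ) - 1 := by linarith
    have t0 : 0 ≤ log (p : ℝ) / l := div_nonneg (log_natCast_nonneg p) hl0.le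
    have t1 := abs_exp_sub_one_le (x := log (p : ℝ) / l)
      (by rw [abs_of_nonneg t0, div_le_one hl0]; exact (hT p hp).2)
    rw [abs_of_nonneg t0] at t1
    have t2 : 1 + exp (log (p : ℝ) / l) / ((p : ℝ) - 1)
        = (1 - 1 / (p : ℝ))⁻¹ * ((exp (log (p : ℝ) / l) - 1) / p + 1) := by
      field_simp
      ring
    rw [t2]
    refine mul_le_mul_of_nonneg_left (le_trans ?_ (add_one_le_exp _))
      (zero_le_one.trans (K_factor (hS p hp)))
    have t3 : 2 / l * (log (p : ℝ) / p) = 2 * (log (p : ℝ) / l) / p := by ring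
    rw [t3]
    gcongr
    exact (le_abs_self _).trans t1
  have h4 := mul_le_mul_of_nonneg_left h3 (exp_pos (-(u / l))).le
  rw [sub_eq_neg_add 24, exp_add]
  linarith

theorem selberg_raw {T : Finset ℕ} (hT : ∀ p ∈ T, p.Prime) (M N : ℕ) (u : ℝ) :
    cnt T M N * g T u ^ 2 ≤ N * g T u + (exp u * K T ^ 2) ^ 2 := by
  have h := (abs_le.mp (plain_term M N hT one_pos (fun p _ => Nat.coprime_one_right p) u)).2
  have h1 : cnt T M N * g T u ^ 2
      ≤ ∑ m ∈ Ioc M (M + N), X 1 m * (F T (cf u) m * F T (cf u) m) := by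
    rw [cnt, ← nsmul_eq_mul, ← sum_const]
    refine le_trans (le_of_eq (sum_congr rfl fun m hm => ?_))
      (sum_le_sum_of_subset_of_nonneg (filter_subset _ _) fun m _ _ =>
        mul_nonneg (X_nonneg _ _) (mul_self_nonneg _))
    rw [F_cf_of_not_dvd (mem_filter.mp hm).2, X, if_pos (one_dvd m)]
    ring
  simp only [Nat.cast_one, div_one] at h
  linarith

theorem selberg : ∃ C : ℝ, 1 ≤ C ∧ ∀ (T : Finset ℕ) (M N : ℕ) (l u : ℝ), 1 / 2 ≤ l → 25 * l ≤ u →
    (∀ p ∈ T, p.Prime ∧ log (p : ℝ) ≤ l) →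
    cnt T M N ≤ N / K T * (1 + C * (l / u) ^ 3) + C * (exp (2 * u) * l ^ 2) := by
  obtain ⟨c, c', hc0, -, hc⟩ := Pool.Agent.Lib.Mertens.mertens_third_bounds
  refine ⟨max (12 * exp 24) (16 / c ^ 2), le_max_of_le_left (by linarith [add_one_le_exp (24 : ℝ)]),
    fun T M N l u hl hu hT => ?_⟩
  have hl0 : 0 < l := by linarith
  have hu0 : 0 < u := by linarith
  have hS : ∀ p ∈ T, p.Prime := fun p hp => (hT p hp).1
  have k1 := one_le_K hS
  have k2 : K T ≤ 2 * l / c := by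
    have h1 := (hc (exp (2 * l)) (by linarith [add_one_le_exp (2 * l)])).1
    rw [log_exp] at h1
    refine (K_mono (fun _ => prime_of_mem) (subset_of_log_le (l := 2 * l)
      fun p hp => ⟨hS p hp, by linarith [(hT p hp).2]⟩)).trans ?_
    rw [K_eq, ← inv_div]
    exact inv_anti₀ (by positivity) h1
  have h1 := rankin hl hT u
  set τ := exp (24 - u / l) with hτ
  have τ0 : 0 < τ := exp_pos _
  have τ1 : τ ≤ 1 / 2 := by
    have : 25 ≤ u / l := by rwa [le_div_iff₀ hl0]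
    exact (exp_le_exp.mpr (by linarith : 24 - u / l ≤ -1)).trans (by linarith [exp_neg_one_lt_d9])
  have τ2 : τ ≤ 6 * exp 24 * (l / u) ^ 3 := by
    have h2 := pow_div_factorial_le_exp (u / l) (by positivity) 3
    have h3 : (u / l) ^ 3 * (l / u) ^ 3 = 1 := by field_simp
    rw [hτ, exp_sub, div_le_iff₀ (exp_pos _)]
    simp only [Nat.factorial, Nat.succ_eq_add_one] at h2
    have := mul_le_mul_of_nonneg_left h2 (show 0 ≤ 6 * exp 24 * (l / u) ^ 3 by positivity)
    push_cast at this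
    nlinarith [exp_pos (24 : ℝ)]
  have g0 : K T / 2 ≤ g T u := by nlinarith
  have g1 : 0 < g T u := by linarith
  have h2 : cnt T M N ≤ N / g T u + (exp u * K T ^ 2 / g T u) ^ 2 := by
    have := selberg_raw hS M N u
    rw [← le_div_iff₀ (by positivity)] at this
    refine this.trans (le_of_eq ?_)
    field_simp
  refine h2.trans (add_le_add ?_ ?_)
  · rw [div_mul_eq_mul_div, div_le_div_iff₀ g1 (by linarith), mul_assoc]
    refine mul_le_mul_of_nonneg_left ?_ (Nat.cast_nonneg N)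
    have h3 : 2 * τ ≤ max (12 * exp 24) (16 / c ^ 2) * (l / u) ^ 3 := by
      have := mul_le_mul_of_nonneg_right (le_max_left (12 * exp 24) (16 / c ^ 2))
        (show 0 ≤ (l / u) ^ 3 by positivity)
      linarith
    have h4 := mul_le_mul_of_nonneg_right h3 g1.le
    have h5 := mul_le_mul_of_nonneg_left h1 (show 0 ≤ 1 + 2 * τ by positivity)
    nlinarith [mul_nonneg (mul_nonneg τ0.le (show 0 ≤ 1 - 2 * τ by linarith))
      (zero_le_one.trans k1)]
  · have h3 : exp u * K T ^ 2 / g T u ≤ exp u * (4 * l / c) := by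
      rw [mul_div_assoc]
      refine mul_le_mul_of_nonneg_left ?_ (exp_pos u).le
      rw [div_le_iff₀ g1]
      calc K T ^ 2 = (2 * K T) * (K T / 2) := by ring
        _ ≤ (2 * (2 * l / c)) * g T u := by gcongr
        _ = _ := by ring
    calc _ ≤ (exp u * (4 * l / c)) ^ 2 := by gcongr
      _ = 16 / c ^ 2 * (exp (2 * u) * l ^ 2) := by rw [two_mul, exp_add]; ring
      _ ≤ _ := by gcongr; exact le_max_right _ _

end Pool.Agent.P.MP_1b1bb8_nt.LS
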