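import Pool.Agent.P.MP_1b1bb8_nt.LSAdj

/-!
A dual certificate for the delay inequalities of the linear sieve.
-/

open Real Filter Topology MeasureTheory Set

namespace Pool.Agent.P.MP_1b1bb8_nt.LS

theorem mono_of_dini {a b W P f a' b' W' lP lf : ℝ → ℝ} {x₀ x₁ : ℝ} (hx : x₀ ≤ x₁)
    (ha : ∀ x ∈ Icc x₀ x₁, HasDerivAt a (a' x) x) (hb : ∀ x ∈ Icc x₀ x₁, HasDerivAt b (b' x) x)
    (hW : ∀ x ∈ Icc x₀ x₁, HasDerivAt W (W' x) x) (hP : ContinuousOn P (Icc x₀ x₁))
    (hf : ContinuousOn f (Icc x₀ x₁)) (ha0 : ∀ x ∈ Icc x₀ x₁, 0 ≤ a x)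
    (hb0 : ∀ x ∈ Icc x₀ x₁, 0 ≤ b x)
    (dP : ∀ x ∈ Ico x₀ x₁, ∀ r < lP x, ∀ᶠ z in 𝓝[>] x, r < slope P x z)
    (df : ∀ x ∈ Ico x₀ x₁, ∀ r > lf x, ∀ᶠ z in 𝓝[>] x, slope f x z < r)
    (h : ∀ x ∈ Ico x₀ x₁, 0 ≤ a' x * P x + a x * lP x - b' x * f x - b x * lf x + W' x) :
    a x₀ * P x₀ - b x₀ * f x₀ + W x₀ ≤ a x₁ * P x₁ - b x₁ * f x₁ + W x₁ := by
  have ca : ContinuousOn a (Icc x₀ x₁) := fun x hx => (ha x hx).continuousAt.continuousWithinAt
  have cb : ContinuousOn b (Icc x₀ x₁) := fun x hx => (hb x hx).continuousAt.continuousWithinAt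
  have cW : ContinuousOn W (Icc x₀ x₁) := fun x hx => (hW x hx).continuousAt.continuousWithinAt
  have key := image_le_of_liminf_slope_right_le_deriv_boundary
    (f := fun x => -(a x * P x - b x * f x + W x)) (a := x₀) (b := x₁)
    (((ca.mul hP).sub (cb.mul hf)).add cW).neg (B := fun _ => -(a x₀ * P x₀ - b x₀ * f x₀ + W x₀))
    (B' := fun _ => 0) le_rfl continuousOn_const
    (fun x _ => (hasDerivAt_const x _).hasDerivWithinAt) ?_ (right_mem_Icc.mpr hx)
  · linarith
  intro x hxx r hr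
  have hx' := Ico_subset_Icc_self hxx
  have a0 := ha0 x hx'
  have b0 := hb0 x hx'
  set ε := r / (a x + b x + 1) with hε
  have hε0 : 0 < ε := by positivity
  have sl : ∀ {g : ℝ → ℝ} {g' : ℝ}, HasDerivAt g g' x → Tendsto (slope g x) (𝓝[>] x) (𝓝 g') :=
    fun hg => (hasDerivAt_iff_tendsto_slope.mp hg).mono_left
      (nhdsWithin_mono _ fun _ hz => ne_of_gt hz)
  have ta : Tendsto a (𝓝[>] x) (𝓝 (a x)) := (ha x hx').continuousAt.continuousWithinAt
  have tb : Tendsto b (𝓝[>] x) (𝓝 (b x)) := (hb x hx').continuousAt.continuousWithinAt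
  have t := ((((ta.mul_const (lP x - ε)).neg.sub ((sl (ha x hx')).mul_const (P x))).add
    (tb.mul_const (lf x + ε))).add ((sl (hb x hx')).mul_const (f x))).sub (sl (hW x hx'))
  have hlt : -(a x * (lP x - ε)) - a' x * P x + b x * (lf x + ε) + b' x * f x - W' x < r := by
    have e : ε * (a x + b x + 1) = r := by rw [hε]; field_simp
    nlinarith [h x hxx]
  refine Eventually.frequently ?_
  filter_upwards [t.eventually_lt_const hlt, dP x hxx (lP x - ε) (by linarith),
    df x hxx (lf x + ε) (by linarith), Ioc_mem_nhdsGT hxx.2] with z h1 h2 h3 hz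
  have hz' : z ∈ Icc x₀ x₁ := ⟨hxx.1.trans hz.1.le, hz.2⟩
  have e : slope (fun x => -(a x * P x - b x * f x + W x)) x z
      = -(a z * slope P x z) - slope a x z * P x + b z * slope f x z + slope b x z * f x
        - slope W x z := by
    simp only [slope_def_field]
    have : z - x ≠ 0 := sub_ne_zero.mpr (ne_of_gt hz.1)
    field_simp
    ring
  rw [e]
  nlinarith [mul_le_mul_of_nonneg_left h2.le (ha0 z hz'), mul_le_mul_of_nonneg_left h3.le (hb0 z hz')]

theorem hasDerivAt_int {g : ℝ → ℝ} {c : ℝ} (hc : c < 2) (hg : ContinuousOn g (Ioi c)) {y : ℝ}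
    (hy : c < y) : HasDerivAt (fun y => ∫ x in (2 : ℝ)..y, g x) (g y) y := by
  refine intervalIntegral.integral_hasDerivAt_right (ContinuousOn.intervalIntegrable
    (hg.mono fun x hx => ?_)) (hg.stronglyMeasurableAtFilter isOpen_Ioi y hy)
    (hg.continuousAt (Ioi_mem_nhds hy))
  exact lt_of_lt_of_le (lt_min hc hy) hx.1

/-- The delay inequalities. -/
structure Delay (κ : ℝ) (f P : ℝ → ℝ) : Prop where
  cf : ContinuousOn f (Ioi 1)
  cP : Continuous P
  mono : Monotone P
  const : ∀ x ≤ 3, P x = P 3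
  df : ∀ x, 2 ≤ x → ∀ r > P (x - 1) / (x - 1), ∀ᶠ z in 𝓝[>] x, slope f x z < r
  dP : ∀ x, 3 ≤ x → ∀ r < f (x - 1) / (x - 1), ∀ᶠ z in 𝓝[>] x, r < slope P x z
  asy : ∃ C : ℝ, ∀ᶠ s in atTop, κ * s - C / s ^ 2 ≤ f s ∧ f s ≤ P s ∧ P s ≤ κ * s + C / s ^ 2

theorem cert {κ α β s₀ : ℝ} {f P : ℝ → ℝ} (D : Delay κ f P) (hκ : 0 ≤ κ) (hα : 0 ≤ α)
    (hl : 0 ≤ α - β * pp 2) (hU : ∀ s, 3 ≤ s → 0 ≤ α * (s - 1) + β * pp s) (hs : 2 ≤ s₀) :
    P 3 * (β * pp 1) ≤ 2 * κ * β + (α - β * pp 2) * (f s₀ - P 3 * log (s₀ - 1)) := by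
  set U : ℝ → ℝ := fun s => α * (s - 1) + β * pp s with hUd
  set V : ℝ → ℝ := fun s => α * (s - 1) - β * pp s with hVd
  have dU : ∀ x, 0 < x → HasDerivAt U (V (x + 1) / x) x := fun x hx =>
    ((((hasDerivAt_id x).sub_const 1).const_mul α).add
      ((hasDerivAt_pp hx).const_mul β)).congr_deriv (by simp only [hVd]; field_simp; ring)
  have dV : ∀ x, 0 < x → HasDerivAt V (U (x + 1) / x) x := fun x hx =>
    ((((hasDerivAt_id x).sub_const 1).const_mul α).sub
      ((hasDerivAt_pp hx).const_mul β)).congr_deriv (by simp only [hUd]; field_simp; ring)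
  have cU : ContinuousOn (fun x => U (x + 1)) (Ioi 0) := fun x hx =>
    (ContinuousAt.comp (f := fun x : ℝ => x + 1) (dU (x + 1) (by linarith [mem_Ioi.mp hx])).continuousAt
      (by fun_prop)).continuousWithinAt
  have cV : ContinuousOn (fun x => V (x + 1)) (Ioi 0) := fun x hx =>
    (ContinuousAt.comp (f := fun x : ℝ => x + 1) (dV (x + 1) (by linarith [mem_Ioi.mp hx])).continuousAt
      (by fun_prop)).continuousWithinAt
  have hV2 : V 2 = α - β * pp 2 := by simp only [hVd]; ring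
  have mV : ∀ x, 2 ≤ x → V 2 ≤ V x := by
    intro x hx
    refine monotoneOn_of_deriv_nonneg (convex_Ici (2 : ℝ))
      (fun y hy => (dV y (by linarith [mem_Ici.mp hy])).continuousAt.continuousWithinAt)
      (fun y hy => ?_) (fun y hy => ?_) self_mem_Ici hx hx
    · rw [interior_Ici] at hy
      exact (dV y (by linarith [mem_Ioi.mp hy])).differentiableAt.differentiableWithinAt
    · rw [interior_Ici] at hy
      have := mem_Ioi.mp hy
      rw [(dV y (by linarith)).deriv]
      exact div_nonneg (hU _ (by linarith)) (by linarith)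
  set gf : ℝ → ℝ := fun x => U (x + 1) * f x / x with hgf
  set gP : ℝ → ℝ := fun x => V (x + 1) * P x / x with hgP
  have cgf : ContinuousOn gf (Ioi 1) :=
    ((cU.mono (Ioi_subset_Ioi zero_le_one)).mul D.cf).div continuousOn_id
      fun x hx => by linarith [mem_Ioi.mp hx]
  have cgP : ContinuousOn gP (Ioi 0) :=
    (cV.mul D.cP.continuousOn).div continuousOn_id fun x hx => ne_of_gt hx
  set If : ℝ → ℝ := fun y => ∫ x in (2 : ℝ)..y, gf x with hIf
  set IP : ℝ → ℝ := fun y => ∫ x in (2 : ℝ)..y, gP x with hIP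
  have dIf : ∀ y, 1 < y → HasDerivAt If (gf y) y := fun y hy => hasDerivAt_int one_lt_two cgf hy
  have dIP : ∀ y, 0 < y → HasDerivAt IP (gP y) y := fun y hy => hasDerivAt_int two_pos cgP hy
  have dIf' : ∀ y, 2 < y → HasDerivAt (fun y => If (y - 1)) (gf (y - 1)) y := fun y hy =>
    (dIf (y - 1) (by linarith)).comp_sub_const y 1
  have dIP' : ∀ y, 1 < y → HasDerivAt (fun y => IP (y - 1)) (gP (y - 1)) y := fun y hy =>
    (dIP (y - 1) (by linarith)).comp_sub_const y 1
  have dL : ∀ y : ℝ, 1 < y → HasDerivAt (fun y => log (y - 1)) (y - 1)⁻¹ y := fun y hy =>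
    (hasDerivAt_log (by linarith)).comp_sub_const y 1
  have cf' : ∀ x₀ x₁ : ℝ, 2 ≤ x₀ → ContinuousOn f (Icc x₀ x₁) := fun x₀ x₁ h =>
    D.cf.mono fun x hx => mem_Ioi.mpr (by linarith [hx.1])
  set G : ℝ → ℝ := fun x => U x * P x - V x * f x + If x - (IP x - IP (x - 1)) with hG
  set L : ℝ → ℝ := fun x => f x - P 3 * log (x - 1) with hL
  have A : ∀ l x₀ x₁, l ≤ V 2 → 2 ≤ x₀ → x₀ ≤ x₁ → x₁ ≤ 3 → G x₀ + l * L x₀ ≤ G x₁ + l * L x₁ := by
    intro l x₀ x₁ hl h0 h1 h2
    have := mono_of_dini (a := fun _ => 0) (b := fun x => V x - l) (P := fun _ => 0) (f := f)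
      (W := fun x => U x * P 3 + If x - (IP x - IP (x - 1)) - l * (P 3 * log (x - 1)))
      (lP := fun _ => 0) (lf := fun x => P (x - 1) / (x - 1)) h1
      (fun x _ => hasDerivAt_const x _)
      (fun x hx => (dV x (by linarith [hx.1])).sub_const l)
      (fun x hx => ((((dU x (by linarith [hx.1])).mul_const _).add
        (dIf x (by linarith [hx.1]))).sub ((dIP x (by linarith [hx.1])).sub
          (dIP' x (by linarith [hx.1])))).sub (((dL x (by linarith [hx.1])).const_mul _).const_mul l))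
      continuousOn_const (cf' _ _ h0) (fun _ _ => le_rfl)
      (fun x hx => by linarith [mV x (h0.trans hx.1)])
      (fun x _ r hr => Eventually.of_forall fun z => by simpa [slope] using hr)
      (fun x hx => D.df x (h0.trans hx.1)) (fun x hx => le_of_eq ?_)
    · simp only [hG, hL]
      rw [D.const x₀ (h1.trans h2), D.const x₁ h2]
      linarith
    · have e1 := D.const x (hx.2.le.trans h2)
      have e2 := D.const (x - 1) (by linarith [hx.2])
      simp only [hgf, hgP, e1, e2, sub_add_cancel]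
      ring
  have B : ∀ l x₀ x₁, 0 ≤ l → l ≤ V 2 → 3 ≤ x₀ → x₀ ≤ x₁ →
      G x₀ - If (x₀ - 1) + l * L x₀ ≤ G x₁ - If (x₁ - 1) + l * L x₁ := by
    intro l x₀ x₁ hl0 hl h0 h1
    have := mono_of_dini (a := U) (b := fun x => V x - l) (P := P) (f := f)
      (W := fun x => If x - If (x - 1) - (IP x - IP (x - 1)) - l * (P 3 * log (x - 1)))
      (lP := fun x => f (x - 1) / (x - 1)) (lf := fun x => P (x - 1) / (x - 1)) h1
      (fun x hx => dU x (by linarith [hx.1]))
      (fun x hx => (dV x (by linarith [hx.1])).sub_const l)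
      (fun x hx => (((dIf x (by linarith [hx.1])).sub (dIf' x (by linarith [hx.1]))).sub
        ((dIP x (by linarith [hx.1])).sub
          (dIP' x (by linarith [hx.1])))).sub (((dL x (by linarith [hx.1])).const_mul _).const_mul l))
      D.cP.continuousOn (cf' _ _ (by linarith)) (fun x hx => hU x (h0.trans hx.1))
      (fun x hx => by linarith [mV x (by linarith [hx.1])])
      (fun x hx => D.dP x (h0.trans hx.1)) (fun x hx => D.df x (by linarith [hx.1]))
      (fun x hx => ?_)
    · simp only [hG, hL]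
      linarith
    · have e1 : P 3 ≤ P (x - 1) := by
        rw [← D.const 2 (by norm_num)]
        exact D.mono (by linarith [hx.1])
      have e2 : 0 ≤ l * ((P (x - 1) - P 3) * (x - 1)⁻¹) :=
        mul_nonneg hl0 (mul_nonneg (by linarith) (inv_nonneg.mpr (by linarith [hx.1])))
      refine e2.trans (le_of_eq ?_)
      simp only [hgf, hgP, sub_add_cancel]
      ring
  have hl' : 0 ≤ V 2 := by rwa [hV2]
  have i2 : If 2 = 0 := by simp [hIf]
  have g2 : G 2 + V 2 * L 2 = P 3 * (β * pp 1) := by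
    have e1 : IP 1 = U 1 * P 3 - U 2 * P 3 := by
      refine intervalIntegral.integral_eq_sub_of_hasDerivAt (f := fun x => U x * P 3)
        (fun x hx => ?_) (ContinuousOn.intervalIntegrable (cgP.mono fun x hx => ?_))
      · rw [uIcc_of_ge one_le_two] at hx
        refine ((dU x (by linarith [hx.1])).mul_const _).congr_deriv ?_
        simp only [hgP, D.const x (by linarith [hx.2])]
        ring
      · rw [uIcc_of_ge one_le_two] at hx
        exact lt_of_lt_of_le one_pos hx.1
    have e2 : IP 2 = 0 := by simp [hIP]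
    have e3 : (2 : ℝ) - 1 = 1 := by norm_num
    simp only [hG, hL, e3, e1, e2, i2, D.const 2 (by norm_num), log_one]
    simp only [hUd]
    ring
  have lim : ∀ x₀, 3 ≤ x₀ → G x₀ - If (x₀ - 1) ≤ 2 * κ * β := by
    intro x₀ h0
    obtain ⟨C, hC⟩ := D.asy
    obtain ⟨s₁, hC⟩ := eventually_atTop.mp hC
    have t0 : Tendsto (fun R : ℝ => R⁻¹) atTop (𝓝 0) := tendsto_inv_atTop_zero
    have t1 : Tendsto (fun R : ℝ => R * pp R) atTop (𝓝 1) := by
      have t2 : Tendsto (fun R : ℝ => 1 - R⁻¹) atTop (𝓝 1) := by simpa using t0.const_sub 1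
      refine tendsto_of_tendsto_of_tendsto_of_le_of_le' t2 tendsto_const_nhds ?_ ?_
      · filter_upwards [eventually_gt_atTop 0] with R hR
        refine le_trans ?_ (mul_le_mul_of_nonneg_left (le_pp hR) hR.le)
        rw [mul_one_div, le_div_iff₀ (by linarith)]
        have : R⁻¹ * R = 1 := inv_mul_cancel₀ hR.ne'
        nlinarith [inv_pos.mpr hR]
      · filter_upwards [eventually_gt_atTop 0] with R hR
        have := mul_le_mul_of_nonneg_left (pp_le hR) hR.le
        rwa [mul_one_div_cancel hR.ne'] at this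
    have t3 := (t1.const_mul (2 * κ * β)).add (t0.const_mul (2 * κ * |β| + 6 * α * |C|))
    rw [mul_one, mul_zero, add_zero] at t3
    refine ge_of_tendsto t3 ?_
    filter_upwards [eventually_ge_atTop x₀, eventually_ge_atTop (s₁ + 1)] with R h1 h2
    have hb := B 0 x₀ R le_rfl hl' h0 h1
    have hR : 0 < R := by linarith
    have aC : ∀ x : ℝ, 0 < x → C / x ^ 2 ≤ |C| / x ^ 2 := fun x hx => by
      gcongr
      exact le_abs_self C
    have pt : ∀ x, s₁ ≤ x → 0 < x → ∀ y, 3 ≤ y →
        U y * f x - V y * P x ≤ 2 * κ * β * (x * pp y) + 2 * α * |C| * ((y - 1) / x ^ 2) ∧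
        U y * P x - V y * f x ≤ 2 * κ * β * (x * pp y) + 2 * α * |C| * ((y - 1) / x ^ 2) := by
      intro x hx hx0 y hy
      obtain ⟨c1, c2, c3⟩ := hC x hx
      have u0 : 0 ≤ U y := hU y hy
      have v0 : 0 ≤ V y := hl'.trans (mV y (by linarith))
      have e : U y * (κ * x + |C| / x ^ 2) - V y * (κ * x - |C| / x ^ 2)
          = 2 * κ * β * (x * pp y) + 2 * α * |C| * ((y - 1) / x ^ 2) := by
        simp only [hUd, hVd]
        ring
      have := aC x hx0
      rw [← e]
      constructor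
      · exact sub_le_sub (mul_le_mul_of_nonneg_left (by linarith) u0)
          (mul_le_mul_of_nonneg_left (by linarith) v0)
      · exact sub_le_sub (mul_le_mul_of_nonneg_left (by linarith) u0)
          (mul_le_mul_of_nonneg_left (by linarith) v0)
    have i1 : (If R - IP R) - (If (R - 1) - IP (R - 1)) ≤ (2 * κ * |β| + 4 * α * |C|) * R⁻¹ := by
      have := (convex_Icc (R - 1) R).image_sub_le_mul_sub_of_deriv_le
        (f := fun y => If y - IP y) (C := (2 * κ * |β| + 4 * α * |C|) * R⁻¹)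
        (fun y hy => ((dIf y (by linarith [hy.1])).sub
          (dIP y (by linarith [hy.1]))).continuousAt.continuousWithinAt)
        (fun y hy => ((dIf y (by linarith [(interior_subset hy).1])).sub
          (dIP y (by linarith [(interior_subset hy).1]))).differentiableAt.differentiableWithinAt)
        (fun y hy => ?_) (R - 1) (left_mem_Icc.mpr (by linarith)) R
        (right_mem_Icc.mpr (by linarith)) (by linarith)
      · simpa using this
      have y1 := (interior_subset hy).1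
      have y0 : 0 < y := by linarith
      rw [((dIf y (by linarith)).fun_sub (dIP y y0)).deriv]
      have e : gf y - gP y = (U (y + 1) * f y - V (y + 1) * P y) / y := by
        simp only [hgf, hgP]
        ring
      rw [e, div_le_iff₀ y0]
      refine (pt y (by linarith) y0 (y + 1) (by linarith)).1.trans ?_
      have p1 : pp (y + 1) ≤ R⁻¹ := (pp_le (by linarith)).trans
        (by rw [one_div]; exact inv_anti₀ hR (by linarith))
      have p2 : β * pp (y + 1) ≤ |β| * R⁻¹ :=
        mul_le_mul (le_abs_self β) p1 (pp_pos (by linarith)).le (abs_nonneg β)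
      have p3 : (y + 1 - 1) / y ^ 2 ≤ 2 * (R⁻¹ * y) := by
        rw [add_sub_cancel_right, div_le_iff₀ (by positivity), ← div_eq_inv_mul, ← mul_div_assoc,
          div_mul_eq_mul_div, le_div_iff₀ hR]
        nlinarith [mul_pos y0 y0, mul_nonneg (mul_pos y0 y0).le (show 0 ≤ y - 1 by linarith)]
      have p4 := mul_le_mul_of_nonneg_left p2 (mul_nonneg hκ y0.le)
      have p5 := mul_le_mul_of_nonneg_left p3 (mul_nonneg hα (abs_nonneg C))
      linarith
    have i2 := (pt R (by linarith) hR R (by linarith)).2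
    have i3 : (R - 1) / R ^ 2 ≤ R⁻¹ := by
      rw [div_le_iff₀ (by positivity), sq, ← mul_assoc, inv_mul_cancel₀ hR.ne']
      linarith
    have i4 := mul_le_mul_of_nonneg_left i3 (mul_nonneg hα (abs_nonneg C))
    simp only [hG] at hb ⊢
    linarith
  have e3 : (3 : ℝ) - 1 = 2 := by norm_num
  rw [← g2, ← hV2]
  change _ ≤ _ + V 2 * L s₀
  rcases le_total s₀ 3 with h | h
  · have h1 := A (V 2) 2 s₀ le_rfl le_rfl hs h
    have h2 := A 0 s₀ 3 hl' hs h le_rfl
    have h3 := lim 3 le_rfl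
    rw [e3, i2] at h3
    linarith
  · have h1 := A (V 2) 2 3 le_rfl le_rfl (by norm_num) le_rfl
    have h2 := B (V 2) 3 s₀ hl' le_rfl le_rfl h
    have h3 := lim s₀ h
    rw [e3, i2] at h2
    linarith

theorem Delay.lower {f P : ℝ → ℝ} (D : Delay (exp (-eulerMascheroniConstant)) f P) {s : ℝ}
    (h2 : 2 ≤ s) (h3 : s ≤ 3) : 2 * log (s - 1) ≤ f s := by
  have p1 : 1 / 2 ≤ pp 1 := by simpa [one_add_one_eq_two] using le_pp one_pos
  have p2 := pp_le two_pos
  have p0 := pp_pos two_pos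
  have l0 : 0 ≤ log (s - 1) := log_nonneg (by linarith)
  have l1 : log (s - 1) ≤ 7 / 10 :=
    (log_le_log (y := 2) (by linarith) (by linarith)).trans (by linarith [log_two_lt_d9])
  set b := log (s - 1) / pp 1 with hb
  have e : b * pp 1 = log (s - 1) := by rw [hb]; field_simp
  have b0 : 0 ≤ b := by positivity
  have b1 : b ≤ 7 / 5 := by nlinarith
  have h := cert (α := 1 - b * pp 2) (β := -b) D (exp_pos _).le (by nlinarith) (by linarith)
    (fun x hx => ?_) h2
  · rw [neg_mul b (pp 1), e] at h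
    linarith [mul_le_mul_of_nonneg_left pp_one_le b0]
  · have p3 : pp x ≤ 1 / 3 := (pp_le (by linarith)).trans (by gcongr)
    nlinarith [mul_le_mul_of_nonneg_left p2 b0, mul_le_mul_of_nonneg_left p3 b0]

end Pool.Agent.P.MP_1b1bb8_nt.LS
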