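import Pool.Agent.P.MP_1b1bb8_nt.LSBasic

/-!
The fundamental lemma for sifted intervals.
-/

open Finset Real Filter Topology

namespace Pool.Agent.P.MP_1b1bb8_nt.LS

open Pool.Agent.P.MP_3bc45c_nt

/-- The primes up to `N ^ (1 / s)`. -/
noncomputable def PP (s : ℝ) (N : ℕ) : Finset ℕ := primesIoc 0 ⌊exp (log N / s)⌋₊

def Up (s c : ℝ) : Prop :=
  ∀ ε > 0, ∀ᶠ N : ℕ in atTop, ∀ M, cnt (PP s N) M N ≤ (c + ε) * (N / log N)

def Lo (s c : ℝ) : Prop :=
  ∀ ε > 0, ∀ᶠ N : ℕ in atTop, ∀ M, (c - ε) * (N / log N) ≤ cnt (PP s N) M N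

theorem tlog : Tendsto (fun N : ℕ => log (N : ℝ)) atTop atTop :=
  tendsto_log_atTop.comp tendsto_natCast_atTop_atTop

theorem small {a ε : ℝ} (ha : a < 1) (hε : 0 < ε) (D : ℝ) (k : ℕ) :
    ∀ᶠ N : ℕ in atTop, D * (exp (a * log N) * log N ^ k) ≤ ε * (N / log N) := by
  filter_upwards [tlog.eventually (ev_poly_exp (sub_pos.mpr ha) D (k + 1) hε),
    tlog.eventually_gt_atTop 0, eventually_gt_atTop 0] with N h1 h2 h3
  have e : exp (log (N : ℝ)) = N := exp_log (by exact_mod_cast h3)
  have e2 : exp (a * log N) = exp (-((1 - a) * log N)) * N := by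
    rw [← e, ← exp_add, log_exp]
    congr 1
    ring
  rw [← mul_div_assoc, le_div_iff₀ h2, e2]
  refine le_trans (le_of_eq ?_) (mul_le_mul_of_nonneg_right h1 (Nat.cast_nonneg N))
  ring

theorem V_tendsto {s : ℝ} (hs : 0 < s) :
    Tendsto (fun N : ℕ => log (N : ℝ) * V ⌊exp (log N / s)⌋₊) atTop
      (𝓝 (exp (-eulerMascheroniConstant) * s)) := by
  have h := (Pool.Agent.Lib.Mertens.mertens_third.comp
    (tendsto_exp_atTop.comp (tlog.atTop_div_const hs))).mul_const s
  refine h.congr fun N => ?_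
  simp only [Function.comp, log_exp, V, primesIoc]
  field_simp

theorem fund_up : ∃ C : ℝ, ∀ s, 75 ≤ s → Up s (exp (-eulerMascheroniConstant) * s + C / s ^ 2) := by
  obtain ⟨C, hC1, hC⟩ := selberg
  refine ⟨27 * C * exp (-eulerMascheroniConstant), fun s hs ε hε => ?_⟩
  have hs0 : 0 < s := by linarith
  have t := (V_tendsto hs0).mul_const (1 + C * (3 / s) ^ 3)
  have e : exp (-eulerMascheroniConstant) * s * (1 + C * (3 / s) ^ 3)
      = exp (-eulerMascheroniConstant) * s + 27 * C * exp (-eulerMascheroniConstant) / s ^ 2 := by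
    field_simp
    ring
  rw [e] at t
  filter_upwards [t.eventually_le_const (lt_add_of_pos_right _ (half_pos hε)),
    small (show (2 / 3 : ℝ) < 1 by norm_num) (half_pos hε) C 2, tlog.eventually_ge_atTop s]
    with N h1 h2 h3 M
  have hl : 0 < log (N : ℝ) := by linarith
  have h4 := hC (PP s N) M N (log N / s) (log N / 3) (by rw [le_div_iff₀ hs0]; linarith)
    (by rw [← mul_div_assoc, div_le_div_iff₀ hs0 (by norm_num)]; nlinarith)
    fun p hp => ⟨prime_of_mem hp, log_le_of_mem hp⟩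
  have e1 : log (N : ℝ) / s / (log N / 3) = 3 / s := by field_simp
  have e2 : exp (2 * (log (N : ℝ) / 3)) * (log N / s) ^ 2 ≤ exp (2 / 3 * log N) * log N ^ 2 := by
    rw [show 2 * (log (N : ℝ) / 3) = 2 / 3 * log N by ring]
    gcongr
    exact div_le_self hl.le (by linarith)
  have e3 : (N : ℝ) / (V ⌊exp (log N / s)⌋₊)⁻¹ * (1 + C * (3 / s) ^ 3)
      = log N * V ⌊exp (log N / s)⌋₊ * (1 + C * (3 / s) ^ 3) * (N / log N) := by
    field_simp
  rw [e1, PP, K_eq, e3] at h4
  have h5 := mul_le_mul_of_nonneg_right h1 (show 0 ≤ (N : ℝ) / log N by positivity)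
  have h6 := mul_le_mul_of_nonneg_left e2 (zero_le_one.trans hC1)
  rw [PP]
  linarith

theorem fund_lo : ∃ C : ℝ, ∀ s, 75 ≤ s → Lo s (exp (-eulerMascheroniConstant) * s - C / s ^ 2) := by
  obtain ⟨C, hC1, hC⟩ := selberg
  refine ⟨108 * C, fun s hs ε hε => ?_⟩
  have hs0 : 0 < s := by linarith
  have hC0 : 0 ≤ C := by linarith
  filter_upwards [(V_tendsto hs0).eventually_const_le (sub_lt_self _ (half_pos hε)),
    small (show (3 / 4 : ℝ) < 1 by norm_num) (half_pos hε) (3 * C) 2,
    tlog.eventually_ge_atTop (6 * s)] with N h1 h2 h3 M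
  have hl : 0 < log (N : ℝ) := by linarith
  set l := log (N : ℝ) / s with hld
  have l6 : 6 ≤ l := by rwa [le_div_iff₀ hs0]
  have ls : l * s = log N := by rw [hld]; field_simp
  set w := ⌊exp l⌋₊ with hw
  have b := buchstab M N (Nat.zero_le w)
  have e0 : primesIoc 0 0 = ∅ := by simp [primesIoc]
  rw [e0, cnt_empty] at b
  set E := exp (2 / 3 * log N) * log N ^ 2 with hE
  have E1 : 1 ≤ E := one_le_mul_of_one_le_of_one_le (one_le_exp (by positivity))
    (one_le_pow₀ (by nlinarith))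
  have hp : ∀ p ∈ primesIoc 0 w, cnt (primesIoc 0 (p - 1)) (M / p) (len p M N)
      ≤ N * (V (p - 1) / p) + 54 * C * N * l / log N ^ 3 * (log (p : ℝ) / p) + 3 * C * E := by
    intro p hp
    have pp := prime_of_mem hp
    have p2 : (2 : ℝ) ≤ p := by exact_mod_cast pp.two_le
    have lp : log (p : ℝ) ≤ l := log_le_of_mem hp
    have lp2 : 1 / 2 ≤ log (p : ℝ) :=
      le_trans (by linarith [log_two_gt_d9]) (log_le_log two_pos p2)
    have h4 := hC (primesIoc 0 (p - 1)) (M / p) (len p M N) (log p) (log N / 3) lp2 (by nlinarith)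
      fun q hq => ⟨prime_of_mem hq, log_le_log (by exact_mod_cast (prime_of_mem hq).pos)
        (by exact_mod_cast (mem_primesIoc.mp hq).2.1.trans (Nat.sub_le _ _))⟩
    rw [K_eq, div_inv_eq_mul] at h4
    have v0 := V_pos (p - 1)
    have v1 := V_le_one (p - 1)
    have v2 : V (p - 1) * log p ≤ 2 := by
      have h5 := V_mul_log_le p
      rw [V_prime pp] at h5
      have : 1 / (p : ℝ) ≤ 1 / 2 := by gcongr
      nlinarith [mul_nonneg v0.le (show 0 ≤ log (p : ℝ) by linarith)]
    set x := log (p : ℝ) / (log N / 3) with hx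
    have x0 : 0 ≤ x := by positivity
    have x1 : x ≤ 1 := by rw [hx, div_le_one (by positivity)]; nlinarith
    have x3 : x ^ 3 ≤ 1 := pow_le_one₀ x0 x1
    have x4 : V (p - 1) * x ^ 3 ≤ 54 * l * log p / log N ^ 3 := by
      have : V (p - 1) * x ^ 3 = 27 * (V (p - 1) * log p) * log p * log p / log N ^ 3 := by
        rw [hx]; field_simp; norm_num
      rw [this]
      gcongr
      linarith
    have e2 : exp (2 * (log (N : ℝ) / 3)) * log p ^ 2 ≤ E := by
      rw [show 2 * (log (N : ℝ) / 3) = 2 / 3 * log N by ring, hE]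
      exact mul_le_mul_of_nonneg_left (pow_le_pow_left₀ (by linarith) (by nlinarith) 2)
        (exp_pos _).le
    have n1 : (len p M N : ℝ) ≤ N / p + 1 := by linarith [(abs_le.mp (abs_len p M N)).2]
    have n2 := mul_le_mul_of_nonneg_right n1
      (show 0 ≤ V (p - 1) * (1 + C * x ^ 3) by positivity)
    have n3 := mul_le_mul_of_nonneg_left x4 (show 0 ≤ C * (N / p) by positivity)
    have n4 : V (p - 1) * (1 + C * x ^ 3) ≤ 1 * (C * E + C * E) := by
      gcongr
      · nlinarith
      · linarith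
    have n5 := mul_le_mul_of_nonneg_left e2 hC0
    have n6 : C * (N / p) * (54 * l * log p / log N ^ 3)
        = 54 * C * N * l / log N ^ 3 * (log (p : ℝ) / p) := by ring
    have n7 : N * (V (p - 1) / p) = N / p * V (p - 1) := by ring
    linarith
  have h4 := sum_le_sum hp
  rw [sum_add_distrib, sum_add_distrib, ← mul_sum, ← mul_sum, V_tele, sum_const, nsmul_eq_mul] at h4
  have h5 : ∑ p ∈ primesIoc 0 w, log (p : ℝ) / p ≤ 2 * l :=
    (sum_log_div_le (by linarith) fun p hp => ⟨prime_of_mem hp, log_le_of_mem hp⟩).trans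
      (by linarith)
  have h6 : ((primesIoc 0 w).card : ℝ) ≤ exp (1 / 12 * log N) := by
    have : (primesIoc 0 w).card ≤ w := (card_filter_le _ _).trans (by simp)
    exact (Nat.cast_le.mpr this).trans ((Nat.floor_le (exp_pos l).le).trans
      (exp_le_exp.mpr (by nlinarith)))
  have h7 := mul_le_mul_of_nonneg_left h5 (show 0 ≤ 54 * C * N * l / log N ^ 3 by positivity)
  have h8 := mul_le_mul_of_nonneg_right h6 (show 0 ≤ 3 * C * E by positivity)
  have e3 : 54 * C * N * l / log N ^ 3 * (2 * l) = 108 * C / s ^ 2 * (N / log N) := by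
    rw [hld]; field_simp; ring
  have e4 : exp (1 / 12 * log N) * (3 * C * E) = 3 * C * (exp (3 / 4 * log N) * log N ^ 2) := by
    rw [hE, show 3 / 4 * log (N : ℝ) = 1 / 12 * log N + 2 / 3 * log N by ring, exp_add]
    ring
  have h9 := mul_le_mul_of_nonneg_right h1 (show 0 ≤ (N : ℝ) / log N by positivity)
  have e5 : log N * V w * (N / log N) = N * V w := by field_simp
  change _ ≤ cnt (primesIoc 0 w) M N
  linarith

end Pool.Agent.P.MP_1b1bb8_nt.LS
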