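import Pool.Agent.P.MP_1b1bb8_nt.LSCert

/-!
Further consequences of the delay inequalities.
-/

open Real Filter Topology MeasureTheory Set

namespace Pool.Agent.P.MP_1b1bb8_nt.LS

theorem EE_le (n : ℕ) : EE (n + 1 : ℕ) ≤ harmonic (n + 1) := by
  set m : ℝ := ((n + 1 : ℕ) : ℝ) with hm
  have hm0 : 0 < m := by positivity
  have hd : ∀ t : ℝ, HasDerivAt (fun X : ℝ => ∑ j ∈ Finset.range (n + 1),
      (1 - (1 - X / m) ^ (j + 1)) / (j + 1))
      (m⁻¹ * ∑ j ∈ Finset.range (n + 1), (1 - t / m) ^ j) t := by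
    intro t
    have h1 : HasDerivAt (fun X : ℝ => 1 - X / m) (-m⁻¹) t := by
      simpa using ((hasDerivAt_id t).div_const m).const_sub 1
    refine (HasDerivAt.fun_sum (u := Finset.range (n + 1)) fun j _ =>
      ((h1.pow (j + 1)).const_sub 1).div_const ((j : ℝ) + 1)).congr_deriv ?_
    rw [Finset.mul_sum]
    refine Finset.sum_congr rfl fun j _ => ?_
    simp only [Nat.add_sub_cancel]
    push_cast
    field_simp
  have hc : Continuous fun t : ℝ => m⁻¹ * ∑ j ∈ Finset.range (n + 1), (1 - t / m) ^ j := by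
    fun_prop
  have h1 := intervalIntegral.integral_eq_sub_of_hasDerivAt (a := 0) (b := m)
    (fun t _ => hd t) (hc.intervalIntegrable _ _)
  have e : ∑ j ∈ Finset.range (n + 1), (1 - (1 - m / m) ^ (j + 1)) / (j + 1)
      - ∑ j ∈ Finset.range (n + 1), (1 - (1 - 0 / m) ^ (j + 1)) / (j + 1) = harmonic (n + 1) := by
    rw [div_self hm0.ne', harmonic]
    simp
  rw [← e, ← h1]
  refine intervalIntegral.integral_mono_on_of_le_Ioo hm0.le
    (continuous_kk.intervalIntegrable 0 m) (hc.intervalIntegrable _ _) fun t ht => ?_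
  have h3 := geom_sum_mul_neg (1 - t / m) (n + 1)
  have h4 : (1 - t / m) ^ (n + 1) ≤ exp (-t) := one_sub_div_pow_le_exp_neg ht.2.le
  refine le_of_mul_le_mul_left ?_ ht.1
  rw [mul_kk]
  calc _ ≤ (∑ j ∈ Finset.range (n + 1), (1 - t / m) ^ j) * (1 - (1 - t / m)) := by linarith
    _ = _ := by ring

theorem le_pp_one : exp (-eulerMascheroniConstant) ≤ pp 1 := by
  have h1 : Tendsto (fun X : ℝ => X * ww 0 X) atTop (𝓝 (pp 1)) := by
    refine (intervalIntegral_tendsto_integral_Ioi 0 (integrableOn_ww one_pos) tendsto_id).congr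
      fun X => ?_
    have h := intervalIntegral.integral_eq_sub_of_hasDerivAt (a := 0) (b := X)
      (fun x _ => hasDerivAt_mul_ww 0 x)
      (((continuous_ww _).sub (continuous_const.mul
        (continuous_id.mul (continuous_ww 0)))).intervalIntegrable _ _)
    simpa using h
  refine le_of_tendsto_of_tendsto' (tendsto_harmonic_sub_log.neg.rexp.comp
    (tendsto_add_atTop_nat 1)) (h1.comp (tendsto_natCast_atTop_atTop.comp
      (tendsto_add_atTop_nat 1))) fun n => ?_
  simp only [Function.comp, ww]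
  have h0 : (0 : ℝ) < (n + 1 : ℕ) := by positivity
  nth_rewrite 2 [← exp_log h0]
  rw [← exp_add]
  exact exp_le_exp.mpr (by linarith [EE_le n])

theorem pp_rec {s : ℝ} (hs : 0 < s) : s * pp s + pp (s + 1) ≤ 1 := by
  have h1 : 0 < s + 1 := by linarith
  have hd : ∀ x, HasDerivAt (fun x => -ww s x) (s * ww s x + kk x * ww s x) x := fun x =>
    (((hasDerivAt_id x).const_mul s).neg.sub (hasDerivAt_EE x)).exp.neg.congr_deriv
      (by simp only [ww, id, Pi.neg_apply, Pi.sub_apply]; ring)
  have hi : IntegrableOn (fun x => kk x * ww s x) (Ioi 0) := by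
    refine Integrable.mono' (integrableOn_ww hs)
      (continuous_kk.mul (continuous_ww s)).aestronglyMeasurable ?_
    filter_upwards [ae_restrict_mem measurableSet_Ioi] with x hx
    rw [norm_eq_abs, abs_of_nonneg (mul_nonneg (kk_bounds hx).1 (ww_pos s x).le)]
    exact mul_le_of_le_one_left (ww_pos s x).le (kk_bounds hx).2
  have ht : Tendsto (fun x => -ww s x) atTop (𝓝 (-0)) := by
    refine (squeeze_zero' (Eventually.of_forall fun x => (ww_pos s x).le) ?_
      (tendsto_exp_atBot.comp (tendsto_id.const_mul_atTop_of_neg (neg_lt_zero.mpr hs)))).neg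
    filter_upwards [eventually_ge_atTop 0] with x hx using ww_le hx
  have h := integral_Ioi_of_hasDerivAt_of_tendsto' (a := 0) (fun x _ => hd x)
    (((integrableOn_ww hs).const_mul s).add hi) ht
  rw [integral_add ((integrableOn_ww hs).const_mul s) hi, integral_const_mul] at h
  have h2 : pp (s + 1) ≤ ∫ x in Ioi 0, kk x * ww s x := by
    refine setIntegral_mono_on (integrableOn_ww h1) hi measurableSet_Ioi fun x hx => ?_
    have hx : 0 < x := hx
    have e : ww (s + 1) x = exp (-x) * ww s x := by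
      unfold ww
      rw [← exp_add]
      congr 1
      ring
    rw [e]
    refine mul_le_mul_of_nonneg_right (le_of_mul_le_mul_left ?_ hx) (ww_pos s x).le
    have h3 := mul_le_mul_of_nonneg_right (add_one_le_exp x) (exp_pos (-x)).le
    rw [← exp_add, add_neg_cancel, exp_zero] at h3
    rw [mul_kk]
    linarith
  have e0 : ww s 0 = 1 := by simp [ww, EE]
  rw [e0] at h
  unfold pp at h2 ⊢
  linarith

theorem kappa_ge : 5611 / 10000 ≤ exp (-eulerMascheroniConstant) := by
  have h1 := eulerMascheroniConstant_lt_eulerMascheroniSeq' 1024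
  have h2 : harmonic 1024 ≤ 75092 / 10000 := by decide +kernel
  have h3 : (harmonic 1024 : ℝ) ≤ 75092 / 10000 :=
    ((Rat.cast_le (K := ℝ)).mpr h2).trans_eq (by norm_num)
  have h4 : log (1024 : ℕ) = 10 * log 2 := by
    rw [show ((1024 : ℕ) : ℝ) = 2 ^ 10 by norm_num, log_pow]
    norm_num
  rw [eulerMascheroniSeq', if_neg (by norm_num), h4] at h1
  have h5 : exp (5778 / 10000 : ℝ) ≤ 10000 / 5611 := by
    refine (exp_bound' (n := 7) (by norm_num) (by norm_num) (by norm_num)).trans ?_
    norm_num [Finset.sum_range_succ, Nat.factorial]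
  calc (5611 / 10000 : ℝ) = (10000 / 5611)⁻¹ := by norm_num
    _ ≤ (exp (5778 / 10000))⁻¹ := inv_anti₀ (exp_pos _) h5
    _ ≤ _ := by
      rw [← exp_neg]
      exact exp_le_exp.mpr (by linarith [log_two_gt_d9])

variable {f P : ℝ → ℝ}

theorem Delay.upper (D : Delay (exp (-eulerMascheroniConstant)) f P) : P 3 ≤ 2 := by
  have p0 := pp_pos two_pos
  have h := cert (α := pp 2) (β := 1) D (exp_pos _).le p0.le (by linarith)
    (fun x hx => by nlinarith [pp_pos (show 0 < x by linarith)]) le_rfl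
  refine le_of_mul_le_mul_right ?_ (pp_pos one_pos)
  linarith [le_pp_one]

theorem Delay.lower' (D : Delay (exp (-eulerMascheroniConstant)) f P) {s : ℝ}
    (h2 : 2 ≤ s) (h3 : s ≤ 4) : 2 * log (s - 1) ≤ f s := by
  have p1 := kappa_ge.trans le_pp_one
  have p2 : pp 2 ≤ 3 / 8 := by
    have h4 : 1 / 4 ≤ pp (2 + 1) := le_of_eq_of_le (by norm_num) (le_pp (by norm_num))
    have h5 := pp_rec two_pos
    generalize pp (2 + 1) = y at h4 h5
    linarith
  have l0 : 0 ≤ log (s - 1) := log_nonneg (by linarith)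
  have l1 : log (s - 1) ≤ 11 / 10 :=
    (log_le_log (y := 3) (by linarith) (by linarith)).trans (by linarith [log_three_lt_d9])
  set b := log (s - 1) / pp 1 with hb
  have e : b * pp 1 = log (s - 1) := by rw [hb]; field_simp
  have b0 : 0 ≤ b := by positivity
  have b1 : b ≤ 1961 / 1000 := by nlinarith
  have h := cert (α := 1 - b * pp 2) (β := -b) D (exp_pos _).le (by nlinarith) (by linarith)
    (fun x hx => ?_) h2
  · rw [neg_mul b (pp 1), e] at h
    linarith [mul_le_mul_of_nonneg_left pp_one_le b0]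
  · have p3 : pp x ≤ 4 / 15 := by
      rcases le_total x 4 with h | h
      · have h4 : 1 / (x + 1 + 1) ≤ pp (x + 1) := le_pp (by linarith)
        have h5 := pp_rec (show 0 < x by linarith)
        rw [div_le_iff₀ (by linarith)] at h4
        by_contra h6
        nlinarith [mul_lt_mul_of_pos_left (not_le.mp h6) (show 0 < x * (x + 2) by positivity),
          mul_le_mul_of_nonneg_right h5 (show 0 ≤ x + 2 by linarith)]
      · exact (pp_le (by linarith)).trans ((one_div_le_one_div_of_le (by norm_num) h).trans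
          (by norm_num))
    nlinarith [mul_le_mul_of_nonneg_left p2 b0, mul_le_mul_of_nonneg_left p3 b0]

theorem Delay.gap {κ : ℝ} (D : Delay κ f P) {x : ℝ} (hx : 3 ≤ x) :
    (x - 1) * (P x - f x) ≤ ∫ y in (x - 1)..x, (P y - f y) := by
  have cg : ContinuousOn (fun y => P y - f y) (Ioi 1) := D.cP.continuousOn.sub D.cf
  set I : ℝ → ℝ := fun y => ∫ x in (2 : ℝ)..y, (P x - f x) with hI
  have dI : ∀ y, 1 < y → HasDerivAt I (P y - f y) y := fun y hy => hasDerivAt_int one_lt_two cg hy
  have eI : ∀ y, 3 ≤ y → I y - I (y - 1) = ∫ x in (y - 1)..y, (P x - f x) := fun y hy =>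
    intervalIntegral.integral_interval_sub_left
      (ContinuousOn.intervalIntegrable (cg.mono fun z hz => lt_of_lt_of_le (by simp; linarith) hz.1))
      (ContinuousOn.intervalIntegrable (cg.mono fun z hz => lt_of_lt_of_le (by simp; linarith) hz.1))
  obtain ⟨C, hC⟩ := D.asy
  obtain ⟨s₁, hC⟩ := eventually_atTop.mp hC
  have t := (tendsto_inv_atTop_zero (𝕜 := ℝ)).const_mul (2 * |C|)
  rw [mul_zero] at t
  rw [← sub_nonpos]
  refine ge_of_tendsto t ?_
  filter_upwards [eventually_ge_atTop x, eventually_ge_atTop (s₁ + 1)] with R h1 h2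
  have h := mono_of_dini (a := fun y => y - 1) (b := fun y => y - 1) (P := P) (f := f)
    (W := fun y => -(I y - I (y - 1))) (lP := fun x => f (x - 1) / (x - 1))
    (lf := fun x => P (x - 1) / (x - 1)) h1
    (fun y _ => (hasDerivAt_id y).sub_const 1) (fun y _ => (hasDerivAt_id y).sub_const 1)
    (fun y hy => ((dI y (by linarith [hy.1])).sub
      ((dI (y - 1) (by linarith [hy.1])).comp_sub_const y 1)).neg)
    D.cP.continuousOn (D.cf.mono fun y hy => mem_Ioi.mpr (by linarith [hy.1]))
    (fun y hy => by linarith [hy.1]) (fun y hy => by linarith [hy.1])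
    (fun y hy => D.dP y (hx.trans hy.1)) (fun y hy => D.df y (by linarith [hy.1]))
    (fun y hy => le_of_eq (by
      have : y - 1 ≠ 0 := by linarith [hy.1]
      field_simp
      ring))
  rw [eI x hx, eI R (hx.trans h1)] at h
  have h3 : 0 ≤ ∫ y in (R - 1)..R, (P y - f y) :=
    intervalIntegral.integral_nonneg (by linarith) fun y hy =>
      sub_nonneg.mpr (hC y (by linarith [hy.1])).2.1
  obtain ⟨c1, -, c3⟩ := hC R (by linarith)
  have hR : 0 < R := by linarith
  have h4 : (R - 1) * (P R - f R) ≤ R * (2 * (|C| / R ^ 2)) := by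
    have : C / R ^ 2 ≤ |C| / R ^ 2 := by gcongr; exact le_abs_self C
    refine (mul_le_mul_of_nonneg_left (by linarith) (by linarith)).trans
      (mul_le_mul_of_nonneg_right (by linarith) (by positivity))
  have e : R * (2 * (|C| / R ^ 2)) = 2 * |C| * R⁻¹ := by field_simp
  linarith

theorem exp_five_fourth : 349 / 100 ≤ exp (5 / 4 : ℝ) ∧ exp (5 / 4 : ℝ) ≤ 7 / 2 := by
  constructor
  · refine le_trans ?_ (sum_le_exp_of_nonneg (by norm_num) 8)
    norm_num [Finset.sum_range_succ, Nat.factorial]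
  · have h : exp (5 / 8 : ℝ) ≤ 187 / 100 := by
      refine (exp_bound' (n := 5) (by norm_num) (by norm_num) (by norm_num)).trans ?_
      norm_num [Finset.sum_range_succ, Nat.factorial]
    rw [show (5 / 4 : ℝ) = 5 / 8 + 5 / 8 by norm_num, exp_add]
    nlinarith [exp_pos (5 / 8 : ℝ)]

theorem Delay.gap_step {κ : ℝ} (D : Delay κ f P) {x K : ℝ} (hx : 3 ≤ x) (hK : 0 ≤ K)
    (h : ∀ y ∈ Icc (x - 1) x, P y - f y ≤ K * exp (-(5 / 4 * y))) :
    (x - 1) * (P x - f x) ≤ 2 * (K * exp (-(5 / 4 * x))) := by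
  have cg : ContinuousOn (fun y => P y - f y) (Ioi 1) := D.cP.continuousOn.sub D.cf
  have hc : Continuous fun y : ℝ => K * exp (-(5 / 4 * y)) := by fun_prop
  refine (D.gap hx).trans ((intervalIntegral.integral_mono_on (by linarith)
    (ContinuousOn.intervalIntegrable (cg.mono fun z hz => lt_of_lt_of_le (by simp; linarith) hz.1))
    (hc.intervalIntegrable _ _) h).trans ?_)
  rw [intervalIntegral.integral_eq_sub_of_hasDerivAt
    (f := fun y => -(4 / 5) * (K * exp (-(5 / 4 * y)))) (fun y _ =>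
      ((((hasDerivAt_id y).const_mul (5 / 4)).neg.exp.const_mul K).const_mul _).congr_deriv
        (by simp only [id, Pi.neg_apply]; ring)) (hc.intervalIntegrable _ _),
    show -(5 / 4 * (x - 1)) = -(5 / 4 * x) + 5 / 4 by ring, exp_add]
  nlinarith [mul_le_mul_of_nonneg_left exp_five_fourth.2
    (mul_nonneg hK (exp_pos (-(5 / 4 * x))).le)]

theorem Delay.gap_le (D : Delay (exp (-eulerMascheroniConstant)) f P) {x : ℝ} (hx : 2 ≤ x) :
    P x - f x ≤ 5 / 2 * exp (5 / 2) * exp (-(5 / 4 * x)) := by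
  have cg : ContinuousOn (fun y => (P y - f y) * exp (5 / 4 * y)) (Icc 2 x) :=
    (D.cP.continuousOn.sub (D.cf.mono fun y hy => mem_Ioi.mpr (by linarith [hy.1]))).mul
      (by fun_prop)
  obtain ⟨z, hz, hm⟩ := isCompact_Icc.exists_isMaxOn (nonempty_Icc.mpr hx) cg
  have inv : ∀ y : ℝ, exp (5 / 4 * y) * exp (-(5 / 4 * y)) = 1 := fun y => by
    rw [← exp_add, add_neg_cancel, exp_zero]
  have key : ∀ y ∈ Icc 2 x, P y - f y
      ≤ (P z - f z) * exp (5 / 4 * z) * exp (-(5 / 4 * y)) := fun y hy => by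
    have := mul_le_mul_of_nonneg_right (isMaxOn_iff.mp hm y hy) (exp_pos (-(5 / 4 * y))).le
    rwa [mul_assoc, inv, mul_one] at this
  refine (key x (right_mem_Icc.mpr hx)).trans (mul_le_mul_of_nonneg_right ?_ (exp_pos _).le)
  rcases le_or_gt z 3 with h | h
  · have h1 := D.lower hz.1 h
    have h2 := le_log_one_add_of_nonneg (show 0 ≤ z - 2 by linarith [hz.1])
    rw [show 1 + (z - 2) = z - 1 by ring, sub_add_cancel] at h2
    have z0 : 0 < z := by linarith [hz.1]
    have h3 : P z - f z ≤ (8 - 2 * z) / z := by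
      rw [D.const z h]
      have : (8 - 2 * z) / z = 2 - 2 * (2 * (z - 2) / z) := by field_simp; ring
      linarith [D.upper]
    have h4 : (8 - 2 * z) / z ≤ 5 / 2 * exp (5 / 2 - 5 / 4 * z) := by
      rw [div_le_iff₀ z0]
      have e1 := exp_neg_one_gt_d9
      rcases le_total z (5 / 2) with h5 | h5
      · have e2 : 3 / 5 ≤ exp (-(1 / 2) : ℝ) := by
          by_contra h6
          have : exp (-1 : ℝ) = exp (-(1 / 2)) * exp (-(1 / 2)) := by rw [← exp_add]; norm_num
          nlinarith [exp_pos (-(1 / 2) : ℝ)]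
        have h7 : 3 / 5 * (4 - 5 / 4 * z) ≤ exp (5 / 2 - 5 / 4 * z) := by
          rw [show 5 / 2 - 5 / 4 * z = -(1 / 2) + (3 - 5 / 4 * z) by ring, exp_add]
          exact mul_le_mul e2 (by linarith [add_one_le_exp (3 - 5 / 4 * z)]) (by linarith)
            (exp_pos _).le
        nlinarith [hz.1, mul_le_mul_of_nonneg_right h7 z0.le]
      · have h7 : 367 / 1000 * (9 / 2 - 5 / 4 * z) ≤ exp (5 / 2 - 5 / 4 * z) := by
          rw [show 5 / 2 - 5 / 4 * z = -1 + (7 / 2 - 5 / 4 * z) by ring, exp_add]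
          exact mul_le_mul (by linarith) (by linarith [add_one_le_exp (7 / 2 - 5 / 4 * z)])
            (by linarith) (exp_pos _).le
        nlinarith [mul_le_mul_of_nonneg_right h7 z0.le]
    have h5 := mul_le_mul_of_nonneg_right (h3.trans h4) (exp_pos (5 / 4 * z)).le
    rwa [mul_assoc, ← exp_add, sub_add_cancel] at h5
  · by_contra h1
    have h2 : 0 < (P z - f z) * exp (5 / 4 * z) := lt_trans (by positivity) (not_le.mp h1)
    have h3 := D.gap_step h.le h2.le fun y hy => key y ⟨by linarith [hy.1], hy.2.trans hz.2⟩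
    rw [mul_assoc, inv, mul_one] at h3
    nlinarith [(mul_pos_iff_of_pos_right (exp_pos _)).mp h2]

theorem Delay.gap_five (D : Delay (exp (-eulerMascheroniConstant)) f P) :
    P 5 - f 5 ≤ 197 / 10000 ∧ P 6 - f 6 ≤ 46 / 10000 := by
  have h1 : ∀ y, 4 ≤ y → P y - f y ≤ 5 / 3 * exp (5 / 2) * exp (-(5 / 4 * y)) := fun y hy => by
    have h := D.gap_step (x := y) (by linarith) (by positivity)
      fun z hz => D.gap_le (by linarith [hz.1])
    by_contra h2
    have : 0 < exp (5 / 2 : ℝ) * exp (-(5 / 4 * y)) := by positivity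
    nlinarith
  have h2 := D.gap_step (x := 5) (by norm_num) (by positivity) fun z hz => h1 z (by linarith [hz.1])
  have h3 := D.gap_step (x := 6) (by norm_num) (by positivity) fun z hz => h1 z (by linarith [hz.1])
  have e := exp_five_fourth.1
  have e1 : exp (5 / 2 : ℝ) * exp (-(5 / 4 * 5)) * exp (5 / 4) ^ 3 = 1 := by
    rw [← exp_nat_mul, ← exp_add, ← exp_add]; norm_num
  have e2 : exp (5 / 2 : ℝ) * exp (-(5 / 4 * 6)) * exp (5 / 4) ^ 4 = 1 := by
    rw [← exp_nat_mul, ← exp_add, ← exp_add]; norm_num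
  have e3 := mul_le_mul_of_nonneg_left (pow_le_pow_left₀ (by norm_num) e 3)
    (show 0 ≤ exp (5 / 2 : ℝ) * exp (-(5 / 4 * 5)) by positivity)
  have e4 := mul_le_mul_of_nonneg_left (pow_le_pow_left₀ (by norm_num) e 4)
    (show 0 ≤ exp (5 / 2 : ℝ) * exp (-(5 / 4 * 6)) by positivity)
  constructor <;> linarith

end Pool.Agent.P.MP_1b1bb8_nt.LS
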