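import Pool.Agent.P.MP_1b1bb8_nt.LSTop

/-!
Two disjoint sets of few primes cannot both cover a long interval.
-/

open Finset Real Filter Topology

namespace Pool.Agent.P.MP_1b1bb8_nt.LS

open Pool.Agent.P.MP_3bc45c_nt

theorem one_set {θ ε : ℝ} (hθ : θ < 21 / 26) (hε : 0 < ε) : ∀ᶠ H : ℕ in atTop, ∀ S : Finset ℕ,
    (∀ p ∈ S, p.Prime) → (S.card : ℝ) ≤ exp (θ * log H) → ∀ N : ℕ,
      (∀ m ∈ Ioc N (N + H), ∃ p ∈ S, p ∣ m) → ∃ M : ℕ → ℕ, (FL 6 - ε) * (H / log H) ≤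
        ∑ p ∈ primesIoc ⌊exp (log H / 6)⌋₊ ⌊exp (log H / (26 / 21))⌋₊ ∩ S,
          cnt (PP 6 H) (M p) (len p N H) := by
  filter_upwards [lo_FL 6 _ (half_pos hε),
    small (a := θ + 5 / 26) (by linarith) (half_pos hε) 2 0, eventually_gt_atTop 0]
    with H h1 h2 h3 S hS hc N cov
  have H0 : (0 : ℝ) < H := by exact_mod_cast h3
  set P := PP 6 H with hP
  have hPp : ∀ p ∈ P, p.Prime := fun p => prime_of_mem
  have hT : ∀ p ∈ P ∩ S, p.Prime := fun p hp => hPp p (mem_inter.mp hp).1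
  have hA : ∀ p ∈ P \ S, p.Prime := fun p hp => hPp p (mem_sdiff.mp hp).1
  obtain ⟨M₀, hM₀⟩ := avg hT hA (disjoint_left.mpr fun p hp hp' =>
    (mem_sdiff.mp hp').2 (mem_inter.mp hp).2) N H
  choose M hM using fun p => avg_up hT hA (N / p) (len p N H)
  rw [union_comm, sdiff_union_inter] at hM₀ hM
  have a2 := cnt_le_sum (T := P ∩ S) (R := S \ P) hT
    (fun p hp => ⟨hS p (mem_sdiff.mp hp).1, fun h => (mem_sdiff.mp hp).2 (mem_inter.mp h).1⟩)
    (M := N) (N := H) fun m hm => by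
      obtain ⟨p, hp, h⟩ := cov m hm
      by_cases h' : p ∈ P
      · exact Or.inl ⟨p, mem_inter.mpr ⟨h', hp⟩, h⟩
      · exact Or.inr ⟨p, mem_sdiff.mpr ⟨hp, h'⟩, h⟩
  have a3 := mul_le_mul_of_nonneg_right a2 (prod_pos' hA).le
  rw [sum_mul] at a3
  have a4 := a3.trans (sum_le_sum fun p _ => hM p)
  rw [← sum_filter_add_sum_filter_not _ fun p : ℕ => p ≤ ⌊exp (log H / (26 / 21))⌋₊] at a4
  have a5 : ∑ p ∈ (S \ P).filter fun p : ℕ => p ≤ ⌊exp (log H / (26 / 21))⌋₊,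
      cnt P (M p) (len p N H) ≤ ∑ p ∈ primesIoc ⌊exp (log H / 6)⌋₊
        ⌊exp (log H / (26 / 21))⌋₊ ∩ S, cnt P (M p) (len p N H) := by
    refine sum_le_sum_of_subset_of_nonneg (fun p hp => ?_) fun p _ _ => cnt_nonneg _ _ _
    obtain ⟨b1, b2⟩ := mem_filter.mp hp
    obtain ⟨b3, b4⟩ := mem_sdiff.mp b1
    exact mem_inter.mpr ⟨mem_primesIoc.mpr ⟨not_le.mp fun h =>
      b4 (mem_primesIoc.mpr ⟨(hS p b3).pos, h, hS p b3⟩), b2, hS p b3⟩, b3⟩
  have a6 := sum_le_card_nsmul ((S \ P).filter fun p : ℕ => ¬ p ≤ ⌊exp (log H / (26 / 21))⌋₊)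
    (fun p => cnt P (M p) (len p N H)) (2 * exp (5 / 26 * log H)) fun p hp => by
      have b1 := (Nat.floor_lt (exp_pos _).le).mp (not_le.mp (mem_filter.mp hp).2)
      have b2 : (H : ℝ) / p ≤ exp (5 / 26 * log H) := by
        refine (div_le_div_of_nonneg_left H0.le (exp_pos _) b1.le).trans_eq ?_
        nth_rewrite 1 [← exp_log H0]
        rw [← exp_sub]
        congr 1
        ring
      linarith [cnt_le P (M p) (len p N H), (abs_le.mp (abs_len p N H)).2,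
        one_le_exp (show 0 ≤ 5 / 26 * log (H : ℝ) from
          mul_nonneg (by norm_num) (log_natCast_nonneg H))]
  have a7 := mul_le_mul_of_nonneg_right ((Nat.cast_le.mpr (card_le_card ((filter_subset
    (fun p : ℕ => ¬ p ≤ ⌊exp (log H / (26 / 21))⌋₊) (S \ P)).trans sdiff_subset))).trans hc)
    (show 0 ≤ 2 * exp (5 / 26 * log H) by positivity)
  rw [nsmul_eq_mul] at a6
  rw [add_mul, exp_add] at h2
  exact ⟨M, by linarith [h1 M₀]⟩

theorem pair_core {θ : ℝ} (hθ : θ < 21 / 26) : ∀ᶠ H : ℕ in atTop, ∀ S S' : Finset ℕ,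
    (∀ p ∈ S, p.Prime) → (∀ p ∈ S', p.Prime) → Disjoint S S' → (S.card : ℝ) ≤ exp (θ * log H) →
    (S'.card : ℝ) ≤ exp (θ * log H) → ∀ N N' : ℕ, (∀ m ∈ Ioc N (N + H), ∃ p ∈ S, p ∣ m) →
      (∀ m ∈ Ioc N' (N' + H), ∃ p ∈ S', p ∣ m) → False := by
  filter_upwards [one_set hθ (show (0 : ℝ) < 1 / 1000 by norm_num),
    tp_BB (s := 5) (by norm_num) (by norm_num) (1 / 1000) (by norm_num),
    tlog.eventually_gt_atTop 0, eventually_gt_atTop 0]
    with H h1 h2 h3 h4 S S' hS hS' hd hc hc' N N' cov cov'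
  obtain ⟨M, hM⟩ := h1 S hS hc N cov
  obtain ⟨M', hM'⟩ := h1 S' hS' hc' N' cov'
  have h5 := h2 (fun p => if p ∈ S then M p else M' p) fun p => if p ∈ S then N else N'
  rw [show (6 : ℝ) / (6 - 5) = 6 by norm_num] at h5
  set D := primesIoc ⌊exp (log H / 6)⌋₊ ⌊exp (log H / (26 / 21))⌋₊
  have h6 := (sum_le_sum_of_subset_of_nonneg (union_subset (inter_subset_left (s₂ := S))
    (inter_subset_left (s₂ := S'))) fun p _ _ => cnt_nonneg _ _ _).trans h5
  rw [sum_union (hd.mono inter_subset_right inter_subset_right),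
    sum_congr rfl fun p hp => by rw [if_pos (mem_inter.mp hp).2, if_pos (mem_inter.mp hp).2],
    sum_congr (s₁ := D ∩ S') rfl fun p hp => by
      rw [if_neg (disjoint_right.mp hd (mem_inter.mp hp).2),
        if_neg (disjoint_right.mp hd (mem_inter.mp hp).2)]] at h6
  have h7 : 0 < (H : ℝ) / log H := by positivity
  nlinarith [mul_le_mul_of_nonneg_right top_lt h7.le]

end Pool.Agent.P.MP_1b1bb8_nt.LS
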