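import Pool.Agent.P.MP_1b1bb8_nt.LSTools

/-!
Two disjoint prime sets of logarithmic weight at most `L` cannot both cover `⌊L⌋` consecutive
integers if one of them is sparse in the medium range.
-/

open Finset Real Filter Topology

namespace Pool.Agent.P.MP_1b1bb8_nt.LS

open Pool.Agent.P.MP_3bc45c_nt

theorem len_le (p M N : ℕ) : (len p M N : ℝ) ≤ N / p + 1 := by
  linarith [(abs_le.mp (abs_len p M N)).2]

theorem len_le_of_lt {p N j : ℕ} (M : ℕ) (h : (N : ℝ) < j * p) : len p M N ≤ j := by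
  have hp : (0 : ℝ) < p := by
    refine lt_of_le_of_ne (Nat.cast_nonneg p) fun e => ?_
    rw [← e] at h
    linarith [Nat.cast_nonneg (α := ℝ) N]
  have h1 := len_le p M N
  rw [← div_lt_iff₀ hp] at h
  exact Nat.lt_succ_iff.mp (by exact_mod_cast (show (len p M N : ℝ) < j + 1 by linarith))

theorem missing_mass {s η : ℝ} (hs : 1 ≤ s) (hη : 0 < η) : ∀ᶠ H : ℕ in atTop,
    ∀ S A : Finset ℕ, (∀ p ∈ S, p.Prime) → (∀ p ∈ S, p ∈ PP s H → p ∈ A) →
      (S.card : ℝ) ≤ η / 4 * H → ∀ N, (∀ m ∈ Ioc N (N + H), ∃ p ∈ S, p ∣ m) →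
      ∏ p ∈ A, (1 - 1 / (p : ℝ)) ≤ s * exp (-1) * exp η := by
  obtain ⟨C, hC0, hC⟩ := Pool.Agent.Lib.Mertens.sum_inv_prime_Ioc
  have s0 : 0 < s := by linarith
  have t := tlog.atTop_div_const s0
  filter_upwards [t.eventually_ge_atTop 1, t.eventually_ge_atTop (C / (η / 2)),
    eventually_gt_atTop 0] with H h1 h2 h3 S A hS hA hc N hcov
  have H0 : (0 : ℝ) < H := by exact_mod_cast h3
  have l0 : 0 < log (H : ℝ) := by
    rw [le_div_iff₀ s0] at h1
    linarith
  set B := primesIoc ⌊exp (log H / s)⌋₊ H with hB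
  have a1 : ∑ p ∈ B, 1 / (p : ℝ) ≤ log s + η / 2 := by
    have h := (abs_le.mp (hC H (exp (log H / s)) (by linarith [add_one_le_exp (log (H : ℝ) / s)])
      (by rw [← le_log_iff_exp_le H0]; exact div_le_self l0.le hs))).2
    rw [log_exp, Nat.floor_natCast, show log (H : ℝ) / (log H / s) = s by field_simp] at h
    rw [div_le_iff₀' (half_pos hη), ← div_le_iff₀ (by linarith)] at h2
    change ∑ p ∈ B, _ - _ ≤ _ at h
    linarith
  have a2 := cnt_le_sum (T := ∅) (R := S) (by simp) (fun p hp => ⟨hS p hp, notMem_empty p⟩)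
    fun m hm => Or.inr (hcov m hm)
  simp only [cnt_empty] at a2
  have a3 : ∀ p ∈ S, (len p N H : ℝ)
      ≤ H * (if p ∈ A then 1 / (p : ℝ) else 0) + H * (if p ∈ B then 1 / (p : ℝ) else 0) + 2 := by
    intro p hp
    have b1 := len_le p N H
    have b2 : 0 ≤ H * (1 / (p : ℝ)) := by positivity
    rw [div_eq_mul_one_div] at b1
    split_ifs with c1 c2 c2
    · linarith
    · linarith
    · linarith
    · have b3 : H < p := by
        by_contra b4
        exact c2 (mem_primesIoc.mpr ⟨not_le.mp fun b5 => c1 (hA p hp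
          (mem_primesIoc.mpr ⟨(hS p hp).pos, b5, hS p hp⟩)), not_lt.mp b4, hS p hp⟩)
      have b4 : (len p N H : ℝ) ≤ (1 : ℕ) :=
        Nat.cast_le.mpr (len_le_of_lt N (by exact_mod_cast (by omega : H < 1 * p)))
      push_cast at b4
      linarith
  have a4 : ∀ D : Finset ℕ, ∑ p ∈ S, (if p ∈ D then 1 / (p : ℝ) else 0) ≤ ∑ p ∈ D, 1 / (p : ℝ) :=
    fun D => by
      rw [sum_ite_mem]
      exact sum_le_sum_of_subset_of_nonneg inter_subset_right fun p _ _ => by positivity
  have a5 := a2.trans (sum_le_sum a3)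
  rw [sum_add_distrib, sum_add_distrib, ← mul_sum, ← mul_sum, sum_const, nsmul_eq_mul] at a5
  have a6 : 1 - log s - η ≤ ∑ p ∈ A, 1 / (p : ℝ) := by
    refine le_of_mul_le_mul_left ?_ H0
    linarith [mul_le_mul_of_nonneg_left (a4 A) H0.le,
      mul_le_mul_of_nonneg_left ((a4 B).trans a1) H0.le]
  calc ∏ p ∈ A, (1 - 1 / (p : ℝ)) ≤ ∏ p ∈ A, exp (-(1 / (p : ℝ))) := by
        refine prod_le_prod (fun p _ => ?_) fun p _ => by linarith [add_one_le_exp (-(1 / (p : ℝ)))]
        rcases Nat.eq_zero_or_pos p with rfl | h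
        · simp
        · rw [sub_nonneg, div_le_one (by exact_mod_cast h)]
          exact_mod_cast h
    _ ≤ exp (log s + -1 + η) := by
        rw [← exp_sum, sum_neg_distrib]
        exact exp_le_exp.mpr (by linarith)
    _ = _ := by rw [exp_add, exp_add, exp_log s0]

theorem sparse_core : ∃ c : ℝ, 0 < c ∧ ∀ᶠ L : ℝ in atTop, ∀ S S' : Finset ℕ,
    (∀ p ∈ S, p.Prime) → (∀ p ∈ S', p.Prime) → Disjoint S S' →
    ∑ p ∈ S, log (p : ℝ) ≤ L → ∑ p ∈ S', log (p : ℝ) ≤ L →
    ∑ p ∈ S'.filter (fun p : ℕ => L ^ (19 / 50 : ℝ) < p ∧ (p : ℝ) ≤ L / 2),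
      1 / ((p : ℝ) * log (L / p)) ≤ c / log L →
    ∀ N N' : ℕ, (∀ m ∈ Ioc N (N + ⌊L⌋₊), ∃ p ∈ S, p ∣ m) →
      (∀ m ∈ Ioc N' (N' + ⌊L⌋₊), ∃ p ∈ S', p ∣ m) → False := by
  obtain ⟨C, hC0, hC⟩ := short
  refine ⟨1 / 10000 / C, by positivity, ?_⟩
  have tf := tendsto_nat_floor_atTop (α := ℝ)
  have b0 : 969 / 1000 ≤ 2 * log (1000 / 381 - 1) := by
    have : (969 / 2000 : ℝ) ≤ log (1000 / 381 - 1) := by
      rw [le_log_iff_exp_le (by norm_num)]
      refine (exp_bound' (n := 5) (by norm_num) (by norm_num) (by norm_num)).trans ?_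
      norm_num [sum_range_succ, Nat.factorial]
    linarith
  have p1 := ((pi_scaled one_pos).sub (pi_scaled one_half_pos)).eventually_le_const
    (show (1 : ℝ) - 1 / 2 < 3 / 5 by norm_num)
  filter_upwards [tf.eventually (linear_lower (s := 1000 / 381) (by norm_num) (by norm_num) (1 / 5000)
      (by norm_num)),
    tf.eventually (missing_mass (s := 1000 / 381) (η := 1 / 1000) (by norm_num) (by norm_num)),
    card_small (ε := 1 / 8000) (by norm_num), p1, eventually_ge_atTop 5000,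
    tendsto_log_atTop.eventually_ge_atTop 5001]
    with L h1 h2 h3 p1 hL hl S S' hS hS' hd w w' hm N N' cov cov'
  set H := ⌊L⌋₊ with hH
  have L0 : 0 < L := by linarith
  have H1 : (H : ℝ) ≤ L := Nat.floor_le L0.le
  have H2 : L - 1 ≤ H := (Nat.sub_one_lt_floor L).le
  have H0 : (0 : ℝ) < H := by linarith
  have l1 : log L - 1 ≤ log (L / 2) := by
    rw [log_div L0.ne' two_ne_zero]
    linarith [log_two_lt_d9]
  have l2 : log (L / 2) ≤ log H := log_le_log (by positivity) (by linarith)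
  have l3 : log (H : ℝ) ≤ log L := log_le_log H0 H1
  set W := L / log L with hW
  have W0 : 0 < W := div_pos L0 (by linarith)
  have W1 : W * log L = L := by rw [hW, div_mul_cancel₀ _ (by linarith)]
  have W2 : 4999 / 5000 * W ≤ H / log H := by
    rw [hW, ← mul_div_assoc]
    exact div_le_div₀ H0.le (by linarith) (by linarith) l3
  set P := PP (1000 / 381) H with hP
  have hPp : ∀ p ∈ P, p.Prime := fun p => prime_of_mem
  have hT : ∀ p ∈ P ∩ S', p.Prime := fun p hp => hPp p (mem_inter.mp hp).1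
  have hA : ∀ p ∈ P \ S', p.Prime := fun p hp => hPp p (mem_sdiff.mp hp).1
  set Q := ∏ p ∈ P \ S', (1 - 1 / (p : ℝ)) with hQ
  have Q0 : 0 < Q := prod_pos' hA
  have Q1 : Q ≤ 967 / 1000 := by
    refine (h2 S _ hS (fun p hp h => mem_sdiff.mpr ⟨h, disjoint_left.mp hd hp⟩)
      ((h3 S w).trans (by linarith)) N cov).trans ?_
    have e1 := exp_bound_div_one_sub_of_interval (x := 1 / 1000) (by norm_num) (by norm_num)
    calc _ ≤ 1000 / 381 * 0.3678794412 * (1 / (1 - 1 / 1000) : ℝ) := by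
          gcongr
          exact exp_neg_one_lt_d9.le
      _ ≤ _ := by norm_num
  obtain ⟨M, hM⟩ := avg hT hA (disjoint_left.mpr fun p hp hp' =>
    (mem_sdiff.mp hp').2 (mem_inter.mp hp).2) N' H
  rw [union_comm, sdiff_union_inter] at hM
  have a1 : 9686 / 10000 * W ≤ cnt (P ∩ S') N' H * Q := by
    refine le_trans ?_ ((h1 M).trans hM)
    nlinarith [div_log_nonneg H]
  have a2 := cnt_le_sum (T := P ∩ S') (R := S' \ P) hT
    (fun p hp => ⟨hS' p (mem_sdiff.mp hp).1, fun h => (mem_sdiff.mp hp).2 (mem_inter.mp h).1⟩)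
    (M := N') (N := H) fun m hm => by
      obtain ⟨p, hp, h⟩ := cov' m hm
      by_cases h' : p ∈ P
      · exact Or.inl ⟨p, mem_inter.mpr ⟨h', hp⟩, h⟩
      · exact Or.inr ⟨p, mem_sdiff.mpr ⟨hp, h'⟩, h⟩
  rw [← sum_filter_add_sum_filter_not _ fun p : ℕ => L / 2 < p] at a2
  have a3 : (∑ p ∈ (S' \ P).filter (fun p : ℕ => ¬ L / 2 < p),
      cnt (P ∩ S') (N' / p) (len p N' H)) * Q ≤ 1 / 5000 * W := by
    rw [sum_mul]
    have hsub : ((S' \ P).filter fun p : ℕ => ¬ L / 2 < p)
        ⊆ S'.filter fun p : ℕ => L ^ (19 / 50 : ℝ) < p ∧ (p : ℝ) ≤ L / 2 := by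
      intro p hp
      obtain ⟨b1, b2⟩ := mem_filter.mp hp
      obtain ⟨b3, b4⟩ := mem_sdiff.mp b1
      refine mem_filter.mpr ⟨b3, ?_, not_lt.mp b2⟩
      have b5 := lt_log_of_mem (l := log H / (1000 / 381)) (mem_primesIoc.mpr ⟨not_le.mp fun h =>
        b4 (mem_primesIoc.mpr ⟨(hS' p b3).pos, h, hS' p b3⟩), le_rfl, hS' p b3⟩)
      rw [rpow_def_of_pos L0, ← lt_log_iff_exp_lt (by exact_mod_cast (hS' p b3).pos)]
      linarith
    have hb : ∀ p ∈ S'.filter fun p : ℕ => L ^ (19 / 50 : ℝ) < p ∧ (p : ℝ) ≤ L / 2,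
        cnt (P ∩ S') (N' / p) (len p N' H) * Q ≤ 2 * C * L * (1 / (p * log (L / p))) := by
      intro p hp
      obtain ⟨b1, -, b2⟩ := mem_filter.mp hp
      have p0 : (0 : ℝ) < p := by exact_mod_cast (hS' p b1).pos
      have p1 : (1 : ℝ) ≤ p := by exact_mod_cast (hS' p b1).pos
      have k1 : 3 / 2 ≤ (H : ℝ) / p := by rw [le_div_iff₀ p0]; linarith
      have k2 : log (H / p) ≤ log H := log_le_log (by positivity) (div_le_self H0.le p1)
      have h := hC (P ∩ S') (log H / (1000 / 381)) (H / p) (N' / p) (len p N' H) k1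
        (by linarith [len_le p N' H]) (by linarith)
      change _ * ∏ p ∈ P \ (P ∩ S'), _ ≤ _ at h
      rw [sdiff_inter_self_left] at h
      have k3 : 0 < log (L / p) := log_pos (by rw [lt_div_iff₀ p0]; linarith)
      have k4 : log (L / p) / 2 ≤ log (H / p) := by
        have : L / p ≤ 4 / 3 * (H / p) := by
          rw [← mul_div_assoc]
          gcongr
          linarith
        have := log_le_log (by positivity) (show L / p ≤ (H / p) ^ 2 by nlinarith)
        rw [log_pow] at this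
        push_cast at this
        linarith
      calc _ ≤ C * (H / p / log (H / p)) := h
        _ ≤ C * (L / p / (log (L / p) / 2)) := by gcongr
        _ = _ := by field_simp
    refine (sum_le_sum_of_subset_of_nonneg hsub fun p _ _ =>
      mul_nonneg (cnt_nonneg _ _ _) Q0.le).trans ((sum_le_sum hb).trans ?_)
    rw [← mul_sum]
    refine (mul_le_mul_of_nonneg_left hm (by positivity)).trans (le_of_eq ?_)
    rw [hW]
    field_simp
    norm_num
  set R := (S' \ P).filter fun p : ℕ => L / 2 < p with hR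
  have a4 : (R.card : ℝ) ≤ 5001 / 5000 * W := by
    have b1 := card_mul_log_le (half_pos L0) w'
    have b2 : (R.card : ℝ) ≤ (S'.filter fun p : ℕ => L / 2 < p).card :=
      Nat.cast_le.mpr (card_le_card (filter_subset_filter _ sdiff_subset))
    have b3 : 5000 / 5001 * log L ≤ log (L / 2) := by linarith
    refine le_of_mul_le_mul_right ?_ (show 0 < log L by linarith)
    nlinarith [mul_le_mul b2 b3 (by linarith) (Nat.cast_nonneg _)]
  have a5 : ∀ p ∈ R, len p N' H ≤ 2 := fun p hp => len_le_of_lt N' (by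
    have := (mem_filter.mp hp).2
    push_cast
    linarith)
  have a6 := mul_le_mul_of_nonneg_right a2 Q0.le
  by_cases h2 : 2 ∈ S'
  · have h2' : 2 ∈ P ∩ S' := mem_inter.mpr ⟨subset_of_log_le (T := {2}) (fun p hp => by
      rw [mem_singleton.mp hp]
      exact ⟨Nat.prime_two, by push_cast; linarith [log_two_lt_d9]⟩) (mem_singleton_self 2), h2⟩
    have b1 := sum_le_card_nsmul R _ 1 fun p hp => cnt_two h2' (N' / p) (a5 p hp)
    rw [nsmul_eq_mul, mul_one] at b1
    nlinarith [mul_le_mul (b1.trans a4) Q1 Q0.le (by positivity)]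
  · have h2' : {2} ⊆ P \ S' := singleton_subset_iff.mpr (mem_sdiff.mpr
      ⟨subset_of_log_le (T := {2}) (fun p hp => by
        rw [mem_singleton.mp hp]
        exact ⟨Nat.prime_two, by push_cast; linarith [log_two_lt_d9]⟩) (mem_singleton_self 2), h2⟩)
    have Q2 : Q ≤ 1 / 2 := (prod_anti hA h2').trans (by norm_num)
    set D := primesIoc ⌊1 / 2 * L⌋₊ ⌊L⌋₊ with hD
    have b1 : ∀ p ∈ R, cnt (P ∩ S') (N' / p) (len p N' H) ≤ 1 + if p ∈ D then 1 else 0 := by
      intro p hp
      refine (cnt_le _ _ _).trans ?_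
      split_ifs with h
      · exact_mod_cast a5 p hp
      · obtain ⟨c1, c2⟩ := mem_filter.mp hp
        have c3 : H < p := not_le.mp fun c4 => h (mem_primesIoc.mpr
          ⟨(Nat.floor_lt (by positivity)).mpr (by linarith), c4, hS' p (mem_sdiff.mp c1).1⟩)
        exact_mod_cast len_le_of_lt N' (j := 1) (by exact_mod_cast (by omega : H < 1 * p))
    have b2 := sum_le_sum b1
    rw [sum_add_distrib, sum_ite_mem, sum_const, sum_const, nsmul_eq_mul, nsmul_eq_mul, mul_one,
      mul_one] at b2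
    have b3 : ((R ∩ D).card : ℝ) ≤ 3 / 5 * W := by
      refine (Nat.cast_le.mpr (card_le_card inter_subset_right)).trans ?_
      rw [hD, card_primesIoc (Nat.floor_mono (by linarith)), hW, ← mul_div_assoc,
        le_div_iff₀ (by linarith)]
      rwa [one_mul, ← sub_div, ← sub_mul, div_le_iff₀ L0] at p1
    nlinarith [mul_le_mul (b2.trans (add_le_add a4 b3)) Q2 Q0.le (by positivity)]

end Pool.Agent.P.MP_1b1bb8_nt.LS
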