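import Pool.Agent.P.MP_1b1bb8_nt.LSFund
import Pool.Agent.P.MP_1b1bb8_nt.LSCert

/-!
The lower bound of the linear sieve for intervals.
-/

open Finset Real Filter Topology

namespace Pool.Agent.P.MP_1b1bb8_nt.LS

open Pool.Agent.P.MP_3bc45c_nt

theorem lt_log_of_mem {b p : ℕ} {l : ℝ} (h : p ∈ primesIoc ⌊exp l⌋₊ b) : l < log (p : ℝ) := by
  have h1 := mem_primesIoc.mp h
  rw [lt_log_iff_exp_lt (by exact_mod_cast h1.2.2.pos), ← Nat.floor_lt (exp_pos _).le]
  exact h1.1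

theorem geom {σ τ η : ℝ} (hσ : 1 < σ) (hτ : σ < τ) (hη : 0 < η) (hη1 : η ≤ 1 / 2) (N₀ : ℕ) :
    ∀ᶠ N : ℕ in atTop, 1 ≤ η * log N ∧ ⌊exp (log N / τ)⌋₊ ≤ ⌊exp (log N / σ)⌋₊ ∧
      |∑ p ∈ primesIoc ⌊exp (log N / τ)⌋₊ ⌊exp (log N / σ)⌋₊, 1 / (p : ℝ) - log (τ / σ)| ≤ η ∧
      ∀ M, ∀ p ∈ primesIoc ⌊exp (log N / τ)⌋₊ ⌊exp (log N / σ)⌋₊, N₀ ≤ len p M N ∧
        (1 - η) * (N / p) ≤ len p M N ∧ len p M N ≤ (1 + η) * (N / p) ∧
        |log (len p M N) - (log N - log p)| ≤ 1 ∧ 1 ≤ (τ - σ) * log p := by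
  obtain ⟨C, hC0, hC⟩ := Pool.Agent.Lib.Mertens.sum_inv_prime_Ioc
  have hσ0 : 0 < σ := by linarith
  have hτ0 : 0 < τ := by linarith
  have t1 := tlog.atTop_div_const hτ0
  have t2 := tendsto_exp_atTop.comp
    (tlog.const_mul_atTop (show 0 < 1 - 1 / σ by rw [sub_pos, div_lt_one hσ0]; exact hσ))
  filter_upwards [(tlog.const_mul_atTop hη).eventually_ge_atTop 1, t1.eventually_ge_atTop 1,
    t1.eventually_ge_atTop (C / η), (t1.const_mul_atTop (sub_pos.mpr hτ)).eventually_ge_atTop 1,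
    t2.eventually_ge_atTop (1 / η), t2.eventually_ge_atTop (N₀ + 1), eventually_gt_atTop 0]
    with N h1 h2 h3 h4 h5 h6 h7
  have hN : (0 : ℝ) < N := by exact_mod_cast h7
  have l0 : 0 ≤ log (N : ℝ) := log_natCast_nonneg N
  have e1 : exp (log N / τ) ≤ exp (log N / σ) := exp_le_exp.mpr (by gcongr)
  refine ⟨h1, Nat.floor_mono e1, ?_, fun M p hp => ?_⟩
  · have h := hC _ _ (by linarith [add_one_le_exp (log (N : ℝ) / τ)]) e1
    have l1 : log (N : ℝ) ≠ 0 := fun h => by rw [h] at h1; linarith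
    rw [log_exp, log_exp, show log (N : ℝ) / σ / (log N / τ) = τ / σ by field_simp] at h
    refine h.trans ?_
    rw [div_le_iff₀ (by linarith)]
    rwa [div_le_iff₀' hη] at h3
  have p0 : (0 : ℝ) < p := by exact_mod_cast (prime_of_mem hp).pos
  have a1 := log_le_of_mem hp
  have a2 := lt_log_of_mem hp
  have a3 : exp ((1 - 1 / σ) * log N) ≤ N / p := by
    rw [← le_log_iff_exp_le (by positivity), log_div hN.ne' p0.ne']
    linarith [show (1 - 1 / σ) * log (N : ℝ) = log N - log N / σ by ring]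
  simp only [Function.comp] at h5 h6
  obtain ⟨b1, b2⟩ := abs_le.mp (abs_len p M N)
  have b3 : 1 ≤ η * (N / p) := by
    rw [div_le_iff₀' hη] at h5
    exact h5.trans (mul_le_mul_of_nonneg_left a3 hη.le)
  have b0 : (0 : ℝ) < N / p := by positivity
  have b4 : (N : ℝ) / p / 2 ≤ len p M N := by nlinarith
  have b5 : (len p M N : ℝ) ≤ 2 * (N / p) := by nlinarith
  refine ⟨by exact_mod_cast (show (N₀ : ℝ) ≤ len p M N by linarith), by linarith, by linarith, ?_,
    h4.trans (mul_le_mul_of_nonneg_left a2.le (by linarith))⟩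
  have c1 := log_le_log (by positivity) b4
  have c2 := log_le_log (by linarith) b5
  rw [log_div b0.ne' two_ne_zero] at c1
  rw [log_mul two_ne_zero b0.ne'] at c2
  rw [← log_div hN.ne' p0.ne', abs_le]
  constructor <;> linarith [log_two_lt_d9]

theorem step_up {σ τ c : ℝ} (hσ : 1 < σ) (hτ : σ < τ) (hc : 0 ≤ c) (H : Up (2 * τ - σ - 1) c) :
    ∀ ε > 0, ∀ᶠ N : ℕ in atTop, ∀ M, cnt (PP τ N) M N - cnt (PP σ N) M N
      ≤ ((τ - σ) * c / (σ - 1) + ε) * (N / log N) := by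
  intro ε hε
  have hσ0 : 0 < σ := by linarith
  have h1σ : 0 < 1 - 1 / σ := by rw [sub_pos, div_lt_one hσ0]; exact hσ
  have t : ContinuousAt (fun η : ℝ => (c + η) * (1 + η) / (1 - 1 / σ - η) * ((τ - σ) / σ + η)) 0 :=
    ContinuousAt.mul (ContinuousAt.div (by fun_prop) (by fun_prop) (by simpa using h1σ.ne'))
      (by fun_prop)
  have e : (c + 0) * (1 + 0) / (1 - 1 / σ - 0) * ((τ - σ) / σ + 0) < (τ - σ) * c / (σ - 1) + ε := by
    have : σ - 1 ≠ 0 := by linarith
    refine lt_of_eq_of_lt ?_ (lt_add_of_pos_right _ hε)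
    simp only [add_zero, sub_zero]
    field_simp
  obtain ⟨η, η0, η1, η2, η3⟩ : ∃ η : ℝ, 0 < η ∧ η ≤ 1 / 2 ∧ η < 1 - 1 / σ ∧ _ :=
    ((eventually_mem_nhdsWithin (a := (0 : ℝ)) (s := Set.Ioi 0)).and (nhdsWithin_le_nhds
      ((eventually_le_nhds (by norm_num)).and ((eventually_lt_nhds h1σ).and
        (t.eventually_lt_const e))))).exists
  obtain ⟨N₀, hN₀⟩ := eventually_atTop.mp (H η η0)
  filter_upwards [geom hσ hτ η0 η1 N₀] with N ⟨g1, g2, g3, g4⟩ M
  have l0 : 0 < log (N : ℝ) := by nlinarith [log_natCast_nonneg N]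
  have d0 : 0 < 1 - 1 / σ - η := by linarith
  rw [PP, PP, buchstab M N g2]
  have hp : ∀ p ∈ primesIoc ⌊exp (log N / τ)⌋₊ ⌊exp (log N / σ)⌋₊,
      cnt (primesIoc 0 (p - 1)) (M / p) (len p M N)
        ≤ (c + η) * (1 + η) / (1 - 1 / σ - η) * (N / log N) * (1 / p) := by
    intro p hp
    obtain ⟨a1, -, a2, a3, a4⟩ := g4 M p hp
    have a5 := log_le_of_mem hp
    have a6 := lt_log_of_mem hp
    rw [div_lt_iff₀ (by linarith)] at a6
    obtain ⟨a7, a8⟩ := abs_le.mp a3
    have p0 : (0 : ℝ) < p := by exact_mod_cast (prime_of_mem hp).pos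
    have s1 : PP (2 * τ - σ - 1) (len p M N) ⊆ primesIoc 0 (p - 1) := by
      intro q hq
      have q1 := mem_primesIoc.mp hq
      have q2 : log (q : ℝ) < log p := (log_le_of_mem hq).trans_lt
        (by rw [div_lt_iff₀ (by linarith)]; linarith)
      rw [log_lt_log_iff (by exact_mod_cast q1.1) p0, Nat.cast_lt] at q2
      exact mem_primesIoc.mpr ⟨q1.1, by omega, q1.2.2⟩
    refine (cnt_anti s1 _ _).trans ((hN₀ _ a1 _).trans ?_)
    have s2 : (1 - 1 / σ - η) * log N ≤ log (len p M N) := by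
      linarith [show log (N : ℝ) / σ = 1 / σ * log N by ring]
    calc _ ≤ (c + η) * ((1 + η) * (N / p) / ((1 - 1 / σ - η) * log N)) := by gcongr
      _ = _ := by field_simp
  refine (sum_le_sum hp).trans ?_
  rw [← mul_sum, mul_right_comm]
  refine mul_le_mul_of_nonneg_right (le_trans (mul_le_mul_of_nonneg_left ?_ (by positivity)) η3.le)
    (by positivity)
  have := log_le_sub_one_of_pos (show 0 < τ / σ from div_pos (by linarith) hσ0)
  linarith [(abs_le.mp g3).2, show (τ - σ) / σ = τ / σ - 1 by field_simp]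

theorem step_lo {σ τ c : ℝ} (hσ : 1 < σ) (hτ : σ < τ) (hs : 0 < 2 * σ - τ - 1) (hc : 0 ≤ c)
    (H : Lo (2 * σ - τ - 1) c) : ∀ ε > 0, ∀ᶠ N : ℕ in atTop, ∀ M,
      ((τ - σ) * c / (τ - 1) - ε) * (N / log N) ≤ cnt (PP τ N) M N - cnt (PP σ N) M N := by
  intro ε hε
  have hσ0 : 0 < σ := by linarith
  have hτ0 : 0 < τ := by linarith
  have h1τ : 0 < 1 - 1 / τ := by rw [sub_pos, div_lt_one hτ0]; linarith
  have t : ContinuousAt
      (fun η : ℝ => max (c - η) 0 * (1 - η) / (1 - 1 / τ + η) * ((τ - σ) / τ - η)) 0 :=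
    ContinuousAt.mul (ContinuousAt.div (by fun_prop) (by fun_prop) (by simpa using h1τ.ne'))
      (by fun_prop)
  have e : (τ - σ) * c / (τ - 1) - ε
      < max (c - 0) 0 * (1 - 0) / (1 - 1 / τ + 0) * ((τ - σ) / τ - 0) := by
    have : τ - 1 ≠ 0 := by linarith
    refine lt_of_lt_of_eq (sub_lt_self _ hε) ?_
    simp only [add_zero, sub_zero, max_eq_left hc]
    field_simp
  have h1σ : 0 < 1 - 1 / σ := by rw [sub_pos, div_lt_one hσ0]; exact hσ
  obtain ⟨η, η0, η1, η2, η3⟩ : ∃ η : ℝ, 0 < η ∧ η ≤ 1 / 2 ∧ η < 1 - 1 / σ ∧ _ :=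
    ((eventually_mem_nhdsWithin (a := (0 : ℝ)) (s := Set.Ioi 0)).and (nhdsWithin_le_nhds
      ((eventually_le_nhds (by norm_num)).and ((eventually_lt_nhds h1σ).and
        (t.eventually_const_lt e))))).exists
  obtain ⟨N₀, hN₀⟩ := eventually_atTop.mp (H η η0)
  filter_upwards [geom hσ hτ η0 η1 N₀] with N ⟨g1, g2, g3, g4⟩ M
  have l0 : 0 < log (N : ℝ) := by nlinarith [log_natCast_nonneg N]
  have d0 : 0 < 1 - 1 / τ + η := by linarith
  have d1 : 0 ≤ 1 - η := by linarith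
  have d2 := le_max_right (c - η) 0
  rw [PP, PP, buchstab M N g2]
  have hp : ∀ p ∈ primesIoc ⌊exp (log N / τ)⌋₊ ⌊exp (log N / σ)⌋₊,
      max (c - η) 0 * (1 - η) / (1 - 1 / τ + η) * (N / log N) * (1 / p)
        ≤ cnt (primesIoc 0 (p - 1)) (M / p) (len p M N) := by
    intro p hp
    obtain ⟨a1, a2, -, a3, a4⟩ := g4 M p hp
    have a5 := log_le_of_mem hp
    have a6 := lt_log_of_mem hp
    obtain ⟨a7, a8⟩ := abs_le.mp a3
    have p0 : (0 : ℝ) < p := by exact_mod_cast (prime_of_mem hp).pos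
    have s0 : 0 < log (len p M N) := by
      nlinarith [show log (N : ℝ) / σ = 1 / σ * log N by ring]
    rw [le_div_iff₀ hσ0] at a5
    have s1 : primesIoc 0 (p - 1) ⊆ PP (2 * σ - τ - 1) (len p M N) := by
      refine subset_of_log_le fun q hq => ⟨prime_of_mem hq, ?_⟩
      have q1 := mem_primesIoc.mp hq
      refine (log_le_log (by exact_mod_cast q1.1)
        (show (q : ℝ) ≤ p by exact_mod_cast q1.2.1.trans (Nat.sub_le _ _))).trans ?_
      rw [le_div_iff₀ hs]
      linarith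
    have s2 : log (len p M N) ≤ (1 - 1 / τ + η) * log N := by
      linarith [show log (N : ℝ) / τ = 1 / τ * log N by ring]
    calc _ = max (c - η) 0 * ((1 - η) * (N / p) / ((1 - 1 / τ + η) * log N)) := by field_simp
      _ ≤ max (c - η) 0 * (len p M N / log (len p M N)) := by gcongr
      _ ≤ _ := by
        rw [max_mul_of_nonneg _ _ (by positivity), zero_mul]
        exact max_le ((hN₀ _ a1 _).trans (cnt_anti s1 _ _)) (cnt_nonneg _ _ _)
  refine le_trans ?_ (sum_le_sum hp)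
  rw [← mul_sum, mul_right_comm]
  refine mul_le_mul_of_nonneg_right (le_trans η3.le (mul_le_mul_of_nonneg_left ?_ (by positivity)))
    (by positivity)
  have := one_sub_inv_le_log_of_pos (show 0 < τ / σ from div_pos hτ0 hσ0)
  linarith [(abs_le.mp g3).1, show (τ - σ) / τ = 1 - (τ / σ)⁻¹ by field_simp]

theorem PP_anti {s s' : ℝ} (hs : 0 < s) (h : s ≤ s') (N : ℕ) : PP s' N ⊆ PP s N :=
  subset_of_log_le fun _ hp => ⟨prime_of_mem hp, (log_le_of_mem hp).trans
    (div_le_div_of_nonneg_left (log_natCast_nonneg N) hs h)⟩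

theorem Up.mono {s s' c : ℝ} (H : Up s' c) (hs : 0 < s) (h : s ≤ s') : Up s c := fun ε hε =>
  (H ε hε).mono fun N hN M => (cnt_anti (PP_anti hs h N) M N).trans (hN M)

theorem Lo.mono {s s' c : ℝ} (H : Lo s c) (hs : 0 < s) (h : s ≤ s') : Lo s' c := fun ε hε =>
  (H ε hε).mono fun N hN M => (hN M).trans (cnt_anti (PP_anti hs h N) M N)

theorem div_log_nonneg (N : ℕ) : 0 ≤ (N : ℝ) / log N :=
  div_nonneg (Nat.cast_nonneg N) (log_natCast_nonneg N)

theorem lo_zero (s : ℝ) : Lo s 0 := fun ε hε => Eventually.of_forall fun N M =>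
  (mul_nonpos_of_nonpos_of_nonneg (by linarith) (div_log_nonneg N)).trans (cnt_nonneg _ _ _)

theorem Lo.le {s c c' : ℝ} (H : Lo s c) (H' : Up s c') : c ≤ c' := by
  refine le_of_forall_pos_le_add fun ε hε => ?_
  obtain ⟨N, h1, h2, h3, h4⟩ := ((H _ (half_pos hε)).and ((H' _ (half_pos hε)).and
    ((tlog.eventually_gt_atTop 0).and (eventually_gt_atTop 0)))).exists
  have := le_of_mul_le_mul_right ((h1 0).trans (h2 0)) (by positivity)
  linarith

/-- The best upper and lower sifting constants. -/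
noncomputable def FU (s : ℝ) : ℝ := sInf {c | Up s c}

noncomputable def FL (s : ℝ) : ℝ := sSup {c | Lo s c}

theorem up_ex {s : ℝ} (hs : 0 < s) : ∃ c, Up s c := by
  obtain ⟨C, hC⟩ := fund_up
  exact ⟨_, (hC _ (le_max_right s 75)).mono hs (le_max_left _ _)⟩

theorem Up.ge {s c : ℝ} (H : Up s c) : FU s ≤ c := csInf_le ⟨0, fun _ h => (lo_zero s).le h⟩ H

theorem Lo.le_FL {s c : ℝ} (hs : 0 < s) (H : Lo s c) : c ≤ FL s := by
  obtain ⟨c', h'⟩ := up_ex hs
  exact le_csSup ⟨c', fun _ h => Lo.le h h'⟩ H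

theorem up_FU {s : ℝ} (hs : 0 < s) : Up s (FU s) := by
  intro ε hε
  obtain ⟨c, h1, h2⟩ := exists_lt_of_csInf_lt (up_ex hs)
    (lt_add_of_pos_right (sInf {c | Up s c}) (half_pos hε))
  filter_upwards [h1 _ (half_pos hε)] with N hN M
  exact (hN M).trans (mul_le_mul_of_nonneg_right (by unfold FU; linarith) (div_log_nonneg N))

theorem lo_FL (s : ℝ) : Lo s (FL s) := by
  intro ε hε
  obtain ⟨c, h1, h2⟩ := exists_lt_of_lt_csSup ⟨0, lo_zero s⟩
    (sub_lt_self (sSup {c | Lo s c}) (half_pos hε))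
  filter_upwards [h1 _ (half_pos hε)] with N hN M
  exact le_trans (mul_le_mul_of_nonneg_right (by unfold FL; linarith) (div_log_nonneg N)) (hN M)

theorem FU_mono {s s' : ℝ} (hs : 0 < s) (h : s ≤ s') : FU s ≤ FU s' :=
  ((up_FU (hs.trans_le h)).mono hs h).ge

theorem FL_mono {s s' : ℝ} (hs : 0 < s) (h : s ≤ s') : FL s ≤ FL s' :=
  ((lo_FL s).mono hs h).le_FL (hs.trans_le h)

theorem FU_nonneg {s : ℝ} (hs : 0 < s) : 0 ≤ FU s := (lo_zero s).le (up_FU hs)

theorem FL_step {σ τ : ℝ} (hσ : 1 < σ) (hτ : σ < τ) :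
    FL τ - FL σ ≤ (τ - σ) * FU (2 * τ - σ - 1) / (σ - 1) := by
  have h0 : 0 < 2 * τ - σ - 1 := by linarith
  have : Lo σ (FL τ - (τ - σ) * FU (2 * τ - σ - 1) / (σ - 1)) := fun ε hε => by
    filter_upwards [lo_FL τ _ (half_pos hε), step_up hσ hτ (FU_nonneg h0) (up_FU h0) _ (half_pos hε)]
      with N h1 h2 M
    linarith [h1 M, h2 M]
  linarith [this.le_FL (by linarith)]

theorem FU_step {σ τ : ℝ} (hσ : 1 < σ) (hτ : σ < τ) :
    FU τ - FU σ ≤ (τ - σ) * FU (2 * τ - σ - 1) / (σ - 1) := by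
  have h0 : 0 < 2 * τ - σ - 1 := by linarith
  have : Up τ (FU σ + (τ - σ) * FU (2 * τ - σ - 1) / (σ - 1)) := fun ε hε => by
    filter_upwards [up_FU (show 0 < σ by linarith) _ (half_pos hε),
      step_up hσ hτ (FU_nonneg h0) (up_FU h0) _ (half_pos hε)] with N h1 h2 M
    linarith [h1 M, h2 M]
  linarith [this.ge]

theorem FU_step' {σ τ : ℝ} (hσ : 1 < σ) (hτ : σ < τ) (hs : 0 < 2 * σ - τ - 1) :
    (τ - σ) * FL (2 * σ - τ - 1) / (τ - 1) ≤ FU τ - FU σ := by
  have : Up σ (FU τ - (τ - σ) * FL (2 * σ - τ - 1) / (τ - 1)) := fun ε hε => by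
    filter_upwards [up_FU (show 0 < τ by linarith) _ (half_pos hε),
      step_lo hσ hτ hs ((lo_zero _).le_FL hs) (lo_FL _) _ (half_pos hε)] with N h1 h2 M
    linarith [h1 M, h2 M]
  linarith [this.ge]

theorem cont_of_step {φ : ℝ → ℝ} (hm : ∀ s s', 0 < s → s ≤ s' → φ s ≤ φ s')
    (h : ∀ σ τ, 1 < σ → σ < τ → φ τ - φ σ ≤ (τ - σ) * FU (2 * τ - σ - 1) / (σ - 1)) {x : ℝ}
    (hx : 1 < x) : ContinuousAt φ x := by
  set δ := (x - 1) / 2 with hδ
  have δ0 : 0 < δ := by linarith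
  have key : ∀ σ τ, x - δ ≤ σ → σ ≤ τ → τ ≤ x + δ → |φ τ - φ σ| ≤ (τ - σ) * (FU (4 * x) / δ) := by
    intro σ τ h1 h2 h3
    rcases h2.eq_or_lt with rfl | h4
    · simp
    rw [abs_of_nonneg (sub_nonneg.mpr (hm σ τ (by linarith) h2)), ← mul_div_assoc]
    refine (h σ τ (by linarith) h4).trans ?_
    have := FU_mono (s := 2 * τ - σ - 1) (s' := 4 * x) (by linarith) (by linarith)
    have := FU_nonneg (s := 4 * x) (by linarith)
    have : 0 ≤ τ - σ := by linarith
    gcongr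
    linarith
  rw [ContinuousAt, tendsto_iff_norm_sub_tendsto_zero]
  have t : ContinuousAt (fun y => |y - x| * (FU (4 * x) / δ)) x := by fun_prop
  simp only [ContinuousAt, sub_self, abs_zero, zero_mul] at t
  refine squeeze_zero' (Eventually.of_forall fun _ => norm_nonneg _) ?_ t
  filter_upwards [Icc_mem_nhds (sub_lt_self x δ0) (lt_add_of_pos_right x δ0)] with y hy
  rw [norm_eq_abs]
  rcases le_total x y with h1 | h1
  · rw [abs_of_nonneg (sub_nonneg.mpr h1)]
    exact key x y (by linarith) h1 hy.2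
  · rw [abs_sub_comm, abs_sub_comm y, abs_of_nonneg (sub_nonneg.mpr h1)]
    exact key y x hy.1 h1 (by linarith)

theorem delay : Delay (exp (-eulerMascheroniConstant)) FL fun s => FU (max s 3) := by
  have cf : ∀ x, 1 < x → ContinuousAt FL x := fun x hx =>
    cont_of_step (fun _ _ => FL_mono) (fun _ _ => FL_step) hx
  have cP : Continuous fun s : ℝ => FU (max s 3) := continuous_iff_continuousAt.mpr fun x =>
    ContinuousAt.comp (f := fun s : ℝ => max s 3) (cont_of_step (fun _ _ => FU_mono)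
      (fun _ _ => FU_step) (lt_max_of_lt_right (by norm_num))) (by fun_prop)
  refine ⟨fun x hx => (cf x hx).continuousWithinAt, cP,
    fun x y h => FU_mono (lt_max_of_lt_right (by norm_num)) (max_le_max_right _ h),
    fun x hx => by rw [max_eq_right hx, max_self], fun x hx r hr => ?_, fun x hx r hr => ?_, ?_⟩
  · have t : ContinuousAt (fun z => FU (max (2 * z - x - 1) 3) / (x - 1)) x :=
      ((cP.comp (by fun_prop)).div_const _).continuousAt
    have e : 2 * x - x - 1 = x - 1 := by ring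
    filter_upwards [nhdsWithin_le_nhds (t.eventually_lt_const (by simpa only [e] using hr)),
      self_mem_nhdsWithin] with z h1 hz
    have hz : x < z := hz
    refine lt_of_le_of_lt ?_ h1
    rw [slope_def_field, div_le_iff₀' (sub_pos.mpr hz), ← mul_div_assoc]
    refine (FL_step (by linarith) hz).trans ?_
    have := FU_mono (s := 2 * z - x - 1) (by linarith) (le_max_left _ 3)
    have : 0 ≤ z - x := by linarith
    have : 0 ≤ x - 1 := by linarith
    gcongr
  · have e : 2 * x - x - 1 = x - 1 := by ring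
    have t : ContinuousAt (fun z => FL (2 * x - z - 1) / (z - 1)) x :=
      (ContinuousAt.comp (f := fun z : ℝ => 2 * x - z - 1) (cf _ (by linarith)) (by fun_prop)).div
        (by fun_prop) (by linarith)
    filter_upwards [nhdsWithin_le_nhds (t.eventually_const_lt (by simpa only [e] using hr)),
      Ioo_mem_nhdsGT (lt_add_one x)] with z h1 hz
    refine h1.trans_le ?_
    rw [slope_def_field, le_div_iff₀' (sub_pos.mpr hz.1), ← mul_div_assoc, max_eq_left hx,
      max_eq_left (hx.trans hz.1.le)]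
    exact FU_step' (by linarith) hz.1 (by linarith [hz.2])
  · obtain ⟨C, hC⟩ := fund_up
    obtain ⟨C', hC'⟩ := fund_lo
    refine ⟨max C C', ?_⟩
    filter_upwards [eventually_ge_atTop 75] with s hs
    have h1 := (hC s hs).ge
    have h2 := (hC' s hs).le_FL (by linarith)
    have h3 : C / s ^ 2 ≤ max C C' / s ^ 2 := by gcongr; exact le_max_left _ _
    have h4 : C' / s ^ 2 ≤ max C C' / s ^ 2 := by gcongr; exact le_max_right _ _
    rw [max_eq_left (by linarith : 3 ≤ s)]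
    exact ⟨by linarith, (lo_FL s).le (up_FU (by linarith)), by linarith⟩

/-- The linear sieve lower bound. -/
theorem linear_lower {s : ℝ} (h2 : 2 ≤ s) (h3 : s ≤ 3) : Lo s (2 * log (s - 1)) := fun ε hε =>
  (lo_FL s ε hε).mono fun N hN M => le_trans (mul_le_mul_of_nonneg_right
    (by linarith [delay.lower h2 h3]) (div_log_nonneg N)) (hN M)

end Pool.Agent.P.MP_1b1bb8_nt.LS
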