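import Pool.Agent.P.MP_1b1bb8_nt.Upper
import Pool.Agent.P.MP_1b1bb8_nt.Gap
import Pool.Agent.P.MP_3bc45c_nt.Rankin
import Pool.Agent.Lib.PNT.Main

/-!
Two disjoint sets of primes that both cover a long interval.
-/

open Finset Real Filter Topology

namespace Pool.Agent.P.MP_1b1bb8_nt

open Pool.Agent.P.MP_3bc45c_nt

theorem lt_J_of_classes {A E : Finset ℕ} (hA : ∀ p ∈ A, p.Prime) (hE : ∀ p ∈ E, p.Prime)
    (hd : Disjoint A E) (c : ℕ → ℕ) {H : ℕ} (hH : 2 ≤ H)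
    (h : ((Ioc 0 H).filter fun n => ∀ p ∈ A, ¬ p ∣ c p + n).card ≤ E.card) :
    H < J (∏ p ∈ A ∪ E, p) := by
  classical
  set R := (Ioc 0 H).filter fun n => ∀ p ∈ A, ¬ p ∣ c p + n with hR
  obtain ⟨f, hf⟩ := Function.Embedding.exists_of_card_le_finset (α := R) (s := E) (by simpa using h)
  let w : ℕ → ℕ := fun q => if h : ∃ n : R, f n = q then (h.choose : ℕ) else 0
  have hw : ∀ n : R, w (f n) = n := fun n => by
    have h1 : ∃ n' : R, f n' = f n := ⟨n, rfl⟩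
    simp only [w, dif_pos h1]
    rw [f.injective h1.choose_spec]
  have hT : ∀ p ∈ A ∪ E, p.Prime := fun p hp => (mem_union.mp hp).elim (hA p) (hE p)
  obtain ⟨N, hN⟩ := Nat.chineseRemainderOfFinset (fun p => if p ∈ A then c p else p * H - w p) id
    (A ∪ E) (fun p hp => (hT p hp).ne_zero)
    (fun p hp q hq hpq => (Nat.coprime_primes (hT p hp) (hT q hq)).mpr hpq)
  refine lt_J_of_run (N := N) (prod_pos fun p hp => (hT p hp).pos) hH fun m hm => ?_
  obtain ⟨n, rfl⟩ := Nat.exists_eq_add_of_le (mem_Ioc.mp hm).1.le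
  have hn : n ∈ Ioc 0 H := by
    have := mem_Ioc.mp hm
    exact mem_Ioc.mpr ⟨by omega, by omega⟩
  rw [Nat.Prime.not_coprime_iff_dvd]
  by_cases hnR : n ∈ R
  · have h1 : f ⟨n, hnR⟩ ∈ E := hf ⟨_, rfl⟩
    set q := f ⟨n, hnR⟩ with hq
    have h2 : q ∈ A ∪ E := mem_union_right _ h1
    have h3 := hN q h2
    simp only [id, if_neg (disjoint_right.mp hd h1)] at h3
    have h4 : w q = n := hw ⟨n, hnR⟩
    refine ⟨q, hT q h2, ?_, dvd_prod_of_mem (fun p => p) h2⟩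
    rw [(h3.add_right n).dvd_iff dvd_rfl, h4, Nat.sub_add_cancel
      ((mem_Ioc.mp hn).2.trans (Nat.le_mul_of_pos_left _ (hT q h2).pos))]
    exact dvd_mul_right _ _
  · have h1 : ∃ p ∈ A, p ∣ c p + n := by
      by_contra h2
      push Not at h2
      exact hnR (mem_filter.mpr ⟨hn, h2⟩)
    obtain ⟨p, hp, h2⟩ := h1
    have h3 := hN p (mem_union_left _ hp)
    simp only [id, if_pos hp] at h3
    exact ⟨p, hA p hp, ((h3.add_right n).dvd_iff dvd_rfl).mpr h2,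
      dvd_prod_of_mem (fun p => p) (mem_union_left _ hp)⟩

theorem card_primesIoc {a b : ℕ} (h : a ≤ b) :
    ((primesIoc a b).card : ℝ) = Nat.primeCounting b - Nat.primeCounting a := by
  have h1 := sum_primesIoc_add (fun _ => 1) (Nat.zero_le a) h
  simp only [sum_const, nsmul_eq_mul, mul_one, primesIoc_zero,
    Nat.primesLE_card_eq_primeCounting] at h1
  linarith

theorem sum_log_primesIoc {a b : ℝ} (h : a ≤ b) :
    ∑ p ∈ primesIoc ⌊a⌋₊ ⌊b⌋₊, log (p : ℝ) = Chebyshev.theta b - Chebyshev.theta a := by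
  have h1 := sum_primesIoc_add (fun p => log p) (Nat.zero_le ⌊a⌋₊) (Nat.floor_mono h)
  rw [Chebyshev.theta, Chebyshev.theta]
  simp only [primesIoc] at h1 ⊢
  linarith

theorem theta_scaled {a : ℝ} (ha : 0 < a) :
    Tendsto (fun L : ℝ => Chebyshev.theta (a * L) / L) atTop (𝓝 a) := by
  have h := (Pool.Agent.Lib.PNT.theta_tendsto.comp (tendsto_id.const_mul_atTop ha)).const_mul a
  rw [mul_one] at h
  refine h.congr' ?_
  filter_upwards [eventually_gt_atTop 0] with L hL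
  simp only [Function.comp, id]
  field_simp

theorem pi_scaled {a : ℝ} (ha : 0 < a) :
    Tendsto (fun L : ℝ => (Nat.primeCounting ⌊a * L⌋₊ : ℝ) * log L / L) atTop (𝓝 a) := by
  have t0 : Tendsto (fun L : ℝ => a * L) atTop atTop := tendsto_id.const_mul_atTop ha
  have h1 := (Pool.Agent.Lib.PNT.primeCounting_tendsto.comp t0).const_mul a
  have h2 : Tendsto (fun L : ℝ => 1 - log a / log (a * L)) atTop (𝓝 (1 - 0)) :=
    (tendsto_const_nhds.div_atTop (tendsto_log_atTop.comp t0)).const_sub 1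
  have h := h1.mul h2
  rw [mul_one, sub_zero, mul_one] at h
  refine h.congr' ?_
  filter_upwards [eventually_gt_atTop 0, t0.eventually_gt_atTop 1] with L hL hL1
  have h3 : log (a * L) ≠ 0 := (log_pos hL1).ne'
  have h4 : log L = log (a * L) - log a := by rw [log_mul ha.ne' hL.ne']; ring
  simp only [Function.comp]
  rw [h4]
  field_simp

theorem prod_lt_exp {T : Finset ℕ} (hT : ∀ p ∈ T, p.Prime) {L : ℝ}
    (h : ∑ p ∈ T, log (p : ℝ) < L) : ((∏ p ∈ T, p : ℕ) : ℝ) < exp L := by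
  refine lt_of_le_of_lt (le_of_eq ?_) (exp_lt_exp.mpr h)
  rw [exp_sum]
  push_cast
  exact prod_congr rfl fun p hp => (exp_log (by exact_mod_cast (hT p hp).pos)).symm

theorem smooth_small {η C l l₂ l₃ H lz ly₀ : ℝ} (hη : 0 < η) (hη1 : η ≤ 1 / 10) (hC : 0 < C)
    (hl : exp l₂ = l) (hl₂ : exp l₃ = l₂) (hl₃ : 0 < l₃) (h10 : 10 / η ≤ exp (η * l₃))
    (hH0 : 0 < H) (hH : (1 - η) * l ≤ log H) (hlz0 : 0 < lz)
    (hlz : lz ≤ (1 + η) * (l / ((1 + 6 * η) * l₂ / l₃))) (hlzl : lz ≤ l) (hly₀ : l / 2 ≤ ly₀) :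
    C * (H ^ (1 - (1 - η) * l₃ / lz) * exp ((1 - η) * l₃) *
      (lz * exp (9 * exp ((1 - η) * l₃)))) / ly₀ ≤ 2 * C * (H / l) := by
  have hl0 : 0 < l := hl ▸ exp_pos _
  have hl₂0 : 0 < l₂ := hl₂ ▸ exp_pos _
  have hτ : 0 ≤ (1 - η) * l₃ := mul_nonneg (by linarith) hl₃.le
  have h1 : (1 + η) * l₂ ≤ log H * ((1 - η) * l₃ / lz) := by
    refine le_trans ?_ (mul_le_mul_of_nonneg_right hH (by positivity))
    rw [← mul_div_assoc, le_div_iff₀ hlz0]
    refine (mul_le_mul_of_nonneg_left hlz (by positivity)).trans ?_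
    have : (1 + η) * l₂ * ((1 + η) * (l / ((1 + 6 * η) * l₂ / l₃)))
        = (1 + η) * (1 + η) / (1 + 6 * η) * (l * l₃) := by field_simp
    rw [this]
    have h2 : (1 + η) * (1 + η) / (1 + 6 * η) ≤ (1 - η) * (1 - η) := by
      rw [div_le_iff₀ (by positivity)]; nlinarith [mul_pos hη (mul_pos hη hη)]
    calc _ ≤ (1 - η) * (1 - η) * (l * l₃) := mul_le_mul_of_nonneg_right h2 (by positivity)
      _ = _ := by ring
  have h2 : 10 * exp ((1 - η) * l₃) ≤ η * l₂ := by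
    have h3 : l₂ = exp (η * l₃) * exp ((1 - η) * l₃) := by
      rw [← exp_add, ← hl₂]; congr 1; ring
    rw [div_le_iff₀' hη] at h10
    rw [h3]
    nlinarith [exp_pos ((1 - η) * l₃)]
  have h3 : H ^ (1 - (1 - η) * l₃ / lz) * exp ((1 - η) * l₃) * exp (9 * exp ((1 - η) * l₃))
      ≤ H / l := by
    rw [rpow_sub hH0, rpow_one, rpow_def_of_pos hH0, div_eq_mul_inv, ← exp_neg, mul_assoc,
      mul_assoc, ← exp_add, ← exp_add, div_eq_mul_inv H l, ← hl, ← exp_neg]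
    refine mul_le_mul_of_nonneg_left (exp_le_exp.mpr ?_) hH0.le
    linarith [add_one_le_exp ((1 - η) * l₃)]
  have h5 : lz / ly₀ ≤ 2 := by
    rw [div_le_iff₀ (by linarith)]; linarith
  calc _ = C * ((H ^ (1 - (1 - η) * l₃ / lz) * exp ((1 - η) * l₃) *
        exp (9 * exp ((1 - η) * l₃))) * (lz / ly₀)) := by ring
    _ ≤ C * (H / l * 2) := by
        have : 0 < ly₀ := by linarith
        gcongr
    _ = _ := by ring

theorem exists_eta {c G : ℝ} (hG : 0 < G) (hc : c < G) : ∃ η : ℝ, 0 < η ∧ η ≤ 1 / 10 ∧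
    (c + η) * (1 + 6 * η) * ((1 + η) / G) ≤ 1 - 3 * η := by
  have t : Tendsto (fun η : ℝ => (c + η) * (1 + 6 * η) * ((1 + η) / G) + 3 * η) (𝓝 0)
      (𝓝 ((c + 0) * (1 + 6 * 0) * ((1 + 0) / G) + 3 * 0)) :=
    Continuous.tendsto (by fun_prop) 0
  have h : (c + 0) * (1 + 6 * 0) * ((1 + 0) / G) + 3 * 0 < 1 := by
    simp only [add_zero, mul_zero, mul_one]
    rw [mul_one_div, div_lt_one hG]
    exact hc
  have ev : ∀ᶠ η : ℝ in 𝓝[>] 0, _ := (eventually_mem_nhdsWithin (a := (0 : ℝ))).and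
    (nhdsWithin_le_nhds (((tendsto_id (x := 𝓝 (0 : ℝ))).eventually_le_const
      (show (0 : ℝ) < 1 / 10 by norm_num)).and (t.eventually_lt_const h)))
  obtain ⟨η, e0, e1, e2⟩ := ev.exists
  exact ⟨η, e0, e1, by linarith⟩

end Pool.Agent.P.MP_1b1bb8_nt
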