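import Pool.Agent.P.MP_1b1bb8_nt.LSStep
import Pool.Agent.P.MP_1b1bb8_nt.Lower

/-!
Averaging over missing primes, short progressions, counting prime factors.
-/

open Finset Real Filter Topology

namespace Pool.Agent.P.MP_1b1bb8_nt.LS

open Pool.Agent.P.MP_3bc45c_nt

theorem avg {T A : Finset ℕ} (hT : ∀ p ∈ T, p.Prime) (hA : ∀ p ∈ A, p.Prime) (hd : Disjoint T A)
    (M N : ℕ) : ∃ M', cnt (T ∪ A) M' N ≤ cnt T M N * ∏ p ∈ A, (1 - 1 / (p : ℝ)) := by
  obtain ⟨c, hc⟩ := greedy A (fun p hp => (hA p hp).pos)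
    ((Ioc M (M + N)).filter fun m => ∀ p ∈ T, ¬ p ∣ m)
  have hp : ∀ p ∈ T ∪ A, p.Prime := fun p hp => (mem_union.mp hp).elim (hT p) (hA p)
  obtain ⟨k, hk⟩ := Nat.chineseRemainderOfFinset (fun p => if p ∈ A then c p else 0) id (T ∪ A)
    (fun p h => (hp p h).ne_zero)
    (fun p h q h' hpq => (Nat.coprime_primes (hp p h) (hp q h')).mpr hpq)
  refine ⟨k + M, le_trans (Nat.cast_le.mpr ?_) hc⟩
  refine card_le_card_of_injOn (fun m => m - k) (fun m hm => ?_) fun m hm m' hm' e => ?_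
  · obtain ⟨h1, h2⟩ := mem_filter.mp (mem_coe.mp hm)
    have h3 := mem_Ioc.mp h1
    obtain ⟨n, rfl⟩ := Nat.exists_eq_add_of_le (show k ≤ m by omega)
    simp only [Nat.add_sub_cancel_left, mem_coe, mem_filter, mem_Ioc]
    refine ⟨⟨by omega, fun p h hd' => h2 p (mem_union_left _ h) ?_⟩,
      fun p h hd' => h2 p (mem_union_right _ h) ?_⟩
    · have h4 := hk p (mem_union_left _ h)
      simp only [id, if_neg (disjoint_left.mp hd h)] at h4
      exact Nat.dvd_add ((Nat.modEq_zero_iff_dvd).mp h4) hd'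
    · have h4 := hk p (mem_union_right _ h)
      simp only [id, if_pos h] at h4
      exact ((h4.add_right n).dvd_iff dvd_rfl).mpr hd'
  · have h1 := mem_Ioc.mp (mem_filter.mp (mem_coe.mp hm)).1
    have h2 := mem_Ioc.mp (mem_filter.mp (mem_coe.mp hm')).1
    simp only at e
    omega

theorem cnt_le (T : Finset ℕ) (M N : ℕ) : cnt T M N ≤ N :=
  (cnt_anti (empty_subset T) M N).trans (cnt_empty M N).le

theorem cnt_le_sum {T R : Finset ℕ} (hT : ∀ q ∈ T, q.Prime) (hR : ∀ p ∈ R, p.Prime ∧ p ∉ T)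
    {M N : ℕ} (h : ∀ m ∈ Ioc M (M + N), (∃ q ∈ T, q ∣ m) ∨ ∃ p ∈ R, p ∣ m) :
    cnt T M N ≤ ∑ p ∈ R, cnt T (M / p) (len p M N) := by
  rw [← sum_congr rfl fun p hp => card_dvd hT (hR p hp).1 (hR p hp).2 M N, cnt, ← Nat.cast_sum,
    Nat.cast_le]
  refine (card_le_card fun m hm => ?_).trans card_biUnion_le
  obtain ⟨h1, h2⟩ := mem_filter.mp hm
  rcases h m h1 with ⟨q, hq, h3⟩ | ⟨p, hp, h3⟩
  · exact absurd h3 (h2 q hq)
  · exact mem_biUnion.mpr ⟨p, hp, mem_filter.mpr ⟨hm, h3⟩⟩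

theorem cnt_two {T : Finset ℕ} (h : 2 ∈ T) (M : ℕ) {N : ℕ} (hN : N ≤ 2) : cnt T M N ≤ 1 := by
  unfold cnt
  rw [Nat.cast_le_one, card_le_one]
  intro a ha b hb
  have h1 := mem_Ioc.mp (mem_filter.mp ha).1
  have h2 := mem_Ioc.mp (mem_filter.mp hb).1
  have h3 := (mem_filter.mp ha).2 2 h
  have h4 := (mem_filter.mp hb).2 2 h
  omega

theorem prod_pos' {A : Finset ℕ} (hA : ∀ p ∈ A, p.Prime) : 0 < ∏ p ∈ A, (1 - 1 / (p : ℝ)) :=
  prod_pos fun p hp => one_sub_inv_pos (hA p hp)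

theorem prod_anti {A B : Finset ℕ} (hB : ∀ p ∈ B, p.Prime) (h : A ⊆ B) :
    ∏ p ∈ B, (1 - 1 / (p : ℝ)) ≤ ∏ p ∈ A, (1 - 1 / (p : ℝ)) :=
  prod_le_prod_of_subset_of_le_one h (fun p hp => (one_sub_inv_pos (hB p hp)).le)
    fun p _ _ => sub_le_self _ (by positivity)

theorem short : ∃ C : ℝ, 0 < C ∧ ∀ (T : Finset ℕ) (l k : ℝ) (M N : ℕ), 3 / 2 ≤ k → N ≤ 2 * k →
    log k ≤ 100 * l →
    cnt T M N * ∏ p ∈ primesIoc 0 ⌊exp l⌋₊ \ T, (1 - 1 / (p : ℝ)) ≤ C * (k / log k) := by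
  obtain ⟨C, hC1, hC⟩ := selberg
  obtain ⟨c, c', -, hc0, hc⟩ := Pool.Agent.Lib.Mertens.mertens_third_bounds
  refine ⟨200 + 400 * C * c' + 600 * C, by positivity, fun T l k M N hk hN hl => ?_⟩
  have k0 : 0 < log k := log_pos (by linarith)
  have k1 : 0 < k / log k := div_pos (by linarith) k0
  set Q := ∏ p ∈ primesIoc 0 ⌊exp l⌋₊ \ T, (1 - 1 / (p : ℝ)) with hQ
  have hpr : ∀ p ∈ primesIoc 0 ⌊exp l⌋₊ \ T, p.Prime := fun p hp => prime_of_mem (mem_sdiff.mp hp).1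
  have Q0 : 0 < Q := prod_pos' hpr
  have Q1 : Q ≤ 1 := (prod_anti hpr (empty_subset _)).trans_eq prod_empty
  have C0 : 0 < C := by linarith
  rcases le_total (log k) 100 with h | h
  · have h1 : cnt T M N * Q ≤ 200 * (k / log k) := by
      refine (mul_le_of_le_one_right (cnt_nonneg _ _ _) Q1).trans ((cnt_le _ _ _).trans
        (hN.trans ?_))
      rw [← mul_div_assoc, le_div_iff₀ k0]
      nlinarith
    nlinarith [mul_pos (mul_pos C0 hc0) k1, mul_pos C0 k1]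
  set y := log k / 100 with hy
  have y1 : 1 ≤ y := by linarith
  have ek : exp (100 * y) = k := by
    rw [show 100 * y = log k by linarith, exp_log (by linarith)]
  set P := primesIoc 0 ⌊exp y⌋₊ with hP
  have h1 := hC (P ∩ T) M N y (25 * y) (by linarith) le_rfl fun p hp =>
    ⟨prime_of_mem (mem_inter.mp hp).1, log_le_of_mem (mem_inter.mp hp).1⟩
  have h2 : Q / K (P ∩ T) ≤ c' / y := by
    have h3 := (hc (exp y) (by linarith [add_one_le_exp y])).2
    rw [log_exp] at h3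
    refine le_trans ?_ h3
    change _ ≤ ∏ p ∈ P, (1 - 1 / (p : ℝ))
    rw [← prod_inter_mul_prod_sdiff P T, K, prod_inv_distrib, div_inv_eq_mul, mul_comm]
    refine mul_le_mul_of_nonneg_left (prod_anti hpr (sdiff_subset_sdiff (subset_of_log_le
      fun p hp => ⟨prime_of_mem hp, (log_le_of_mem hp).trans (by linarith)⟩) Subset.rfl))
      (prod_pos' fun p hp => prime_of_mem (mem_inter.mp hp).1).le
  have h3 : 1 + C * (y / (25 * y)) ^ 3 ≤ 2 * C := by
    rw [show y / (25 * y) = 1 / 25 by field_simp]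
    linarith
  have h4 : exp (2 * (25 * y)) * y ^ 2 ≤ 600 * (k / log k) := by
    have h5 := pow_div_factorial_le_exp y (by linarith) 3
    have h6 : exp (2 * (25 * y)) * exp y ≤ k := by
      rw [← exp_add, ← ek]
      exact exp_le_exp.mpr (by linarith)
    simp only [Nat.factorial, Nat.succ_eq_add_one] at h5
    push_cast at h5
    rw [← mul_div_assoc 600, le_div_iff₀ k0, show log k = 100 * y by linarith]
    nlinarith [mul_le_mul_of_nonneg_left h5 (exp_pos (2 * (25 * y))).le]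
  have K0 : 0 < K (P ∩ T) :=
    one_pos.trans_le (one_le_K fun p hp => prime_of_mem (mem_inter.mp hp).1)
  calc cnt T M N * Q ≤ (N / K (P ∩ T) * (2 * C) + C * (600 * (k / log k))) * Q := by
        refine mul_le_mul_of_nonneg_right ((cnt_anti inter_subset_right M N).trans
          (h1.trans ?_)) Q0.le
        gcongr
    _ = N * (Q / K (P ∩ T)) * (2 * C) + C * (600 * (k / log k)) * Q := by ring
    _ ≤ 2 * k * (c' / y) * (2 * C) + C * (600 * (k / log k)) * 1 := by gcongr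
    _ = (400 * C * c' + 600 * C) * (k / log k) := by rw [hy]; field_simp; ring
    _ ≤ _ := by nlinarith

theorem card_mul_log_le {S : Finset ℕ} {y L : ℝ} (hy : 0 < y) (h : ∑ p ∈ S, log (p : ℝ) ≤ L) :
    ((S.filter fun p : ℕ => y < p).card : ℝ) * log y ≤ L := by
  rw [← nsmul_eq_mul, ← sum_const]
  exact (sum_le_sum fun p hp => log_le_log hy (mem_filter.mp hp).2.le).trans
    ((sum_le_sum_of_subset_of_nonneg (filter_subset _ _)
      fun p _ _ => log_natCast_nonneg p).trans h)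

theorem card_small {ε : ℝ} (hε : 0 < ε) : ∀ᶠ L : ℝ in atTop, ∀ S : Finset ℕ,
    ∑ p ∈ S, log (p : ℝ) ≤ L → (S.card : ℝ) ≤ ε * L := by
  filter_upwards [eventually_ge_atTop ((exp (2 / ε) + 1) / (ε / 2))] with L hL S h
  rw [div_le_iff₀' (half_pos hε)] at hL
  have h1 := card_mul_log_le (exp_pos (2 / ε)) h
  rw [log_exp, ← mul_div_assoc, div_le_iff₀' hε] at h1
  have h2 := card_filter_add_card_filter_not (s := S) fun p : ℕ => exp (2 / ε) < p
  have h3 : (S.filter fun p : ℕ => ¬ exp (2 / ε) < p).card ≤ ⌊exp (2 / ε)⌋₊ + 1 := by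
    refine (card_le_card fun p hp => ?_).trans (card_range _).le
    exact mem_range_succ_iff.mpr (Nat.le_floor (not_lt.mp (mem_filter.mp hp).2))
  have h4 : ((S.filter fun p : ℕ => ¬ exp (2 / ε) < p).card : ℝ) ≤ exp (2 / ε) + 1 := by
    refine (Nat.cast_le.mpr h3).trans ?_
    push_cast
    linarith [Nat.floor_le (exp_pos (2 / ε)).le]
  rw [← h2]
  push_cast
  linarith

end Pool.Agent.P.MP_1b1bb8_nt.LS
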