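import Pool.Agent.P.MP_1b1bb8_nt.LSTools
import Pool.Agent.P.MP_1b1bb8_nt.LSMore

/-!
The total contribution of the large primes.
-/

open Finset Real Filter Topology

namespace Pool.Agent.P.MP_1b1bb8_nt.LS

open Pool.Agent.P.MP_3bc45c_nt

theorem greedy_up (A : Finset ℕ) (hA : ∀ p ∈ A, 0 < p) (U : Finset ℕ) :
    ∃ c : ℕ → ℕ, U.card * ∏ p ∈ A, (1 - 1 / (p : ℝ))
      ≤ ((U.filter (fun n => ∀ p ∈ A, ¬ p ∣ c p + n)).card : ℝ) := by
  induction A using Finset.induction_on with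
  | empty => exact ⟨fun _ => 0, by simp⟩
  | insert q A hq ih =>
    obtain ⟨c, hc⟩ := ih fun p hp => hA p (mem_insert_of_mem hp)
    have hq0 : 0 < q := hA q (mem_insert_self _ _)
    have hq0' : (0 : ℝ) < q := by exact_mod_cast hq0
    set U' := U.filter (fun n => ∀ p ∈ A, ¬ p ∣ c p + n) with hU'
    have h1 : ∃ r ∈ range q, ((U'.filter (fun n => q ∣ r + n)).card : ℝ) ≤ (U'.card : ℝ) / q := by
      refine exists_le_of_sum_le ⟨0, mem_range.mpr hq0⟩ ?_
      rw [sum_const, card_range, nsmul_eq_mul, mul_div_cancel₀ _ hq0'.ne', ← Nat.cast_sum,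
        Nat.cast_le, ← card_biUnion]
      · exact card_le_card (biUnion_subset.mpr fun r _ => filter_subset _ _)
      · intro r hr r' hr' hne
        refine disjoint_filter.mpr fun n _ h h' => hne ?_
        have h2 : r + n ≡ r' + n [MOD q] :=
          (Nat.modEq_zero_iff_dvd.mpr h).trans (Nat.modEq_zero_iff_dvd.mpr h').symm
        exact Nat.ModEq.eq_of_lt_of_lt (Nat.ModEq.add_right_cancel' n h2)
          (mem_range.mp hr) (mem_range.mp hr')
    obtain ⟨r, -, hr⟩ := h1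
    refine ⟨Function.update c q r, ?_⟩
    have h2 : U.filter (fun n => ∀ p ∈ insert q A, ¬ p ∣ Function.update c q r p + n)
        = U'.filter (fun n => ¬ q ∣ r + n) := by
      ext n
      simp only [hU', mem_filter, forall_mem_insert, Function.update_self]
      have : (∀ p ∈ A, ¬ p ∣ Function.update c q r p + n) ↔ ∀ p ∈ A, ¬ p ∣ c p + n :=
        forall₂_congr fun p hp => by rw [Function.update_of_ne (ne_of_mem_of_not_mem hp hq)]
      rw [this]
      tauto
    have h3 := card_filter_add_card_filter_not (s := U') (fun n => q ∣ r + n)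
    have h4 : ((U'.filter (fun n => q ∣ r + n)).card : ℝ)
        + (U'.filter (fun n => ¬ q ∣ r + n)).card = U'.card := by exact_mod_cast h3
    have h5 : 0 ≤ 1 - 1 / (q : ℝ) := by
      rw [sub_nonneg, div_le_one hq0']; exact_mod_cast hq0
    rw [h2, prod_insert hq]
    calc _ = (U.card * ∏ p ∈ A, (1 - 1 / (p : ℝ))) * (1 - 1 / (q : ℝ)) := by ring
      _ ≤ U'.card * (1 - 1 / (q : ℝ)) := mul_le_mul_of_nonneg_right hc h5
      _ ≤ _ := by rw [mul_sub, mul_one, mul_one_div]; linarith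

theorem avg_up {T A : Finset ℕ} (hT : ∀ p ∈ T, p.Prime) (hA : ∀ p ∈ A, p.Prime) (M N : ℕ) :
    ∃ M', cnt T M N * ∏ p ∈ A, (1 - 1 / (p : ℝ)) ≤ cnt (T ∪ A) M' N := by
  obtain ⟨c, hc⟩ := greedy_up A (fun p hp => (hA p hp).pos)
    ((Ioc M (M + N)).filter fun m => ∀ p ∈ T, ¬ p ∣ m)
  have hp : ∀ p ∈ T ∪ A, p.Prime := fun p hp => (mem_union.mp hp).elim (hT p) (hA p)
  obtain ⟨k, hk⟩ := Nat.chineseRemainderOfFinset (fun p => if p ∈ A then c p else 0) id (T ∪ A)
    (fun p h => (hp p h).ne_zero)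
    (fun p h q h' hpq => (Nat.coprime_primes (hp p h) (hp q h')).mpr hpq)
  refine ⟨k + M, hc.trans (Nat.cast_le.mpr ?_)⟩
  refine card_le_card_of_injOn (fun m => k + m) (fun m hm => ?_) fun m _ m' _ e =>
    Nat.add_left_cancel e
  obtain ⟨h1, h2⟩ := mem_filter.mp (mem_coe.mp hm)
  obtain ⟨h3, h4⟩ := mem_filter.mp h1
  have h5 := mem_Ioc.mp h3
  simp only [mem_coe, mem_filter, mem_Ioc]
  refine ⟨by omega, fun p h hd' => ?_⟩
  have h6 := ((hk p h).add_right m).dvd_iff dvd_rfl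
  simp only [id] at h6
  by_cases h7 : p ∈ A
  · rw [if_pos h7] at h6
    exact h2 p h7 (h6.mp hd')
  · rw [if_neg h7, zero_add] at h6
    exact h4 p ((mem_union.mp h).resolve_right h7) (h6.mp hd')

theorem FL_le {s : ℝ} (hs : 0 < s) : FL s ≤ exp (-eulerMascheroniConstant) * s := by
  refine le_of_forall_pos_le_add fun ε hε => ?_
  obtain ⟨N, h1, h2, h3, h4⟩ := ((lo_FL s _ (half_pos hε)).and (((V_tendsto hs).eventually_le_const
    (lt_add_of_pos_right _ (half_pos hε))).and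
    ((tlog.eventually_gt_atTop 0).and (eventually_gt_atTop 0)))).exists
  obtain ⟨M, hM⟩ := avg (T := ∅) (A := PP s N) (by simp) (fun p => prime_of_mem)
    (disjoint_empty_left _) 0 N
  rw [empty_union, cnt_empty] at hM
  have h5 : (FL s - ε / 2) * (N / log N) ≤ log N * V ⌊exp (log N / s)⌋₊ * (N / log N) :=
    ((h1 M).trans hM).trans_eq (by rw [V, PP]; field_simp)
  linarith [le_of_mul_le_mul_right h5 (by positivity)]

theorem le_FU {s : ℝ} (hs : 0 < s) : exp (-eulerMascheroniConstant) * s ≤ FU s := by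
  refine le_of_forall_pos_le_add fun ε hε => ?_
  obtain ⟨N, h1, h2, h3, h4⟩ := ((up_FU hs _ (half_pos hε)).and
    (((V_tendsto hs).eventually_const_le (sub_lt_self _ (half_pos hε))).and
    ((tlog.eventually_gt_atTop 0).and (eventually_gt_atTop 0)))).exists
  obtain ⟨M, hM⟩ := avg_up (T := ∅) (A := PP s N) (by simp) (fun p => prime_of_mem) 0 N
  rw [empty_union, cnt_empty] at hM
  have h5 : log N * V ⌊exp (log N / s)⌋₊ * (N / log N) ≤ (FU s + ε / 2) * (N / log N) :=
    le_of_eq_of_le (by rw [V, PP]; field_simp) (hM.trans (h1 M))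
  linarith [le_of_mul_le_mul_right h5 (by positivity)]

theorem cell {σ τ c : ℝ} (hσ : 1 < σ) (hτ : σ < τ) (hc : 0 ≤ c)
    (H : Up (6 * (1 - 1 / τ + (τ - σ))) c) : ∀ ε > 0, ∀ᶠ N : ℕ in atTop, ∀ M M' : ℕ → ℕ,
      ∑ p ∈ primesIoc ⌊exp (log N / τ)⌋₊ ⌊exp (log N / σ)⌋₊, cnt (PP 6 N) (M p) (len p (M' p) N)
        ≤ ((τ - σ) * c / (σ - 1) + ε) * (N / log N) := by
  intro ε hε
  have hσ0 : 0 < σ := by linarith
  have h1σ : 0 < 1 - 1 / σ := by rw [sub_pos, div_lt_one hσ0]; exact hσ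
  have h1τ : 0 < 1 - 1 / τ := by rw [sub_pos, div_lt_one (by linarith)]; linarith
  have t : ContinuousAt (fun η : ℝ => (c + η) * (1 + η) / (1 - 1 / σ - η) * ((τ - σ) / σ + η)) 0 :=
    ContinuousAt.mul (ContinuousAt.div (by fun_prop) (by fun_prop) (by simpa using h1σ.ne'))
      (by fun_prop)
  have e : (c + 0) * (1 + 0) / (1 - 1 / σ - 0) * ((τ - σ) / σ + 0) < (τ - σ) * c / (σ - 1) + ε := by
    have : σ - 1 ≠ 0 := by linarith
    refine lt_of_eq_of_lt ?_ (lt_add_of_pos_right _ hε)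
    simp only [add_zero, sub_zero]
    field_simp
  obtain ⟨η, η0, η1, η2, η3⟩ : ∃ η : ℝ, 0 < η ∧ η ≤ 1 / 2 ∧ η < 1 - 1 / σ ∧ _ :=
    ((eventually_mem_nhdsWithin (a := (0 : ℝ)) (s := Set.Ioi 0)).and (nhdsWithin_le_nhds
      ((eventually_le_nhds (by norm_num)).and ((eventually_lt_nhds h1σ).and
        (t.eventually_lt_const e))))).exists
  obtain ⟨N₀, hN₀⟩ := eventually_atTop.mp (H η η0)
  filter_upwards [geom hσ hτ η0 η1 N₀] with N ⟨g1, g2, g3, g4⟩ M M'
  have l0 : 0 < log (N : ℝ) := by nlinarith [log_natCast_nonneg N]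
  have d0 : 0 < 1 - 1 / σ - η := by linarith
  have hp : ∀ p ∈ primesIoc ⌊exp (log N / τ)⌋₊ ⌊exp (log N / σ)⌋₊,
      cnt (PP 6 N) (M p) (len p (M' p) N)
        ≤ (c + η) * (1 + η) / (1 - 1 / σ - η) * (N / log N) * (1 / p) := by
    intro p hp
    obtain ⟨a1, -, a2, a3, a4⟩ := g4 (M' p) p hp
    have a5 := log_le_of_mem hp
    have a6 := lt_log_of_mem hp
    obtain ⟨a7, a8⟩ := abs_le.mp a3
    have p0 : (0 : ℝ) < p := by exact_mod_cast (prime_of_mem hp).pos
    have a9 := mul_le_mul_of_nonneg_left (a5.trans (div_le_self l0.le hσ.le)) (sub_pos.mpr hτ).le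
    have s1 : PP (6 * (1 - 1 / τ + (τ - σ))) (len p (M' p) N) ⊆ PP 6 N :=
      subset_of_log_le fun q hq => ⟨prime_of_mem hq, (log_le_of_mem hq).trans (by
        rw [div_le_iff₀ (by linarith)]
        linarith [show log (N : ℝ) / τ = 1 / τ * log N by ring])⟩
    refine (cnt_anti s1 _ _).trans ((hN₀ _ a1 _).trans ?_)
    have s2 : (1 - 1 / σ - η) * log N ≤ log (len p (M' p) N) := by
      linarith [show log (N : ℝ) / σ = 1 / σ * log N by ring]
    calc _ ≤ (c + η) * ((1 + η) * (N / p) / ((1 - 1 / σ - η) * log N)) := by gcongr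
      _ = _ := by field_simp
  refine (sum_le_sum hp).trans ?_
  rw [← mul_sum, mul_right_comm]
  refine mul_le_mul_of_nonneg_right (le_trans (mul_le_mul_of_nonneg_left ?_ (by positivity)) η3.le)
    (by positivity)
  have := log_le_sub_one_of_pos (show 0 < τ / σ from div_pos (by linarith) hσ0)
  linarith [(abs_le.mp g3).2, show (τ - σ) / σ = τ / σ - 1 by field_simp]

/-- Upper bounds for the contribution of the primes between `N ^ (1 - s / 6)` and
`N ^ (21 / 26)`. -/
def Tp (s c : ℝ) : Prop := ∀ ε > 0, ∀ᶠ N : ℕ in atTop, ∀ M M' : ℕ → ℕ,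
  ∑ p ∈ primesIoc ⌊exp (log N / (6 / (6 - s)))⌋₊ ⌊exp (log N / (26 / 21))⌋₊,
    cnt (PP 6 N) (M p) (len p (M' p) N) ≤ (c + ε) * (N / log N)

/-- The upper sieve function, frozen below `3`. -/
noncomputable def PU (s : ℝ) : ℝ := FU (max s 3)

theorem PU_nonneg (s : ℝ) : 0 ≤ PU s := FU_nonneg (lt_max_of_lt_right (by norm_num))

theorem tp_zero : Tp (15 / 13) 0 := fun ε hε => Eventually.of_forall fun N M M' => by
  rw [show (6 : ℝ) / (6 - 15 / 13) = 26 / 21 by norm_num, primesIoc, Ioc_self, filter_empty,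
    sum_empty]
  exact mul_nonneg (by linarith) (div_log_nonneg N)

theorem Tp.nonneg {s c : ℝ} (H : Tp s c) : 0 ≤ c := by
  refine le_of_forall_pos_le_add fun ε hε => ?_
  obtain ⟨N, h1, h3, h4⟩ := ((H _ hε).and
    ((tlog.eventually_gt_atTop 0).and (eventually_gt_atTop 0))).exists
  exact nonneg_of_mul_nonneg_left ((sum_nonneg fun p _ => cnt_nonneg _ _ _).trans (h1 0 0))
    (by positivity)

theorem floor_anti {σ τ : ℝ} (hσ : 0 < σ) (h : σ ≤ τ) (N : ℕ) :
    ⌊exp (log N / τ)⌋₊ ≤ ⌊exp (log N / σ)⌋₊ :=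
  Nat.floor_mono (exp_le_exp.mpr (div_le_div_of_nonneg_left (log_natCast_nonneg N) hσ h))

theorem Tp.mono {s s' c : ℝ} (H : Tp s' c) (h : s ≤ s') (h6 : s' < 6) : Tp s c := fun ε hε =>
  (H ε hε).mono fun N hN M M' => (sum_le_sum_of_subset_of_nonneg (filter_subset_filter _
    (Ioc_subset_Ioc_left (floor_anti (div_pos (by norm_num) (by linarith))
      (div_le_div_of_nonneg_left (by norm_num) (by linarith) (by linarith)) N)))
    fun p _ _ => cnt_nonneg _ _ _).trans (hN M M')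

theorem Tp.step {s s' c : ℝ} (H : Tp s c) (h0 : 15 / 13 ≤ s) (h : s < s') (h6 : s' < 6) :
    Tp s' (c + (s' - s) * (6 * PU (s' + 6 * (6 / (6 - s') - 6 / (6 - s))) / (s * (6 - s')))) := by
  intro ε hε
  have a0 : 0 < 6 - s' := by linarith
  have a1 : 0 < 6 - s := by linarith
  have a2 : 26 / 21 ≤ 6 / (6 - s) := by rw [le_div_iff₀ a1]; linarith
  have a3 : 6 / (6 - s) < 6 / (6 - s') := div_lt_div_of_pos_left (by norm_num) a0 (by linarith)
  have e1 : 6 * (1 - 1 / (6 / (6 - s')) + (6 / (6 - s') - 6 / (6 - s)))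
      = s' + 6 * (6 / (6 - s') - 6 / (6 - s)) := by rw [one_div_div]; ring
  have e2 : ∀ y, (6 / (6 - s') - 6 / (6 - s)) * y / (6 / (6 - s) - 1)
      = (s' - s) * (6 * y / (s * (6 - s'))) := fun y => by
    have : s ≠ 0 := by linarith
    rw [show 6 / (6 - s) - 1 = s / (6 - s) by field_simp; ring]
    field_simp
    ring
  have hu : Up (6 * (1 - 1 / (6 / (6 - s')) + (6 / (6 - s') - 6 / (6 - s))))
      (PU (s' + 6 * (6 / (6 - s') - 6 / (6 - s)))) := by
    rw [e1]
    exact (up_FU (lt_max_of_lt_right (by norm_num))).mono (by linarith) (le_max_left _ 3)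
  filter_upwards [H _ (half_pos hε), cell (by linarith) a3 (PU_nonneg _) hu _ (half_pos hε)]
    with N h1 h2 M M'
  rw [← sum_primesIoc_add _ (floor_anti (by linarith) a3.le N) (floor_anti (by norm_num) a2 N)]
  rw [e2] at h2
  linarith [h1 M M', h2 M M']

/-- The best bound. -/
noncomputable def BB (s : ℝ) : ℝ := sInf {c | Tp s c}

theorem Tp.ge {s c : ℝ} (H : Tp s c) : BB s ≤ c := csInf_le ⟨0, fun _ h => Tp.nonneg h⟩ H

theorem tp_BB {s : ℝ} (h0 : 15 / 13 ≤ s) (h6 : s < 6) : Tp s (BB s) := by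
  intro ε hε
  obtain ⟨c, h1, h2⟩ := exists_lt_of_csInf_lt (s := {c | Tp s c})
    (h0.eq_or_lt.elim (fun e => ⟨0, e ▸ tp_zero⟩) fun h => ⟨_, tp_zero.step le_rfl h h6⟩)
    (lt_add_of_pos_right (sInf {c | Tp s c}) (half_pos hε))
  filter_upwards [h1 _ (half_pos hε)] with N hN M M'
  exact (hN M M').trans (mul_le_mul_of_nonneg_right (by unfold BB; linarith) (div_log_nonneg N))

theorem cont_BB : ContinuousOn BB (Set.Icc (15 / 13) 5) := by
  have key : ∀ x ∈ Set.Icc (15 / 13 : ℝ) 5, ∀ y ∈ Set.Icc (15 / 13 : ℝ) 5, x < y →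
      dist (BB x) (BB y) ≤ 6 * PU 41 * dist x y := by
    intro x hx y hy h
    have h1 := ((tp_BB hy.1 (by linarith [hy.2])).mono h.le (by linarith [hy.2])).ge
    have h2 := ((tp_BB hx.1 (by linarith [hx.2])).step hx.1 h (by linarith [hy.2])).ge
    have h3 : 6 / (6 - y) ≤ 6 := div_le_self (by norm_num) (by linarith [hy.2])
    have h4 : 0 ≤ 6 / (6 - x) := div_nonneg (by norm_num) (by linarith [hx.2])
    have h5 : PU (y + 6 * (6 / (6 - y) - 6 / (6 - x))) ≤ PU 41 :=
      delay.mono (by linarith [hy.2])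
    have h6 : 6 * PU (y + 6 * (6 / (6 - y) - 6 / (6 - x))) / (x * (6 - y)) ≤ 6 * PU 41 :=
      (div_le_self (mul_nonneg (by norm_num) (PU_nonneg _))
        (one_le_mul_of_one_le_of_one_le (by linarith [hx.1]) (by linarith [hy.2]))).trans
        (by linarith)
    rw [dist_eq, dist_eq, abs_of_nonpos (by linarith), abs_of_nonpos (by linarith)]
    linarith [mul_le_mul_of_nonneg_left h6 (sub_pos.mpr h).le]
  refine (LipschitzOnWith.of_dist_le' (K := 6 * PU 41) fun x hx y hy => ?_).continuousOn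
  rcases lt_trichotomy x y with h | rfl | h
  · exact key x hx y hy h
  · simp
  · rw [dist_comm, dist_comm x]
    exact key y hy x hx h

theorem dini_BB {x : ℝ} (h0 : 15 / 13 ≤ x) (h5 : x < 5) :
    ∀ r > (x⁻¹ + (6 - x)⁻¹) * PU x, ∀ᶠ z in 𝓝[>] x, slope BB x z < r := by
  intro r hr
  have x0 : x ≠ 0 := by linarith
  have x6 : 6 - x ≠ 0 := by linarith
  have t : ContinuousAt (fun z => 6 * PU (z + 6 * (6 / (6 - z) - 6 / (6 - x))) / (x * (6 - z))) x :=
    ((delay.cP.continuousAt.comp (f := fun z => z + 6 * (6 / (6 - z) - 6 / (6 - x)))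
      (by fun_prop (disch := assumption))).const_mul 6).div (by fun_prop) (mul_ne_zero x0 x6)
  have e : 6 * PU (x + 6 * (6 / (6 - x) - 6 / (6 - x))) / (x * (6 - x)) < r := by
    rw [sub_self, mul_zero, add_zero]
    refine lt_of_eq_of_lt ?_ hr
    field_simp
    ring
  filter_upwards [nhdsWithin_le_nhds (t.eventually_lt_const e), Ioo_mem_nhdsGT h5] with z h1 hz
  refine lt_of_le_of_lt ?_ h1
  rw [slope_def_field, div_le_iff₀' (sub_pos.mpr hz.1)]
  linarith [((tp_BB h0 (by linarith)).step h0 hz.1 (by linarith [hz.2])).ge]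

theorem artanh_ge {x : ℝ} (h0 : 0 ≤ x) (h1 : x < 1) :
    2 * (x + x ^ 3 / 3 + x ^ 5 / 5) ≤ log ((1 + x) / (1 - x)) := by
  have h := sum_le_hasSum (range 3) (fun k _ => by positivity)
    (hasSum_log_sub_log_of_abs_lt_one (x := x) (by rwa [abs_of_nonneg h0]))
  rw [log_div (by linarith) (by linarith)]
  refine le_of_eq_of_le ?_ h
  norm_num [sum_range_succ]
  ring

theorem hasDerivAt_W {x : ℝ} (h0 : 0 < x) (h6 : x < 6) :
    HasDerivAt (fun s => log s - log (6 - s)) (x⁻¹ + (6 - x)⁻¹) x :=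
  ((hasDerivAt_log h0.ne').sub (((hasDerivAt_id x).const_sub 6).log
    (show 6 - x ≠ 0 by linarith))).congr_deriv (by simp only [id]; ring)

theorem BB_three : BB 3 ≤ 2 * log (21 / 5) := by
  have h := mono_of_dini (a := fun _ => 0) (b := fun _ => 1) (P := fun _ => 0) (f := BB)
    (W := fun s => 2 * (log s - log (6 - s))) (lP := fun _ => 0)
    (lf := fun x => (x⁻¹ + (6 - x)⁻¹) * PU x) (x₀ := 15 / 13) (x₁ := 3) (by norm_num)
    (fun x _ => hasDerivAt_const x _) (fun x _ => hasDerivAt_const x _)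
    (fun x hx => (hasDerivAt_W (by linarith [hx.1]) (by linarith [hx.2])).const_mul 2)
    continuousOn_const (cont_BB.mono (Set.Icc_subset_Icc_right (by norm_num))) (fun _ _ => le_rfl)
    (fun _ _ => zero_le_one)
    (fun x _ r hr => Eventually.of_forall fun z => by simpa [slope] using hr)
    (fun x hx => dini_BB hx.1 (by linarith [hx.2])) (fun x hx => ?_)
  · have e : log (21 / 5) = log (6 - 15 / 13) - log (15 / 13) := by
      rw [← log_div (by norm_num) (by norm_num)]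
      norm_num
    rw [show (6 : ℝ) - 3 = 3 by norm_num] at h
    linarith [tp_zero.ge]
  · have h1 : PU x ≤ 2 := (delay.const x hx.2.le).trans_le delay.upper
    have h2 : 0 ≤ x⁻¹ + (6 - x)⁻¹ :=
      add_nonneg (inv_nonneg.mpr (by linarith [hx.1])) (inv_nonneg.mpr (by linarith [hx.2]))
    linarith [mul_le_mul_of_nonneg_left h1 h2]

/-- An explicit antiderivative. -/
noncomputable def Om (v : ℝ) : ℝ := (-(61568 / 3) * v⁻¹ ^ 3 + 67456 * v⁻¹ ^ 2 - 167072 * v⁻¹
  - 114464 * log v + 43520 * v - 5872 * v ^ 2 + 2816 / 3 * v ^ 3 - 104 * v ^ 4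
  + 32 / 5 * v ^ 5) / 3645

theorem hasDerivAt_Om {v : ℝ} (hv : v ≠ 0) : HasDerivAt Om
    (2 * ((v - 2) / 3 + ((v - 2) / 3) ^ 3 / 3 + ((v - 2) / 3) ^ 5 / 5)
      * (4 * ((v - 2) / v + ((v - 2) / v) ^ 3 / 3) / v)) v := by
  have i := hasDerivAt_inv hv
  have d := hasDerivAt_id v
  refine ((((((((((((i.pow 3).const_mul _).add ((i.pow 2).const_mul _)).sub (i.const_mul _)).sub
    ((hasDerivAt_log hv).const_mul _)).add (d.const_mul _)).sub ((d.pow 2).const_mul _)).add
    ((d.pow 3).const_mul _)).sub ((d.pow 4).const_mul _)).add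
    ((d.pow 5).const_mul _)).div_const _).congr_deriv ?_)
  simp only [id]
  push_cast
  field_simp
  ring

theorem BB_five : BB 5 ≤ BB 3 + log 5 * PU 5 - 7007 / 10000 := by
  have h := mono_of_dini (a := fun s => log s - log (6 - s)) (b := fun _ => 1) (P := PU) (f := BB)
    (W := fun s => -Om (s - 1)) (lP := fun x => FL (x - 1) / (x - 1))
    (lf := fun x => (x⁻¹ + (6 - x)⁻¹) * PU x) (x₀ := 3) (x₁ := 5) (by norm_num)
    (fun x hx => hasDerivAt_W (by linarith [hx.1]) (by linarith [hx.2]))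
    (fun x _ => hasDerivAt_const x _)
    (fun x hx => ((hasDerivAt_Om (by linarith [hx.1])).comp_sub_const x 1).neg)
    delay.cP.continuousOn (cont_BB.mono (Set.Icc_subset_Icc_left (by norm_num)))
    (fun x hx => sub_nonneg.mpr (log_le_log (by linarith [hx.2]) (by linarith [hx.1])))
    (fun _ _ => zero_le_one) (fun x hx => delay.dP x hx.1)
    (fun x hx => dini_BB (by linarith [hx.1]) hx.2) (fun x hx => ?_)
  · rw [show (6 : ℝ) - 3 = 3 by norm_num, show (6 : ℝ) - 5 = 1 by norm_num, log_one,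
      show (3 : ℝ) - 1 = 2 by norm_num, show (5 : ℝ) - 1 = 4 by norm_num, Om, Om, log_four_eq] at h
    linarith [log_two_lt_d9]
  · obtain ⟨x3, x5⟩ := hx
    have x1 : 0 < x - 1 := by linarith
    have r0 : 0 ≤ (x - 1 - 2) / 3 := by linarith
    have u0 : 0 ≤ (x - 1 - 2) / (x - 1) := div_nonneg (by linarith) x1.le
    have h1 := artanh_ge r0 (by linarith)
    have h2 := artanh_ge u0 (by rw [div_lt_one x1]; linarith)
    rw [show (1 + (x - 1 - 2) / 3) / (1 - (x - 1 - 2) / 3) = x / (6 - x) by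
      rw [div_eq_div_iff (by linarith) (by linarith)]; ring,
      log_div (by linarith) (by linarith)] at h1
    rw [show (1 + (x - 1 - 2) / (x - 1)) / (1 - (x - 1 - 2) / (x - 1)) = x - 1 - 1 by
      rw [div_eq_iff (by rw [sub_ne_zero, ne_comm, Ne, div_eq_one_iff_eq x1.ne']; linarith)]
      field_simp
      ring] at h2
    have h3 := delay.lower' (s := x - 1) (by linarith) (by linarith)
    have h4 : 4 * ((x - 1 - 2) / (x - 1) + ((x - 1 - 2) / (x - 1)) ^ 3 / 3) / (x - 1)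
        ≤ FL (x - 1) / (x - 1) :=
      div_le_div_of_nonneg_right (by linarith [pow_nonneg u0 5]) x1.le
    linarith [mul_le_mul h1 h4 (by positivity) (le_trans (by positivity) h1)]

theorem top_lt : BB 5 + 1 / 200 ≤ 2 * FL 6 := by
  obtain ⟨g5, g6⟩ := delay.gap_five
  have h1 := FL_le (s := 5) (by norm_num)
  have h2 := le_FU (s := 6) (by norm_num)
  have h3 : log (21 / 5) ≤ 2 * log 5 - log 2 - log 3 + 1 / 125 := by
    have h4 := log_le_sub_one_of_pos (show (0 : ℝ) < 126 / 125 by norm_num)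
    rw [show (21 / 5 : ℝ) = 5 ^ 2 / 2 / 3 * (126 / 125) by norm_num,
      log_mul (by norm_num) (by norm_num), log_div (by norm_num) (by norm_num),
      log_div (by norm_num) (by norm_num), log_pow]
    push_cast
    linarith
  have h5 : log 5 * PU 5 ≤ 1.60944 * (exp (-eulerMascheroniConstant) * 5 + 197 / 10000) :=
    mul_le_mul (by linarith [log_five_lt_d9]) (by unfold PU; linarith) (PU_nonneg _) (by norm_num)
  rw [max_eq_left (by norm_num)] at g6
  linarith [BB_three, BB_five, kappa_ge, log_five_lt_d9, log_two_gt_d9, log_three_gt_d9]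

end Pool.Agent.P.MP_1b1bb8_nt.LS
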