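import Pool.Agent.P.MP_1b1bb8_nt.Lower

/-!
The construction of the two coprime integers.
-/

open Finset Real Filter Topology

namespace Pool.Agent.P.MP_1b1bb8_nt

open Pool.Agent.P.MP_3bc45c_nt

theorem ev_pow_le {ε : ℝ} (hε : 0 < ε) (D : ℝ) (k : ℕ) :
    ∀ᶠ t : ℝ in atTop, D * t ^ k ≤ exp (ε * t) := by
  filter_upwards [ev_poly_exp hε D k one_pos] with t ht
  rwa [exp_neg, ← div_eq_mul_inv, div_le_one (exp_pos _)] at ht

theorem lower_core {c : ℝ} (hc1 : 1 ≤ c) (hc : c < exp eulerMascheroniConstant) :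
    ∀ᶠ L : ℝ in atTop, ∃ n₁ n₂ : ℕ, (n₁ : ℝ) < exp L ∧ (n₂ : ℝ) < exp L ∧ Nat.Coprime n₁ n₂ ∧
      ∃ H : ℕ, 2 ≤ H ∧ c * L * log (log (log L)) / log (log L) ≤ H ∧ H < J n₁ ∧ H < J n₂ := by
  obtain ⟨η, hη, hη1, hηc⟩ := exists_eta (exp_pos _) hc
  obtain ⟨C, hC0, hC⟩ := card_smooth_le
  set G := exp eulerMascheroniConstant with hG
  have hG0 : 0 < G := exp_pos _
  obtain ⟨x₀, hx₀⟩ := eventually_atTop.mp (Pool.Agent.Lib.Mertens.mertens_third.eventually_le_const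
    (show exp (-eulerMascheroniConstant) < (1 + η) / G by
      rw [exp_neg, ← hG, ← one_div]
      exact div_lt_div_of_pos_right (by linarith) hG0))
  have t1 : Tendsto (fun L : ℝ => log L) atTop atTop := tendsto_log_atTop
  have t2 : Tendsto (fun L : ℝ => log (log L)) atTop atTop := t1.comp t1
  have t3 : Tendsto (fun L : ℝ => log (log (log L))) atTop atTop := t1.comp t2
  have h1η : 0 < 1 - η := by linarith
  have p1 := ((pi_scaled one_pos).sub (pi_scaled h1η)).eventually_const_le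
    (show η / 2 < 1 - (1 - η) by linarith)
  have p2 := ((pi_scaled h1η).sub (pi_scaled hη)).eventually_const_le
    (show 1 - 3 * η < 1 - η - η by linarith)
  have q1 := ((theta_scaled hη).add ((theta_scaled one_pos).sub
    (theta_scaled h1η))).eventually_lt_const (show η + (1 - (1 - η)) < 1 by linarith)
  have q2 := (theta_scaled h1η).eventually_lt_const (show 1 - η < 1 by linarith)
  filter_upwards [p1, p2, q1, q2, eventually_gt_atTop 0, t1.eventually_gt_atTop 0,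
    t2.eventually_gt_atTop 0, t3.eventually_ge_atTop 1,
    t3.eventually_ge_atTop (log (10 / η) / η),
    t3.eventually (ev_pow_le one_pos ((c + 1) * (8 * C + 2) / η) 1),
    t2.eventually (ev_pow_le one_pos 8 2), t2.eventually (ev_pow_le one_pos (2 / η) 1),
    t2.eventually (ev_pow_le one_pos (2 * |x₀|) 1),
    t1.eventually (ev_pow_le one_half_pos (8 / η) 1),
    t1.eventually (ev_pow_le one_pos (2 / η) 1)]
    with L p1 p2 q1 q2 hL0 hl0 hl₂0 hl₃1 h10 e1 e2 e3 e4 e5 e6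
  simp only [one_mul, pow_one] at p1 q1 e1 e2 e3 e4 e5 e6
  obtain ⟨l, hl⟩ : ∃ l, log L = l := ⟨_, rfl⟩
  simp only [hl] at p1 p2 hl0 hl₂0 hl₃1 h10 e1 e2 e3 e4 e5 e6 ⊢
  obtain ⟨l₂, hl₂⟩ : ∃ l₂, log l = l₂ := ⟨_, rfl⟩
  simp only [hl₂] at hl₂0 hl₃1 h10 e1 e2 e3 e4 ⊢
  obtain ⟨l₃, hl₃⟩ : ∃ l₃, log l₂ = l₃ := ⟨_, rfl⟩
  simp only [hl₃] at hl₃1 h10 e1 ⊢
  have x1 : exp l = L := by rw [← hl, exp_log hL0]
  have x2 : exp l₂ = l := by rw [← hl₂, exp_log hl0]
  have x3 : exp l₃ = l₂ := by rw [← hl₃, exp_log hl₂0]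
  rw [x3] at e1
  rw [x2] at e2 e3 e4
  rw [x1] at e6
  have hl₃0 : 0 < l₃ := by linarith
  have o1 : l₃ + 1 ≤ l₂ := x3 ▸ add_one_le_exp l₃
  have o2 : l₂ + 1 ≤ l := x2 ▸ add_one_le_exp l₂
  rw [div_mul_eq_mul_div, div_le_iff₀' hη] at e1 e3 e5 e6
  rw [div_le_iff₀' hη, log_le_iff_le_exp (by positivity)] at h10
  -- the ratio `r`
  obtain ⟨r, hr⟩ : ∃ r, l₃ / l₂ = r := ⟨_, rfl⟩
  have r0 : 0 < r := hr ▸ div_pos hl₃0 hl₂0
  have r1 : (c + 1) * (8 * C + 2) * r ≤ η := by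
    rw [← hr, ← mul_div_assoc, div_le_iff₀ hl₂0]; exact e1
  have r2 : 1 / l₂ ≤ r := hr ▸ div_le_div_of_nonneg_right hl₃1 hl₂0.le
  have r3 : 2 ≤ η * (L * r) := by
    have : 2 ≤ η * L * (1 / l₂) := by
      rw [mul_one_div, le_div_iff₀ hl₂0]; linarith
    linarith [mul_le_mul_of_nonneg_left r2 (mul_pos hη hL0).le]
  have Lr : 0 < L * r := mul_pos hL0 r0
  -- the length `H`
  obtain ⟨H, H1, H2⟩ : ∃ H : ℕ, c * (L * r) ≤ H ∧ (H : ℝ) ≤ (c + η) * (L * r) :=
    ⟨⌈c * (L * r)⌉₊, Nat.le_ceil _, by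
      have := (Nat.ceil_lt_add_one (show 0 ≤ c * (L * r) by positivity)).le
      linarith⟩
  have H3 : L * r ≤ H := (le_mul_of_one_le_left Lr.le hc1).trans H1
  have H4 : 2 ≤ H := by
    have : (2 : ℝ) ≤ H := by linarith [mul_le_mul_of_nonneg_right hη1 Lr.le]
    exact_mod_cast this
  have H5 : (8 * C + 2) * H ≤ η * L := by
    have h1 : (H : ℝ) ≤ (c + 1) * (L * r) :=
      H2.trans (mul_le_mul_of_nonneg_right (by linarith) Lr.le)
    calc (8 * C + 2) * H ≤ (8 * C + 2) * ((c + 1) * (L * r)) :=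
          mul_le_mul_of_nonneg_left h1 (by positivity)
      _ = (c + 1) * (8 * C + 2) * r * L := by ring
      _ ≤ _ := mul_le_mul_of_nonneg_right r1 hL0.le
  have H0 : (0 : ℝ) < H := by linarith
  have H6 : (H : ℝ) ≤ η * L := by linarith [mul_pos hC0 H0]
  have H7 : (1 - η) * l ≤ log H := by
    have h1 : L * (1 / l₂) ≤ H := (mul_le_mul_of_nonneg_left r2 hL0.le).trans H3
    have h2 := log_le_log (by positivity) h1
    rw [mul_one_div, log_div hL0.ne' hl₂0.ne', hl, hl₃] at h2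
    linarith
  -- the smoothness bound `z`
  obtain ⟨u, hu⟩ : ∃ u, (1 + 6 * η) * l₂ / l₃ = u := ⟨_, rfl⟩
  have u0 : 0 < u := hu ▸ by positivity
  have u1 : u * r = 1 + 6 * η := by rw [← hu, ← hr]; field_simp
  have u2 : u ≤ 2 * l₂ := by
    rw [← hu]
    refine (div_le_self (by positivity) hl₃1).trans ?_
    exact mul_le_mul_of_nonneg_right (by linarith) hl₂0.le
  have u3 : 2 ≤ u := by
    have h0 := mul_nonneg (sub_nonneg.mpr hc1) (mul_pos (show 0 < 8 * C + 2 by positivity) r0).le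
    have h1 : 2 * r ≤ 1 := by linarith [mul_pos hC0 r0]
    by_contra h2
    linarith [mul_pos (sub_pos.mpr (not_le.mp h2)) r0]
  have u4 : l / (2 * l₂) ≤ l / u := div_le_div_of_nonneg_left hl0.le u0 u2
  have u5 : l / u ≤ l / 2 := div_le_div_of_nonneg_left hl0.le (by norm_num) u3
  have u6 : 1 ≤ η * (l / u) := by
    have : 1 ≤ η * (l / (2 * l₂)) := by
      rw [← mul_div_assoc, le_div_iff₀ (by positivity)]; linarith
    exact this.trans (mul_le_mul_of_nonneg_left u4 hη.le)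
  have u7 : 4 * l₂ ≤ l / u := by
    refine le_trans ?_ u4
    rw [le_div_iff₀ (by positivity)]; linarith
  have u8 : x₀ ≤ l / u := by
    refine (le_abs_self x₀).trans (le_trans ?_ u4)
    rw [le_div_iff₀ (by positivity)]; linarith
  obtain ⟨z, z1, z2⟩ : ∃ z : ℕ, exp (l / u) ≤ z ∧ (z : ℝ) ≤ exp (l / u) + 1 :=
    ⟨⌈exp (l / u)⌉₊, Nat.le_ceil _, (Nat.ceil_lt_add_one (exp_pos _).le).le⟩
  have z3 : l / u + 1 ≤ z := (add_one_le_exp _).trans z1
  have z0 : (2 : ℝ) ≤ z := by linarith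
  have lz1 : l / u ≤ log z := by rwa [le_log_iff_exp_le (by linarith)]
  have lz2 : log z ≤ l / u + 1 := by
    rw [log_le_iff_le_exp (by linarith), exp_add]
    have h2 : exp (l / u) * 2 ≤ exp (l / u) * exp 1 :=
      mul_le_mul_of_nonneg_left (by linarith [add_one_le_exp (1 : ℝ)]) (exp_pos _).le
    have h3 := one_le_exp (show 0 ≤ l / u by positivity)
    linarith
  have lz0 : 0 < log (z : ℝ) := by linarith
  have y1 : exp (l / 2) + 1 ≤ η / 4 * (L / l) := by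
    have h1 := one_le_exp (show 0 ≤ l / 2 by positivity)
    have h2 : exp (l / 2) * exp (l / 2) = L := by rw [← exp_add, add_halves, x1]
    rw [show 1 / 2 * l = l / 2 by ring] at e5
    rw [← mul_div_assoc, le_div_iff₀ hl0, ← h2]
    linarith [mul_le_mul_of_nonneg_right e5 (exp_pos (l / 2)).le,
      mul_nonneg (sub_nonneg.mpr h1) hl0.le]
  have Ll : L / l ≤ L := div_le_self hL0.le (by linarith)
  have z4 : (z : ℝ) ≤ η * L := by
    have := exp_le_exp.mpr u5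
    linarith [mul_le_mul_of_nonneg_left Ll hη.le, mul_pos hη hL0]
  have ηL : η * L ≤ (1 - η) * L := mul_le_mul_of_nonneg_right (by linarith) hL0.le
  have ηL' : (1 - η) * L ≤ L := by linarith [mul_pos hη hL0]
  have zle : z ≤ ⌊η * L⌋₊ := Nat.le_floor z4
  have Hle : H ≤ ⌊η * L⌋₊ := Nat.le_floor H6
  have f1 : ⌊η * L⌋₊ ≤ ⌊(1 - η) * L⌋₊ := Nat.floor_mono ηL
  have f2 : ⌊(1 - η) * L⌋₊ ≤ ⌊L⌋₊ := Nat.floor_mono ηL'
  have pr : ∀ a b : ℕ, ∀ p ∈ primesIoc a b, p.Prime := fun a b p hp => (mem_primesIoc.mp hp).2.2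
  have dj : ∀ a b a' b' : ℕ, b ≤ a' → Disjoint (primesIoc a b) (primesIoc a' b') :=
    fun a b a' b' h => disjoint_left.mpr fun p hp hp' => by
      have := mem_primesIoc.mp hp
      have := mem_primesIoc.mp hp'
      omega
  have pru : ∀ a b a' b' : ℕ, ∀ p ∈ primesIoc a b ∪ primesIoc a' b', p.Prime :=
    fun a b a' b' p hp => (mem_union.mp hp).elim (pr _ _ p) (pr _ _ p)
  refine ⟨∏ p ∈ primesIoc z H ∪ primesIoc ⌊(1 - η) * L⌋₊ ⌊L⌋₊, p,
    ∏ p ∈ primesIoc 0 z ∪ primesIoc ⌊η * L⌋₊ ⌊(1 - η) * L⌋₊, p, prod_lt_exp (pru _ _ _ _) ?_,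
    prod_lt_exp (pru _ _ _ _) ?_, ?_, H, H4, ?_, ?_, ?_⟩
  · rw [sum_union (dj _ _ _ _ (Hle.trans f1)), sum_log_primesIoc ηL']
    have h1 : ∑ p ∈ primesIoc z H, log (p : ℝ) ≤ Chebyshev.theta (η * L) :=
      sum_le_sum_of_subset_of_nonneg (filter_subset_filter _ (Ioc_subset_Ioc (Nat.zero_le _) Hle))
        fun p _ _ => log_natCast_nonneg p
    rw [← sub_div, ← add_div, div_lt_one hL0] at q1
    linarith
  · rw [div_lt_one hL0] at q2
    refine lt_of_le_of_lt ?_ q2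
    exact sum_le_sum_of_subset_of_nonneg (union_subset
      (filter_subset_filter _ (Ioc_subset_Ioc_right (zle.trans f1)))
      (filter_subset_filter _ (Ioc_subset_Ioc_left (Nat.zero_le _))))
      fun p _ _ => log_natCast_nonneg p
  · refine Nat.Coprime.prod_left fun p hp => Nat.Coprime.prod_right fun q hq => ?_
    refine (Nat.coprime_primes (pru _ _ _ _ p hp) (pru _ _ _ _ q hq)).mpr ?_
    simp only [mem_union, mem_primesIoc] at hp hq
    omega
  · calc c * L * l₃ / l₂ = c * (L * r) := by rw [← hr]; ring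
      _ ≤ H := H1
  · refine lt_J_of_classes (pr _ _) (pr _ _) (dj _ _ _ _ (Hle.trans f1)) (fun _ => 0) H4 ?_
    have h1 : ((Ioc 0 H).filter fun n => ∀ p ∈ primesIoc z H, ¬ p ∣ 0 + n) ⊆ smoothUpTo H z := by
      intro n hn
      obtain ⟨h2, h3⟩ := mem_filter.mp hn
      have h4 := mem_Ioc.mp h2
      refine mem_smoothUpTo.mpr ⟨h4.1, h4.2, fun p hp hd => ?_⟩
      by_contra h5
      exact h3 p (mem_primesIoc.mpr ⟨not_le.mp h5, (Nat.le_of_dvd h4.1 hd).trans h4.2, hp⟩)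
        (by rwa [zero_add])
    refine (card_le_card h1).trans ?_
    have y2 := Nat.le_ceil (exp (l / 2))
    have y3 := (Nat.ceil_lt_add_one (exp_pos (l / 2)).le).le
    have y4 : (2 : ℝ) ≤ ⌈exp (l / 2)⌉₊ := by linarith [add_one_le_exp (l / 2)]
    have h2 := hC ((1 - η) * l₃ / log z) H z ⌈exp (l / 2)⌉₊ (by positivity)
      (by rw [div_le_iff₀ lz0]; linarith [mul_pos hη hl₃0]) (by exact_mod_cast z0)
      (by exact_mod_cast y4)
    have h3 : (z : ℝ) ^ ((1 - η) * l₃ / log z) = exp ((1 - η) * l₃) := by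
      rw [rpow_def_of_pos (by linarith)]
      congr 1
      field_simp
    rw [h3] at h2
    have h4 := smooth_small hη hη1 hC0 x2 x3 hl₃0 h10 H0 H7 lz0 (by rw [hu]; linarith)
      (by linarith) (ly₀ := log ⌈exp (l / 2)⌉₊) (by rwa [le_log_iff_exp_le (by linarith)])
    have h5 : 2 * C * (H / l) ≤ η / 4 * (L / l) := by
      rw [← mul_div_assoc, ← mul_div_assoc]
      exact div_le_div_of_nonneg_right (by linarith) hl0.le
    have h6 : η / 2 * (L / l) ≤ (primesIoc ⌊(1 - η) * L⌋₊ ⌊L⌋₊).card := by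
      rw [card_primesIoc f2, ← mul_div_assoc, div_le_iff₀ hl0]
      rw [← sub_div, ← sub_mul, le_div_iff₀ hL0] at p1
      exact p1
    have h7 : ((smoothUpTo H z).card : ℝ) ≤ (primesIoc ⌊(1 - η) * L⌋₊ ⌊L⌋₊).card := by linarith
    exact_mod_cast h7
  · obtain ⟨a, ha⟩ := greedy (primesIoc 0 z) (fun p hp => (mem_primesIoc.mp hp).1) (Ioc 0 H)
    refine lt_J_of_classes (pr _ _) (pr _ _) (dj _ _ _ _ zle) a H4 ?_
    have h1 := hx₀ z (by linarith)
    rw [Nat.floor_natCast] at h1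
    rw [Nat.card_Ioc, Nat.sub_zero] at ha
    have h2 : ∏ p ∈ primesIoc 0 z, (1 - 1 / (p : ℝ)) ≤ (1 + η) / G / (l / u) := by
      refine le_trans ?_ (div_le_div_of_nonneg_left (by positivity) (by positivity) lz1)
      rw [le_div_iff₀' lz0]
      exact h1
    have h3 : (H : ℝ) * ∏ p ∈ primesIoc 0 z, (1 - 1 / (p : ℝ)) ≤ (1 - 3 * η) * (L / l) :=
      calc _ ≤ (c + η) * (L * r) * ((1 + η) / G / (l / u)) :=
            mul_le_mul H2 h2 (V_pos z).le (by positivity)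
        _ = (c + η) * (u * r) * ((1 + η) / G) * (L / l) := by field_simp
        _ ≤ _ := by rw [u1]; exact mul_le_mul_of_nonneg_right hηc (by positivity)
    have h6 : (1 - 3 * η) * (L / l) ≤ (primesIoc ⌊η * L⌋₊ ⌊(1 - η) * L⌋₊).card := by
      rw [card_primesIoc f1, ← mul_div_assoc, div_le_iff₀ hl0]
      rw [← sub_div, ← sub_mul, le_div_iff₀ hL0] at p2
      exact p2
    exact_mod_cast ha.trans (h3.trans h6)

end Pool.Agent.P.MP_1b1bb8_nt
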