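import Pool.Agent.P.MP_1b1bb8_nt.LowerCore

open Finset Real Filter

namespace Pool.Agent.Results.MP_1b1bb8_nt.LowerBound

open Pool.Agent.P.MP_1b1bb8_nt

theorem result (c : ℝ) (hc : c < Real.exp Real.eulerMascheroniConstant) :
    ∃ x₀ : ℕ, ∀ x : ℕ, x₀ ≤ x → ∃ n₁ n₂ : ℕ, n₁ < n₂ ∧ n₂ < x ∧ Nat.Coprime n₁ n₂ ∧
      c * Real.log x * Real.log (Real.log (Real.log (Real.log x)))
        / Real.log (Real.log (Real.log x)) < (J n₁ : ℝ) ∧
      c * Real.log x * Real.log (Real.log (Real.log (Real.log x)))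
        / Real.log (Real.log (Real.log x)) < (J n₂ : ℝ) := by
  have h0 : 1 < exp eulerMascheroniConstant :=
    one_lt_exp_iff.mpr (by linarith [one_half_lt_eulerMascheroniConstant])
  have t1 : Tendsto (fun x : ℕ => log (x : ℝ)) atTop atTop :=
    tendsto_log_atTop.comp tendsto_natCast_atTop_atTop
  have t3 := tendsto_log_atTop.comp (tendsto_log_atTop.comp t1)
  refine eventually_atTop.mp ?_
  filter_upwards [t1.eventually (lower_core (le_max_right c 1) (max_lt hc h0)),
    t1.eventually_ge_atTop 0, t3.eventually_ge_atTop 1, eventually_gt_atTop 0]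
    with x hx hx1 hx3 hx0
  obtain ⟨n₁, n₂, h1, h2, hco, H, H2, hH, J1, J2⟩ := hx
  simp only [Function.comp] at hx3
  rw [exp_log (by exact_mod_cast hx0), Nat.cast_lt] at h1 h2
  have e0 : 0 ≤ log (log (log (log (x : ℝ)))) := log_nonneg hx3
  have e1 : c * log x * log (log (log (log x))) / log (log (log (x : ℝ))) ≤ H := by
    refine le_trans ?_ hH
    have := le_max_left c 1
    gcongr
  have e2 : c * log x * log (log (log (log x))) / log (log (log (x : ℝ))) < J n₁ :=
    e1.trans_lt (by exact_mod_cast J1)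
  have e3 : c * log x * log (log (log (log x))) / log (log (log (x : ℝ))) < J n₂ :=
    e1.trans_lt (by exact_mod_cast J2)
  rcases lt_trichotomy n₁ n₂ with h | h | h
  · exact ⟨n₁, n₂, h, h2, hco, e2, e3⟩
  · subst h
    rw [Nat.coprime_self] at hco
    subst hco
    exact absurd J1 (by rw [show J 1 = 0 by decide +kernel]; omega)
  · exact ⟨n₂, n₁, h, h1, hco.symm, e3, e2⟩

end Pool.Agent.Results.MP_1b1bb8_nt.LowerBound
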