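import Pool.Agent.P.MP_1b1bb8_nt.Pair

/-!
Asymptotic form of the two set inequality.
-/

open Finset Real Filter Topology

namespace Pool.Agent.P.MP_1b1bb8_nt

theorem exists_eps {β : ℝ} (hβ : 1 + 2 * exp (-(3 / 2)) < β) : ∃ ε υ b : ℝ, 0 < ε ∧ ε ≤ 1 ∧
    υ = (β - ε) / 3 ∧ b = υ - 2 * ε + 2 * (υ - ε) / (1 + ε) ∧ ε < υ ∧ 1 + ε + 2 * ε < b ∧
    1 + ε ≤ β ∧ 4 * ε + (1 + ε) * (2 * (υ - ε) / b * (log ((1 + ε) / (υ - ε))
      + log ((b - υ - ε) / (b - (1 + ε) - 2 * ε)))) < 1 := by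
  have h0 : 0 < exp (-(3 / 2) : ℝ) := exp_pos _
  have hβ1 : 0 < β - 1 := by linarith
  have hβ0 : 0 < β := by linarith
  have t0 : Tendsto (fun ε : ℝ => ε) (𝓝 0) (𝓝 0) := tendsto_id
  have tυ : Tendsto (fun ε : ℝ => (β - ε) / 3) (𝓝 0) (𝓝 (β / 3)) := by
    simpa using (t0.const_sub β).div_const 3
  have t1 : Tendsto (fun ε : ℝ => 1 + ε) (𝓝 0) (𝓝 1) := by simpa using t0.const_add 1
  have t2 : Tendsto (fun ε : ℝ => 2 * ε) (𝓝 0) (𝓝 0) := by simpa using t0.const_mul 2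
  have tw : Tendsto (fun ε : ℝ => (β - ε) / 3 - ε) (𝓝 0) (𝓝 (β / 3)) := by simpa using tυ.sub t0
  have tb : Tendsto (fun ε : ℝ => (β - ε) / 3 - 2 * ε + 2 * ((β - ε) / 3 - ε) / (1 + ε)) (𝓝 0)
      (𝓝 β) := by
    have := (tυ.sub t2).add ((tw.const_mul 2).div t1 one_ne_zero)
    have e : β / 3 - 0 + 2 * (β / 3) / 1 = β := by ring
    rw [e] at this
    exact this
  have tΦ := (t0.const_mul 4).add (t1.mul ((((tw.const_mul 2).div tb hβ0.ne').mul
    (((t1.div tw (by positivity)).log (by positivity)).add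
      ((((tb.sub tυ).sub t0).div ((tb.sub t1).sub t2) (by linarith)).log
        (div_pos (by linarith) (by linarith)).ne')))))
  have hval : 4 * 0 + 1 * (2 * (β / 3) / β * (log (1 / (β / 3))
      + log ((β - β / 3 - 0) / (β - 1 - 0)))) < 1 := by
    rw [← log_mul (by positivity) (div_pos (by linarith) (by linarith)).ne']
    have e1 : 1 / (β / 3) * ((β - β / 3 - 0) / (β - 1 - 0)) = 2 / (β - 1) := by
      rw [sub_zero, sub_zero]; field_simp; ring
    have e2 : 2 * (β / 3) / β = 2 / 3 := by field_simp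
    have e3 : log (2 / (β - 1)) < 3 / 2 := by
      rw [log_lt_iff_lt_exp (by positivity), div_lt_iff₀ hβ1]
      have : exp (3 / 2 : ℝ) * exp (-(3 / 2)) = 1 := by rw [← exp_add]; simp
      nlinarith [exp_pos (3 / 2 : ℝ)]
    rw [e1, e2]
    linarith
  have ev : ∀ᶠ ε : ℝ in 𝓝[>] 0, _ := (eventually_mem_nhdsWithin (a := (0 : ℝ))).and
    (nhdsWithin_le_nhds ((t0.eventually_le_const one_pos).and
      ((tw.eventually_const_lt (show 0 < β / 3 by positivity)).and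
      ((((tb.sub t1).sub t2).eventually_const_lt (show 0 < β - 1 - 0 by linarith)).and
      ((t1.eventually_le_const (show 1 < β by linarith)).and (tΦ.eventually_lt_const hval))))))
  obtain ⟨ε, e0, e1, e2, e3, e4, e5⟩ := ev.exists
  exact ⟨ε, _, _, e0, e1, rfl, rfl, by linarith, by linarith, e4, e5⟩

theorem ev_poly_exp {ε : ℝ} (hε : 0 < ε) (D : ℝ) (k : ℕ) {δ : ℝ} (hδ : 0 < δ) :
    ∀ᶠ l : ℝ in atTop, D * l ^ k * exp (-(ε * l)) ≤ δ := by
  have h := ((tendsto_pow_mul_exp_neg_atTop_nhds_zero k).comp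
    (tendsto_id.const_mul_atTop hε)).const_mul (D / ε ^ k)
  rw [mul_zero] at h
  filter_upwards [h.eventually_le_const hδ] with l hl
  refine le_trans (le_of_eq ?_) hl
  simp only [Function.comp, id, mul_pow]
  field_simp

theorem ev_log_le {δ : ℝ} (hδ : 0 < δ) (A D : ℝ) : ∀ᶠ u : ℝ in atTop, A + D * log u ≤ δ * u := by
  have h1 := (isLittleO_log_id_atTop.const_mul_left D).bound (half_pos hδ)
  filter_upwards [h1, eventually_ge_atTop (2 * A / δ), eventually_ge_atTop 0] with u h2 h3 h4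
  rw [div_le_iff₀' hδ] at h3
  simp only [id, norm_eq_abs, abs_of_nonneg h4] at h2
  linarith [le_abs_self (D * log u)]

theorem upper_core {β : ℝ} (hβ : 1 + 2 * exp (-(3 / 2)) < β) (hβ2 : β ≤ 2) :
    ∀ᶠ l : ℝ in atTop, ∀ S S' : Finset ℕ, (∀ p ∈ S, p.Prime) → (∀ p ∈ S', p.Prime) →
      Disjoint S S' → (S.card : ℝ) ≤ 2 * exp l → (S'.card : ℝ) ≤ 2 * exp l → ∀ N N' H : ℕ,
      exp (β * l) ≤ 2 * H → (∀ m ∈ Ioc N (N + H), ∃ p ∈ S, p ∣ m) →
      (∀ m ∈ Ioc N' (N' + H), ∃ p ∈ S', p ∣ m) → False := by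
  obtain ⟨ε, υ, b, hε, hε1, hυ, hb, hευ, hζ, hεβ, hΦ⟩ := exists_eps hβ
  obtain ⟨C, hC0, hC⟩ := exists_window
  obtain ⟨c, c', hc0, -, hc⟩ := Pool.Agent.Lib.Mertens.mertens_third_bounds
  have hυ0 : 0 < υ := by linarith
  have hυ1 : υ ≤ 1 := by linarith
  have tU : Tendsto (fun l : ℝ => υ * l) atTop atTop := tendsto_id.const_mul_atTop hυ0
  filter_upwards [tU.eventually_ge_atTop 1, tU.eventually_gt_atTop (C / ε),
    eventually_ge_atTop (C / ε ^ 2), eventually_ge_atTop (2 + C),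
    tU.eventually (ev_log_le hε ((1 + ε) * (C - C / ε * log c) + (1 + 2 * ε) * (C / ε))
      ((1 + ε) * (C / ε))),
    ev_poly_exp hε (8 / c ^ 5) 6 (half_pos hε), ev_poly_exp hε (6 / c) 1 (half_pos hε)]
    with l l1 l2 l3 l4 l5 l6 l7 S S' hS hS' hd hM hM' N N' H hH hcov hcov'
  have hl : 0 < l := by linarith
  have hH0 : (0 : ℝ) < H := by linarith [exp_pos (β * l)]
  have hK : ∀ T : Finset ℕ, (∀ p ∈ T, p.Prime ∧ log (p : ℝ) ≤ υ * l) → K T ≤ υ * l / c := by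
    intro T hT
    have h1 := (hc (exp (υ * l)) (by linarith [add_one_le_exp (υ * l)])).1
    rw [log_exp] at h1
    have h2 : T ⊆ (Ioc 0 ⌊exp (υ * l)⌋₊).filter Nat.Prime := fun p hp => by
      have h5 : (0 : ℝ) < p := by exact_mod_cast (hT p hp).1.pos
      refine mem_filter.mpr ⟨mem_Ioc.mpr ⟨(hT p hp).1.pos, ?_⟩, (hT p hp).1⟩
      rw [Nat.le_floor_iff (exp_pos _).le, ← log_le_iff_le_exp h5]
      exact (hT p hp).2
    refine (K_mono (fun p hp => (mem_filter.mp hp).2) h2).trans ?_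
    rw [K, prod_inv_distrib, ← inv_div]
    exact inv_anti₀ (by positivity) h1
  have main := pair_ineq hC0.le hC hS hS' hd (by exact_mod_cast hH0) hcov hcov'
    (U := υ * l) (Z := (1 + ε) * l) (h₁ := C / ε) (h := ε * l) (κ := 1 + ε) (B := b * l)
    (by positivity) l2 (le_of_eq (by field_simp)) (by positivity) (by nlinarith)
    (by rw [div_le_iff₀ (by positivity)] at l3; nlinarith) (by rw [hb]; ring) (by nlinarith)
    (by nlinarith) l1 hK hM hM'
  have a0 : (1 + ε) * (υ * l + C + C / ε * log (υ * l / c)) / (υ * l - C / ε) ≤ 1 + 2 * ε := by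
    rw [div_le_iff₀ (by linarith), log_div (by linarith) hc0.ne']
    nlinarith
  have a1 : 2 * (υ * l - ε * l) / (b * l) = 2 * (υ - ε) / b := by
    rw [← sub_mul, ← mul_assoc, mul_div_mul_right _ _ hl.ne']
  have a2 : (1 + ε) * l / (υ * l - ε * l) = (1 + ε) / (υ - ε) := by
    rw [← sub_mul, mul_div_mul_right _ _ hl.ne']
  have a3 : (b * l - υ * l - ε * l) / (b * l - (1 + ε) * l - 2 * (ε * l))
      = (b - υ - ε) / (b - (1 + ε) - 2 * ε) := by
    rw [← mul_assoc, ← sub_mul, ← sub_mul, ← sub_mul, ← sub_mul, mul_div_mul_right _ _ hl.ne']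
  have hKb : υ * l / c ≤ l / c := div_le_div_of_nonneg_right (by nlinarith) hc0.le
  have hinv : 1 / (H : ℝ) ≤ 2 * exp (-(β * l)) := by
    rw [exp_neg, ← div_eq_mul_inv, div_le_div_iff₀ hH0 (exp_pos _)]
    linarith
  have a4 : (υ * l / c) ^ 5 * (2 + (1 + ε) * l + C) * exp (3 * (υ * l)) / H ≤ ε / 2 := by
    refine le_trans ?_ l6
    have e1 : exp (3 * (υ * l)) * exp (-(β * l)) = exp (-(ε * l)) := by
      rw [← exp_add, hυ]; congr 1; ring
    have e2 : 2 + (1 + ε) * l + C ≤ 4 * l := by nlinarith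
    calc _ = (υ * l / c) ^ 5 * (2 + (1 + ε) * l + C) * exp (3 * (υ * l)) * (1 / H) := by ring
      _ ≤ (l / c) ^ 5 * (4 * l) * exp (3 * (υ * l)) * (2 * exp (-(β * l))) := by gcongr
      _ = 8 / c ^ 5 * l ^ 6 * (exp (3 * (υ * l)) * exp (-(β * l))) := by ring
      _ = _ := by rw [e1]
  have a5 : υ * l / c * (2 * exp l) * (exp (-((1 + ε) * l)) + 1 / H) ≤ ε / 2 := by
    refine le_trans ?_ l7
    have e1 : exp l * exp (-((1 + ε) * l)) = exp (-(ε * l)) := by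
      rw [← exp_add]; congr 1; ring
    have e2 : exp (-(β * l)) ≤ exp (-((1 + ε) * l)) := exp_le_exp.mpr (by nlinarith)
    calc _ ≤ l / c * (2 * exp l) * (3 * exp (-((1 + ε) * l))) := by
          gcongr
          linarith
      _ = 6 / c * l ^ 1 * (exp l * exp (-((1 + ε) * l))) := by ring
      _ = _ := by rw [e1]
  rw [a1, a2, a3] at main
  linarith

end Pool.Agent.P.MP_1b1bb8_nt
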