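import Pool.Agent.P.MP_1b1bb8_nt.Gap
import Pool.Agent.P.MP_1b1bb8_nt.Upper

open Finset Real Filter

namespace Pool.Agent.Results.MP_1b1bb8_nt.UpperBound

open Pool.Agent.P.MP_1b1bb8_nt

theorem card_le {n x : ℕ} (hn : n ≠ 0) (hx : n < x) : (n.primeFactors.card : ℝ) ≤ 2 * log x := by
  have h1 : 2 ^ n.primeFactors.card ≤ n :=
    (Finset.pow_card_le_prod _ _ 2 fun p hp => (Nat.prime_of_mem_primeFactors hp).two_le).trans
      (Nat.le_of_dvd (Nat.pos_of_ne_zero hn) (Nat.prod_primeFactors_dvd n))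
  have h2 : (2 : ℝ) ^ n.primeFactors.card ≤ x := by exact_mod_cast h1.trans hx.le
  have h3 := log_le_log (by positivity) h2
  rw [log_pow] at h3
  have h4 : (0 : ℝ) ≤ n.primeFactors.card := Nat.cast_nonneg _
  nlinarith [log_two_gt_d9]

theorem result (β : ℝ) (hβ : 1 + 2 * Real.exp (-(3 / 2)) < β) :
    ∃ x₀ : ℕ, ∀ x : ℕ, x₀ ≤ x → ∀ n₁ n₂ : ℕ, n₁ < x → n₂ < x → Nat.Coprime n₁ n₂ →
      ((min (J n₁) (J n₂) : ℕ) : ℝ) ≤ Real.log x ^ β := by
  have h0 : exp (-(3 / 2) : ℝ) < 1 / 2 := by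
    rw [exp_neg, inv_lt_comm₀ (exp_pos _) (by norm_num)]
    linarith [add_one_le_exp (3 / 2 : ℝ)]
  have hγ : 1 + 2 * exp (-(3 / 2)) < min β 2 := lt_min hβ (by linarith)
  have t1 : Tendsto (fun x : ℕ => log (x : ℝ)) atTop atTop :=
    tendsto_log_atTop.comp tendsto_natCast_atTop_atTop
  have t2 := tendsto_log_atTop.comp t1
  refine eventually_atTop.mp ?_
  filter_upwards [t2.eventually (upper_core hγ (min_le_right _ _)), t1.eventually_ge_atTop 1]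
    with x hx hx1 n₁ n₂ h₁ h₂ hco
  by_contra hcon
  have hL : 0 < log (x : ℝ) := by linarith
  have e1 : log (x : ℝ) ^ min β 2 ≤ log (x : ℝ) ^ β :=
    rpow_le_rpow_of_exponent_le hx1 (min_le_left _ _)
  have e2 : 1 ≤ log (x : ℝ) ^ min β 2 := one_le_rpow hx1 (by linarith [exp_pos (-(3 / 2) : ℝ)])
  have e3 : ⌊log (x : ℝ) ^ min β 2⌋₊ < min (J n₁) (J n₂) := by
    rw [Nat.floor_lt (by linarith)]
    linarith [not_le.mp hcon]
  obtain ⟨n1, N, hN⟩ := run_of_lt_J (lt_min_iff.mp e3).1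
  obtain ⟨n2, N', hN'⟩ := run_of_lt_J (lt_min_iff.mp e3).2
  simp only [Function.comp, exp_log hL] at hx
  refine hx _ _ (fun p hp => Nat.prime_of_mem_primeFactors hp)
    (fun p hp => Nat.prime_of_mem_primeFactors hp) hco.disjoint_primeFactors (card_le n1 h₁)
    (card_le n2 h₂) N N' _ ?_ hN hN'
  rw [mul_comm, ← rpow_def_of_pos hL]
  have e4 := Nat.lt_floor_add_one (log (x : ℝ) ^ min β 2)
  have e5 : (1 : ℝ) ≤ ⌊log (x : ℝ) ^ min β 2⌋₊ := by
    exact_mod_cast (Nat.one_le_floor_iff _).mpr e2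
  linarith

end Pool.Agent.Results.MP_1b1bb8_nt.UpperBound
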