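import Pool.Agent.P.MP_1b1bb8_nt.Growth

/-!
The inequality satisfied by two disjoint sets of primes that both cover an interval.
-/

open Finset Real

namespace Pool.Agent.P.MP_1b1bb8_nt

theorem per_set {C : ℝ} (hC0 : 0 ≤ C) (hC : Window C) {S : Finset ℕ} (hS : ∀ p ∈ S, p.Prime)
    {N H : ℕ} (hH : 0 < H) (hcov : ∀ m ∈ Ioc N (N + H), ∃ p ∈ S, p ∣ m)
    {U Z h₁ h κ B Kb : ℝ} (hh₁ : 0 < h₁) (hU₁ : h₁ < U) (hκ₁ : h₁ + C ≤ κ * h₁)
    (hh : 0 < h) (hU : h < U) (hκ : h + C ≤ κ * h) (hB : B = U - 2 * h + 2 * (U - h) / κ)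
    (hZ : Z < B) (hUZ : U ≤ Z) (hU1 : 1 ≤ U)
    (hK : K (S.filter fun p : ℕ => log (p : ℝ) ≤ U) ≤ Kb) :
    1 ≤ ∑ q ∈ S.filter (fun p : ℕ => log (p : ℝ) ≤ U), κ * (log q + h₁) / (U - h₁) / q
      + ∑ q ∈ S.filter (fun p : ℕ => U < log (p : ℝ) ∧ log (p : ℝ) ≤ Z),
          log (q : ℝ) / q * (2 * (U - h) / (log q * (B - log q)))
      + (Kb ^ 5 * (2 + Z + C) * exp (3 * U) / H + Kb * S.card * (exp (-Z) + 1 / H)) := by
  set S₀ := S.filter fun p : ℕ => log (p : ℝ) ≤ U with hS₀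
  set S₁ := S.filter fun p : ℕ => U < log (p : ℝ) ∧ log (p : ℝ) ≤ Z with hS₁
  set S₂ := S.filter fun p : ℕ => Z < log (p : ℝ) with hS₂
  have h₀ : ∀ p ∈ S₀, p.Prime := fun p hp => hS p (mem_filter.mp hp).1
  have h₁' : ∀ p ∈ S₁, p.Prime := fun p hp => hS p (mem_filter.mp hp).1
  have h₂ : ∀ p ∈ S₂, p.Prime := fun p hp => hS p (mem_filter.mp hp).1
  have hκ1 : 1 ≤ κ := by
    by_contra h4
    nlinarith [mul_pos (sub_pos.mpr (not_le.mp h4)) hh]
  have hW : 0 < U - h := by linarith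
  have hB3 : B ≤ 3 * U := by
    have : 2 * (U - h) / κ ≤ 2 * (U - h) := div_le_self (by linarith) hκ1
    linarith
  have hU0 : 0 ≤ U := by linarith
  have hH0 : (0 : ℝ) < H := by exact_mod_cast hH
  have main := finite_ineq N H h₀ h₁' h₂
    (disjoint_left.mpr fun p hp hp' =>
      absurd (mem_filter.mp hp).2 (not_le.mpr (mem_filter.mp hp').2.1))
    (fun m hm => by
      obtain ⟨p, hp, hpm⟩ := hcov m hm
      by_cases c1 : log (p : ℝ) ≤ U
      · exact Or.inl ⟨p, mem_filter.mpr ⟨hp, c1⟩, hpm⟩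
      · by_cases c2 : log (p : ℝ) ≤ Z
        · exact Or.inr (Or.inl ⟨p, mem_filter.mpr ⟨hp, not_le.mp c1, c2⟩, hpm⟩)
        · exact Or.inr (Or.inr ⟨p, mem_filter.mpr ⟨hp, not_le.mp c2⟩, hpm⟩))
    hU0 (u := fun q => (3 * U - log q) / 2)
    (fun q hq => by linarith [(mem_filter.mp hq).2.2])
  have hg := one_le_g h₀ hU0
  have hg0 : 0 < g S₀ U := by linarith
  have hgK : g S₀ U ≤ Kb := (g_le_K h₀ U).trans hK
  have hK1 := one_le_K h₀
  have a0 : ∑ q ∈ S₀, H / q * ((g S₀ U - g S₀ (U - log q)) / g S₀ U ^ 2)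
      ≤ H / g S₀ U * ∑ q ∈ S₀, κ * (log q + h₁) / (U - h₁) / q := by
    rw [mul_sum]
    refine sum_le_sum fun q hq => ?_
    have h3 := g_ratio hC0 hC h₀ hh₁ hU₁ hκ₁ (log_natCast_nonneg q)
    have h4 : g S₀ U - g S₀ (U - log q) ≤ g S₀ U * (κ * (log q + h₁) / (U - h₁)) := by linarith
    calc _ ≤ H / q * (g S₀ U * (κ * (log q + h₁) / (U - h₁)) / g S₀ U ^ 2) := by gcongr
      _ = _ := by field_simp
  have a1 : ∑ q ∈ S₁, H / q / g S₀ ((3 * U - log q) / 2)
      ≤ H / g S₀ U * ∑ q ∈ S₁, log (q : ℝ) / q * (2 * (U - h) / (log q * (B - log q))) := by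
    rw [mul_sum]
    refine sum_le_sum fun q hq => ?_
    obtain ⟨-, c1, c2⟩ := mem_filter.mp hq
    have hq0 : (0 : ℝ) < q := by exact_mod_cast (h₁' q hq).pos
    have hl : 0 < log (q : ℝ) := by linarith
    have hBq : 0 < B - log q := by linarith
    have h3 := g_ratio hC0 hC h₀ hh hU hκ (show 0 ≤ (log q - U) / 2 by linarith)
    have h4 : U - (log q - U) / 2 = (3 * U - log q) / 2 := by ring
    have h5 : 1 - κ * ((log q - U) / 2 + h) / (U - h) = κ * ((B - log q) / (2 * (U - h))) := by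
      rw [hB]; field_simp; ring
    rw [h4, h5] at h3
    have h6 : 0 < (B - log q) / (2 * (U - h)) := by positivity
    have h7 : g S₀ U * ((B - log q) / (2 * (U - h))) ≤ g S₀ ((3 * U - log q) / 2) :=
      le_trans (mul_le_mul_of_nonneg_left (le_mul_of_one_le_left h6.le hκ1) hg0.le) h3
    calc _ ≤ H / q / (g S₀ U * ((B - log q) / (2 * (U - h)))) :=
          div_le_div_of_nonneg_left (by positivity) (by positivity) h7
      _ = _ := by field_simp
  have hcard : (S₀.card : ℝ) ≤ exp U := by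
    have h3 : S₀ ⊆ Ioc 0 ⌊exp U⌋₊ := fun p hp => by
      have h5 : (0 : ℝ) < p := by exact_mod_cast (h₀ p hp).pos
      refine mem_Ioc.mpr ⟨(h₀ p hp).pos, ?_⟩
      rw [Nat.le_floor_iff (exp_pos _).le, ← log_le_iff_le_exp h5]
      exact (mem_filter.mp hp).2
    have h4 := card_le_card h3
    rw [Nat.card_Ioc, Nat.sub_zero] at h4
    exact (Nat.cast_le.mpr h4).trans (Nat.floor_le (exp_pos _).le)
  have b0 : (1 + (S₀.card : ℝ)) * (exp U * K S₀ ^ 2) ^ 2 ≤ 2 * exp (3 * U) * Kb ^ 4 := by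
    have h3 : exp (3 * U) = exp U ^ 3 := by rw [← exp_nat_mul]; norm_num
    have h4 := one_le_exp hU0
    calc _ ≤ (exp U + exp U) * (exp U * Kb ^ 2) ^ 2 := by gcongr
      _ = _ := by rw [h3]; ring
  have b1 : ∑ q ∈ S₁, (exp ((3 * U - log q) / 2) * K S₀ ^ 2) ^ 2
      ≤ (Z + C) * exp (3 * U) * Kb ^ 4 := by
    have h3 := hC S₁ h₁' 0 Z (by linarith) fun p hp => by
      obtain ⟨-, c1, c2⟩ := mem_filter.mp hp
      constructor <;> linarith
    refine le_trans ?_ (mul_le_mul_of_nonneg_right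
      (mul_le_mul_of_nonneg_right h3 (exp_pos _).le) (by positivity))
    rw [sum_mul, sum_mul]
    refine sum_le_sum fun q hq => ?_
    obtain ⟨-, c1, c2⟩ := mem_filter.mp hq
    have hq2 : (2 : ℝ) ≤ q := by exact_mod_cast (h₁' q hq).two_le
    have h4 : exp ((3 * U - log q) / 2) ^ 2 = 1 / q * exp (3 * U) := by
      rw [← exp_nat_mul]
      push_cast
      rw [show 2 * ((3 * U - log q) / 2) = 3 * U - log q by ring, exp_sub, exp_log (by linarith)]
      ring
    have h5 : 1 / (q : ℝ) ≤ log q / (q - 1) :=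
      div_le_div₀ (by linarith) (by linarith) (by linarith) (by linarith)
    rw [mul_pow, h4, ← pow_mul]
    have h6 : 0 ≤ log (q : ℝ) / (q - 1) := le_trans (by positivity) h5
    gcongr
  have b2 : ∑ q ∈ S₂, ((H : ℝ) / q + 1) ≤ S.card * (H * exp (-Z) + 1) := by
    refine (sum_le_card_nsmul _ _ (H * exp (-Z) + 1) fun q hq => ?_).trans ?_
    · have hq0 : (0 : ℝ) < q := by exact_mod_cast (h₂ q hq).pos
      have h3 : exp Z ≤ q := by
        rw [← le_log_iff_exp_le hq0]; exact (mem_filter.mp hq).2.le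
      rw [exp_neg, ← div_eq_mul_inv]
      have := div_le_div_of_nonneg_left hH0.le (exp_pos Z) h3
      linarith
    · rw [nsmul_eq_mul]
      exact mul_le_mul_of_nonneg_right (Nat.cast_le.mpr (card_filter_le _ _)) (by positivity)
  have hE : (2 + Z + C) * exp (3 * U) * Kb ^ 4 + S.card * (H * exp (-Z) + 1)
      ≤ H / g S₀ U * (Kb ^ 5 * (2 + Z + C) * exp (3 * U) / H
        + Kb * S.card * (exp (-Z) + 1 / H)) := by
    have h3 : 0 ≤ 2 + Z + C := by linarith
    have h4 : 0 < Kb := by linarith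
    calc _ = H / Kb * (Kb ^ 5 * (2 + Z + C) * exp (3 * U) / H
        + Kb * S.card * (exp (-Z) + 1 / H)) := by field_simp
      _ ≤ _ := by gcongr
  have hpos : 0 < (H : ℝ) / g S₀ U := by positivity
  refine le_of_mul_le_mul_left ?_ hpos
  rw [mul_one, mul_add, mul_add]
  linarith

theorem sum_inv_le_log_K {T : Finset ℕ} (hT : ∀ p ∈ T, p.Prime) :
    ∑ p ∈ T, 1 / (p : ℝ) ≤ log (K T) := by
  rw [le_log_iff_exp_le (by linarith [one_le_K hT]), exp_sum]
  refine prod_le_prod (fun p _ => (exp_pos _).le) fun p hp => ?_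
  have : (2 : ℝ) ≤ p := by exact_mod_cast (hT p hp).two_le
  have h1 : 1 / (p : ℝ) ≤ 1 / 2 := by gcongr
  rw [le_inv_comm₀ (exp_pos _) (by linarith), ← exp_neg]
  linarith [add_one_le_exp (-(1 / (p : ℝ)))]

theorem div_le_log_sub {a h : ℝ} (hh : 0 < h) (ha : h < a) : h / a ≤ log a - log (a - h) := by
  have h0 : 0 < a := by linarith
  have h1 := log_le_sub_one_of_pos (show 0 < (a - h) / a from div_pos (by linarith) h0)
  rw [log_div (by linarith) h0.ne', sub_div, div_self h0.ne'] at h1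
  linarith

theorem mid_sum {C : ℝ} (hC0 : 0 ≤ C) (hC : Window C) {T : Finset ℕ} (hT : ∀ p ∈ T, p.Prime)
    {U Z h κ B : ℝ} (hh : 0 < h) (hU : h < U) (hκ : h + C ≤ κ * h) (hZ : Z + 2 * h < B)
    (hUZ : U ≤ Z) (hw : ∀ p ∈ T, U < log (p : ℝ) ∧ log (p : ℝ) ≤ Z) :
    ∑ q ∈ T, log (q : ℝ) / q * (2 * (U - h) / (log q * (B - log q)))
      ≤ κ * (2 * (U - h) / B * (log (Z / (U - h)) + log ((B - U - h) / (B - Z - 2 * h)))) := by
  set n := ⌈(Z - U) / h⌉₊ with hn
  have h2 : Z - U ≤ n * h := by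
    have := Nat.le_ceil ((Z - U) / h)
    rwa [div_le_iff₀ hh] at this
  have h3 : n * h ≤ Z - U + h := by
    have := (Nat.ceil_lt_add_one (div_nonneg (sub_nonneg.mpr hUZ) hh.le)).le
    calc _ ≤ ((Z - U) / h + 1) * h := mul_le_mul_of_nonneg_right this hh.le
      _ = _ := by field_simp
  have hκ0 : 0 ≤ κ := by
    by_contra h4
    nlinarith [mul_pos (neg_pos.mpr (not_le.mp h4)) hh]
  have hW : 0 < U - h := by linarith
  have hB : 0 < B := by linarith
  have hc : 0 ≤ 2 * (U - h) / B := by positivity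
  have hj : ∀ j : ℕ, j < n → 0 ≤ (j : ℝ) * h ∧ (j + 1) * h ≤ Z - U + h := fun j hj => by
    have : (j : ℝ) + 1 ≤ n := by exact_mod_cast hj
    exact ⟨by positivity, (mul_le_mul_of_nonneg_right this hh.le).trans h3⟩
  have step : ∀ j : ℕ, j < n → h / (U + j * h) + h / (B - (U + j * h) - h)
      ≤ (log (U + (j + 1 : ℕ) * h - h) - log (B - (U + (j + 1 : ℕ) * h) - h))
        - (log (U + j * h - h) - log (B - (U + j * h) - h)) := fun j hjn => by
    obtain ⟨c1, c2⟩ := hj j hjn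
    have e1 := div_le_log_sub hh (show h < U + j * h by linarith)
    have e2 := div_le_log_sub hh (show h < B - (U + j * h) - h by linarith)
    have e3 : U + (j + 1 : ℕ) * h - h = U + j * h := by push_cast; ring
    have e4 : B - (U + (j + 1 : ℕ) * h) - h = B - (U + j * h) - h - h := by push_cast; ring
    rw [e3, e4]
    linarith
  have main := window_sum (a := U) hC hh hκ (fun t => 2 * (U - h) / (t * (B - t)))
    (fun j => 2 * (U - h) / B * (log (U + j * h - h) - log (B - (U + j * h) - h))) n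
    (fun j hjn => by
      obtain ⟨c1, c2⟩ := hj j hjn
      have e1 : 0 ≤ h / (U + j * h) := div_nonneg hh.le (by linarith)
      have e2 : 0 ≤ h / (B - (U + j * h) - h) := div_nonneg hh.le (by linarith)
      exact mul_le_mul_of_nonneg_left (by linarith [step j hjn]) hc)
    (fun j hjn t t1 t2 => by
      obtain ⟨c1, c2⟩ := hj j hjn
      have ht : 0 < t := by linarith
      have ht' : 0 < B - t := by linarith
      have e0 : h * (2 * (U - h) / (t * (B - t))) = 2 * (U - h) / B * (h / t + h / (B - t)) := by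
        field_simp; ring
      have e1 : h / t ≤ h / (U + j * h) :=
        div_le_div_of_nonneg_left hh.le (by linarith) t1.le
      have e2 : h / (B - t) ≤ h / (B - (U + j * h) - h) :=
        div_le_div_of_nonneg_left hh.le (by linarith) (by linarith)
      rw [e0, ← mul_sub]
      exact mul_le_mul_of_nonneg_left (by linarith [step j hjn]) hc)
    hC0 T hT fun p hp => ⟨(hw p hp).1, by linarith [(hw p hp).2]⟩
  refine main.trans (mul_le_mul_of_nonneg_left ?_ hκ0)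
  rw [← mul_sub]
  refine mul_le_mul_of_nonneg_left ?_ hc
  have hn0 : 0 ≤ (n : ℝ) * h := by positivity
  have e1 : log (U + n * h - h) ≤ log Z := log_le_log (by linarith) (by linarith)
  have e2 : log (B - Z - 2 * h) ≤ log (B - (U + n * h) - h) :=
    log_le_log (by linarith) (by linarith)
  rw [log_div (by linarith) hW.ne', log_div (by linarith) (by linarith)]
  simp only [Nat.cast_zero, zero_mul, add_zero]
  linarith

theorem pair_ineq {C : ℝ} (hC0 : 0 ≤ C) (hC : Window C) {S S' : Finset ℕ}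
    (hS : ∀ p ∈ S, p.Prime) (hS' : ∀ p ∈ S', p.Prime) (hd : Disjoint S S')
    {N N' H : ℕ} (hH : 0 < H) (hcov : ∀ m ∈ Ioc N (N + H), ∃ p ∈ S, p ∣ m)
    (hcov' : ∀ m ∈ Ioc N' (N' + H), ∃ p ∈ S', p ∣ m)
    {U Z h₁ h κ B Kb M : ℝ} (hh₁ : 0 < h₁) (hU₁ : h₁ < U) (hκ₁ : h₁ + C ≤ κ * h₁)
    (hh : 0 < h) (hU : h < U) (hκ : h + C ≤ κ * h) (hB : B = U - 2 * h + 2 * (U - h) / κ)
    (hZ : Z + 2 * h < B) (hUZ : U ≤ Z) (hU1 : 1 ≤ U)
    (hK : ∀ T : Finset ℕ, (∀ p ∈ T, p.Prime ∧ log (p : ℝ) ≤ U) → K T ≤ Kb)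
    (hM : (S.card : ℝ) ≤ M) (hM' : (S'.card : ℝ) ≤ M) :
    2 ≤ κ * (U + C + h₁ * log Kb) / (U - h₁)
      + κ * (2 * (U - h) / B * (log (Z / (U - h)) + log ((B - U - h) / (B - Z - 2 * h))))
      + 2 * (Kb ^ 5 * (2 + Z + C) * exp (3 * U) / H + Kb * M * (exp (-Z) + 1 / H)) := by
  have hf : ∀ T : Finset ℕ, (∀ p ∈ T, p.Prime) →
      K (T.filter fun p : ℕ => log (p : ℝ) ≤ U) ≤ Kb := fun T hT =>
    hK _ fun p hp => ⟨hT p (mem_filter.mp hp).1, (mem_filter.mp hp).2⟩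
  have i1 := per_set hC0 hC hS hH hcov hh₁ hU₁ hκ₁ hh hU hκ hB (by linarith) hUZ hU1 (hf S hS)
  have i2 := per_set hC0 hC hS' hH hcov' hh₁ hU₁ hκ₁ hh hU hκ hB (by linarith) hUZ hU1 (hf S' hS')
  have hT : ∀ p ∈ S ∪ S', p.Prime := fun p hp => (mem_union.mp hp).elim (hS p) (hS' p)
  have j1 := mid_sum hC0 hC (T := (S ∪ S').filter fun p : ℕ => U < log (p : ℝ) ∧ log (p : ℝ) ≤ Z)
    (fun p hp => hT p (mem_filter.mp hp).1) hh hU hκ hZ hUZ fun p hp => (mem_filter.mp hp).2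
  rw [filter_union, sum_union (disjoint_filter_filter hd)] at j1
  have hκ0 : 0 ≤ κ := by
    by_contra h4
    nlinarith [mul_pos (neg_pos.mpr (not_le.mp h4)) hh]
  have j0 : ∑ q ∈ (S ∪ S').filter (fun p : ℕ => log (p : ℝ) ≤ U), κ * (log q + h₁) / (U - h₁) / q
      ≤ κ * (U + C + h₁ * log Kb) / (U - h₁) := by
    set T := (S ∪ S').filter fun p : ℕ => log (p : ℝ) ≤ U with hTd
    have hT' : ∀ p ∈ T, p.Prime := fun p hp => hT p (mem_filter.mp hp).1
    have e1 := hC T hT' 0 U (by linarith) fun p hp =>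
      ⟨log_pos (by exact_mod_cast (hT' p hp).one_lt), by linarith [(mem_filter.mp hp).2]⟩
    have e2 := (sum_inv_le_log_K hT').trans (log_le_log (by linarith [one_le_K hT']) (hf _ hT))
    have e3 : ∑ q ∈ T, log (q : ℝ) / q ≤ ∑ q ∈ T, log (q : ℝ) / (q - 1) :=
      sum_le_sum fun p hp => by
        have hp2 : (2 : ℝ) ≤ p := by exact_mod_cast (hT' p hp).two_le
        exact div_le_div_of_nonneg_left (log_natCast_nonneg p) (by linarith) (by linarith)
    have e4 : ∑ q ∈ T, κ * (log q + h₁) / (U - h₁) / q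
        = κ * (∑ q ∈ T, log (q : ℝ) / q + h₁ * ∑ q ∈ T, 1 / (q : ℝ)) / (U - h₁) := by
      rw [mul_sum, ← sum_add_distrib, mul_sum, sum_div]
      exact sum_congr rfl fun q _ => by ring
    rw [e4]
    refine div_le_div_of_nonneg_right (mul_le_mul_of_nonneg_left ?_ hκ0) (by linarith)
    linarith [mul_le_mul_of_nonneg_left e2 hh₁.le]
  rw [filter_union, sum_union (disjoint_filter_filter hd)] at j0
  have hKb : 0 ≤ Kb := le_trans (by simp [K]) (hK ∅ (by simp))
  have k1 : Kb * S.card * (exp (-Z) + 1 / H) ≤ Kb * M * (exp (-Z) + 1 / H) := by gcongr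
  have k2 : Kb * S'.card * (exp (-Z) + 1 / H) ≤ Kb * M * (exp (-Z) + 1 / H) := by gcongr
  linarith

end Pool.Agent.P.MP_1b1bb8_nt
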