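import Mathlib

/-!
Selberg type quadratic forms on an interval, in the orthogonal basis `Zf`.
-/

open Finset Real

namespace Pool.Agent.P.MP_1b1bb8_nt

/-- Indicator of `d ∣ m`. -/
noncomputable def X (d m : ℕ) : ℝ := if d ∣ m then 1 else 0

noncomputable def Zf (r : Finset ℕ) (m : ℕ) : ℝ := ∏ p ∈ r, (1 - (p : ℝ) * X p m)

noncomputable def ph (r : Finset ℕ) : ℝ := ∏ p ∈ r, ((p : ℝ) - 1)

noncomputable def sg (r : Finset ℕ) : ℝ := ∏ p ∈ r, ((p : ℝ) + 1)

noncomputable def F (S : Finset ℕ) (c : Finset ℕ → ℝ) (m : ℕ) : ℝ :=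
  ∑ r ∈ S.powerset, c r * Zf r m

noncomputable def Nm (S : Finset ℕ) (c : Finset ℕ → ℝ) : ℝ := ∑ r ∈ S.powerset, |c r| * sg r

noncomputable def ip (S : Finset ℕ) (c c' : Finset ℕ → ℝ) : ℝ :=
  ∑ r ∈ S.powerset, c r * c' r * ph r

theorem X_nonneg (d m : ℕ) : 0 ≤ X d m := by unfold X; split_ifs <;> norm_num

theorem X_mul {d p : ℕ} (h : Nat.Coprime p d) (m : ℕ) : X d m * X p m = X (d * p) m := by
  unfold X
  by_cases h1 : d ∣ m
  · by_cases h2 : p ∣ m
    · rw [if_pos h1, if_pos h2, if_pos (h.symm.mul_dvd_of_dvd_of_dvd h1 h2), one_mul]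
    · rw [if_pos h1, if_neg h2, if_neg fun h3 => h2 ((dvd_mul_left p d).trans h3), one_mul]
  · rw [if_neg h1, if_neg fun h3 => h1 ((dvd_mul_right d p).trans h3), zero_mul]

theorem X_sq (p m : ℕ) : X p m * X p m = X p m := by unfold X; split_ifs <;> norm_num

theorem count_X (N H : ℕ) {d : ℕ} (hd : 0 < d) :
    |∑ m ∈ Ioc N (N + H), X d m - H / d| ≤ 1 := by
  have h0 : ∀ n : ℕ, ∑ m ∈ Ioc 0 n, X d m = ((n / d : ℕ) : ℝ) := by
    intro n
    rw [← Nat.Ioc_filter_dvd_card_eq_div, card_filter]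
    push_cast
    rfl
  have h1 : ∑ m ∈ Ioc 0 N, X d m + ∑ m ∈ Ioc N (N + H), X d m = ∑ m ∈ Ioc 0 (N + H), X d m :=
    sum_Ioc_consecutive _ (Nat.zero_le _) (Nat.le_add_right _ _)
  rw [h0, h0] at h1
  have h2 : ∀ n : ℕ, ((n / d : ℕ) : ℝ) ≤ n / d ∧ (n : ℝ) / d < (n / d : ℕ) + 1 := fun n => by
    refine ⟨Nat.cast_div_le, ?_⟩
    have := Nat.lt_floor_add_one ((n : ℝ) / d)
    rwa [Nat.floor_div_eq_div] at this
  have h3 := h2 N
  have h4 := h2 (N + H)
  push_cast at h4
  rw [add_div] at h4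
  rw [abs_le]
  constructor <;> linarith [h3.1, h3.2, h4.1, h4.2]

theorem sum_pow_insert {S : Finset ℕ} {p : ℕ} (hp : p ∉ S) (f : Finset ℕ → ℝ) :
    ∑ r ∈ (insert p S).powerset, f r
      = ∑ r ∈ S.powerset, f r + ∑ r ∈ S.powerset, f (insert p r) :=
  sum_powerset_insert hp f

theorem F_insert {S : Finset ℕ} {p : ℕ} (hp : p ∉ S) (c : Finset ℕ → ℝ) (m : ℕ) :
    F (insert p S) c m
      = F S c m + (1 - (p : ℝ) * X p m) * F S (fun r => c (insert p r)) m := by
  unfold F
  rw [sum_pow_insert hp, mul_sum]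
  congr 1
  refine sum_congr rfl fun r hr => ?_
  have : p ∉ r := fun h => hp (mem_powerset.mp hr h)
  unfold Zf
  rw [prod_insert this]
  ring

theorem Nm_insert {S : Finset ℕ} {p : ℕ} (hp : p ∉ S) (c : Finset ℕ → ℝ) :
    Nm (insert p S) c = Nm S c + ((p : ℝ) + 1) * Nm S (fun r => c (insert p r)) := by
  unfold Nm
  rw [sum_pow_insert hp, mul_sum]
  congr 1
  refine sum_congr rfl fun r hr => ?_
  have : p ∉ r := fun h => hp (mem_powerset.mp hr h)
  unfold sg
  rw [prod_insert this]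
  ring

theorem ip_insert {S : Finset ℕ} {p : ℕ} (hp : p ∉ S) (c c' : Finset ℕ → ℝ) :
    ip (insert p S) c c' = ip S c c'
      + ((p : ℝ) - 1) * ip S (fun r => c (insert p r)) (fun r => c' (insert p r)) := by
  unfold ip
  rw [sum_pow_insert hp, mul_sum]
  congr 1
  refine sum_congr rfl fun r hr => ?_
  have : p ∉ r := fun h => hp (mem_powerset.mp hr h)
  unfold ph
  rw [prod_insert this]
  ring

theorem sg_nonneg (r : Finset ℕ) : 0 ≤ sg r := prod_nonneg fun _ _ => by positivity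

theorem Nm_nonneg (S : Finset ℕ) (c : Finset ℕ → ℝ) : 0 ≤ Nm S c :=
  sum_nonneg fun r _ => mul_nonneg (abs_nonneg _) (sg_nonneg r)

theorem bilinear (N H : ℕ) (S : Finset ℕ) (hS : ∀ p ∈ S, p.Prime) :
    ∀ d : ℕ, 0 < d → (∀ p ∈ S, Nat.Coprime p d) → ∀ c c' : Finset ℕ → ℝ,
      |∑ m ∈ Ioc N (N + H), X d m * (F S c m * F S c' m) - H / d * ip S c c'|
        ≤ Nm S c * Nm S c' := by
  induction S using Finset.induction_on with
  | empty =>
    intro d hd _ c c'
    simp only [F, Nm, ip, Zf, sg, ph, powerset_empty, sum_singleton, prod_empty, mul_one]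
    rw [← sum_mul, ← sub_mul, abs_mul, abs_mul]
    have := count_X N H hd
    nlinarith [abs_nonneg (c ∅), abs_nonneg (c' ∅), mul_nonneg (abs_nonneg (c ∅)) (abs_nonneg (c' ∅))]
  | insert p S hp ih =>
    intro d hd hco c c'
    have hS' : ∀ q ∈ S, q.Prime := fun q hq => hS q (mem_insert_of_mem hq)
    have hpp : p.Prime := hS p (mem_insert_self _ _)
    have hpd : Nat.Coprime p d := hco p (mem_insert_self _ _)
    have h1 := ih hS' d hd fun q hq => hco q (mem_insert_of_mem hq)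
    have h2 := ih hS' (d * p) (Nat.mul_pos hd hpp.pos) fun q hq =>
      Nat.Coprime.mul_right (hco q (mem_insert_of_mem hq))
        ((Nat.coprime_primes (hS' q hq) hpp).mpr fun e => hp (e ▸ hq))
    set a := fun r => c (insert p r) with ha
    set b := fun r => c' (insert p r) with hb
    have hp2 : (2 : ℝ) ≤ p := by exact_mod_cast hpp.two_le
    have hd0 : (0 : ℝ) < d := by exact_mod_cast hd
    have key : ∑ m ∈ Ioc N (N + H), X d m * (F (insert p S) c m * F (insert p S) c' m)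
        - H / d * ip (insert p S) c c'
        = (∑ m ∈ Ioc N (N + H), X d m * (F S c m * F S c' m) - H / d * ip S c c')
        + (∑ m ∈ Ioc N (N + H), X d m * (F S c m * F S b m) - H / d * ip S c b)
        - p * (∑ m ∈ Ioc N (N + H), X (d * p) m * (F S c m * F S b m)
            - H / (d * p : ℕ) * ip S c b)
        + (∑ m ∈ Ioc N (N + H), X d m * (F S a m * F S c' m) - H / d * ip S a c')
        - p * (∑ m ∈ Ioc N (N + H), X (d * p) m * (F S a m * F S c' m)
            - H / (d * p : ℕ) * ip S a c')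
        + (∑ m ∈ Ioc N (N + H), X d m * (F S a m * F S b m) - H / d * ip S a b)
        + (p ^ 2 - 2 * p) * (∑ m ∈ Ioc N (N + H), X (d * p) m * (F S a m * F S b m)
            - H / (d * p : ℕ) * ip S a b) := by
      have e1 : ∀ m, X d m * (F (insert p S) c m * F (insert p S) c' m)
          = X d m * (F S c m * F S c' m) + X d m * (F S c m * F S b m)
            - p * (X (d * p) m * (F S c m * F S b m)) + X d m * (F S a m * F S c' m)
            - p * (X (d * p) m * (F S a m * F S c' m)) + X d m * (F S a m * F S b m)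
            + (p ^ 2 - 2 * p) * (X (d * p) m * (F S a m * F S b m)) := by
        intro m
        rw [F_insert hp, F_insert hp, ← X_mul hpd]
        have := X_sq p m
        linear_combination (X d m * (p : ℝ) ^ 2 * F S a m * F S b m) * this
      simp only [e1, sum_add_distrib, sum_sub_distrib, ← mul_sum]
      rw [ip_insert hp]
      push_cast
      field_simp
      ring
    rw [key, Nm_insert hp, Nm_insert hp]
    have t1 := abs_le.mp (h1 c c')
    have t2 := abs_le.mp (h1 c b)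
    have t3 := abs_le.mp (h2 c b)
    have t4 := abs_le.mp (h1 a c')
    have t5 := abs_le.mp (h2 a c')
    have t6 := abs_le.mp (h1 a b)
    have t7 := abs_le.mp (h2 a b)
    have hp0 : (0 : ℝ) ≤ p := by linarith
    have hq0 : (0 : ℝ) ≤ p ^ 2 - 2 * p := by nlinarith
    have n1 := mul_nonneg hp0 (mul_nonneg (Nm_nonneg S a) (Nm_nonneg S b))
    rw [abs_le]
    constructor
    · nlinarith [mul_le_mul_of_nonneg_left t3.2 hp0, mul_le_mul_of_nonneg_left t5.2 hp0,
        mul_le_mul_of_nonneg_left t7.1 hq0]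
    · nlinarith [mul_le_mul_of_nonneg_left t3.1 hp0, mul_le_mul_of_nonneg_left t5.1 hp0,
        mul_le_mul_of_nonneg_left t7.2 hq0]

end Pool.Agent.P.MP_1b1bb8_nt
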